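import Pool.Agent.HFL.OM

set_option autoImplicit false

open scoped BigOperators Classical

namespace Pool.Agent.HFL

open Finset

variable {κ : Type} {Ω : Type}

private theorem UPD_ch [Fintype κ] (l : ℕ) (ρ σ : Equiv.Perm (Om κ l)) (x : Om κ (l + 1) → ℝ)
    (a c : Om κ l → ℝ) :
    ∑ i, (ch1 ρ x i - a i) ^ 2 + ∑ i, (ch2 ρ σ x i - c i) ^ 2 =
      2 * (∑ i, (lh x i - (a i + c (σ.symm i)) / 2) ^ 2 +
        ∑ i, (rh x i - (a (ρ.symm i) - c (σ.symm (ρ.symm i))) / 2) ^ 2) := by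
  have h1 : ∑ i, (ch2 ρ σ x i - c i) ^ 2 =
      ∑ j, (lh x j - rh x (ρ j) - c (σ.symm j)) ^ 2 := by
    rw [← Equiv.sum_comp σ (fun j => (lh x j - rh x (ρ j) - c (σ.symm j)) ^ 2)]
    refine Finset.sum_congr rfl fun i _ => ?_
    rw [Equiv.symm_apply_apply]
    rfl
  have h2 : ∑ i, (rh x i - (a (ρ.symm i) - c (σ.symm (ρ.symm i))) / 2) ^ 2 =
      ∑ j, (rh x (ρ j) - (a j - c (σ.symm j)) / 2) ^ 2 := by
    rw [← Equiv.sum_comp ρ (fun i => (rh x i - (a (ρ.symm i) - c (σ.symm (ρ.symm i))) / 2) ^ 2)]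
    refine Finset.sum_congr rfl fun i _ => ?_
    rw [Equiv.symm_apply_apply]
  rw [h1, h2, ← Finset.sum_add_distrib, ← Finset.sum_add_distrib, Finset.mul_sum]
  refine Finset.sum_congr rfl fun i _ => ?_
  show (lh x i + rh x (ρ i) - a i) ^ 2 + _ = _
  ring

/-- UPD -/
theorem dn_norm [Fintype κ] (l : ℕ) (D : Dt κ l) (x : Om κ l → ℝ) :
    ∑ i, dn l D x i ^ 2 = 2 ^ l * ∑ i, x i ^ 2 := by
  induction l with
  | zero =>
    rw [pow_zero, one_mul]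
    rfl
  | succ l ih =>
    rw [sum_Om (fun i => dn (l + 1) D x i ^ 2), sum_Om (fun i => x i ^ 2)]
    have e1 : ∑ i, dn (l + 1) D x (Sum.inl i) ^ 2 = ∑ i, dn l D.2.1 (ch1 D.1.1 x) i ^ 2 := rfl
    have e2 : ∑ i, dn (l + 1) D x (Sum.inr i) ^ 2 =
        ∑ i, dn l D.2.2 (ch2 D.1.1 D.1.2 x) i ^ 2 := rfl
    have h := UPD_ch l D.1.1 D.1.2 x (fun _ => 0) (fun _ => 0)
    simp only [sub_zero, add_zero, zero_div] at h
    rw [e1, e2, ih, ih, ← mul_add, h, pow_succ]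
    have e3 : ∑ i, lh x i ^ 2 = ∑ i, x (Sum.inl i) ^ 2 := rfl
    have e4 : ∑ i, rh x i ^ 2 = ∑ i, x (Sum.inr i) ^ 2 := rfl
    rw [e3, e4]
    ring

private theorem UPD_eq [Fintype κ] (l : ℕ) (D : Dt κ l) (b x : Om κ l → ℝ) :
    2 ^ l * ∑ i, (x i - up l D b i) ^ 2 = ∑ i, (b i - dn l D x i) ^ 2 := by
  induction l with
  | zero =>
    rw [pow_zero, one_mul]
    refine Finset.sum_congr rfl fun i _ => ?_
    show (x i - b i) ^ 2 = (b i - x i) ^ 2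
    ring
  | succ l ih =>
    rw [sum_Om (fun i => (x i - up (l + 1) D b i) ^ 2),
      sum_Om (fun i => (b i - dn (l + 1) D x i) ^ 2)]
    have e1 : ∑ i, (b (Sum.inl i) - dn (l + 1) D x (Sum.inl i)) ^ 2 =
        ∑ i, (lh b i - dn l D.2.1 (ch1 D.1.1 x) i) ^ 2 := rfl
    have e2 : ∑ i, (b (Sum.inr i) - dn (l + 1) D x (Sum.inr i)) ^ 2 =
        ∑ i, (rh b i - dn l D.2.2 (ch2 D.1.1 D.1.2 x) i) ^ 2 := rfl
    have h := UPD_ch l D.1.1 D.1.2 x (up l D.2.1 (lh b)) (up l D.2.2 (rh b))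
    rw [e1, e2, ← ih, ← ih, ← mul_add, h, pow_succ]
    have e3 : ∑ i, (lh x i - (up l D.2.1 (lh b) i + up l D.2.2 (rh b) (D.1.2.symm i)) / 2) ^ 2 =
        ∑ i, (x (Sum.inl i) - up (l + 1) D b (Sum.inl i)) ^ 2 := rfl
    have e4 : ∑ i, (rh x i - (up l D.2.1 (lh b) (D.1.1.symm i) -
        up l D.2.2 (rh b) (D.1.2.symm (D.1.1.symm i))) / 2) ^ 2 =
        ∑ i, (x (Sum.inr i) - up (l + 1) D b (Sum.inr i)) ^ 2 := rfl
    rw [e3, e4]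
    ring

/-- UPD -/
theorem up_dist [Fintype κ] (l : ℕ) (D : Dt κ l) (b x : Om κ l → ℝ) :
    ∑ i, (x i - up l D b i) ^ 2 ≤ ∑ i, (b i - dn l D x i) ^ 2 := by
  rw [← UPD_eq l D b x]
  have h1 : (0 : ℝ) ≤ ∑ i, (x i - up l D b i) ^ 2 := Finset.sum_nonneg fun i _ => sq_nonneg _
  have h2 : (1 : ℝ) ≤ 2 ^ l := one_le_pow₀ (by norm_num)
  nlinarith

end Pool.Agent.HFL
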