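import Pool.Agent.HFL.HMT
import Pool.Agent.HFL.UPD

set_option autoImplicit false

open scoped BigOperators Classical

namespace Pool.Agent.HFL

open Finset

variable {κ : Type} {Ω : Type}

private theorem BAL_pt (u v : ℝ) : u ^ 2 ≤ 11 / 10 * v ^ 2 + 11 * (u - v) ^ 2 := by
  nlinarith [sq_nonneg (v - 10 * (u - v))]

private theorem BAL_sum {ι : Type} [Fintype ι] (u v : ι → ℝ) :
    ∑ i, u i ^ 2 ≤ 11 / 10 * ∑ i, v i ^ 2 + 11 * ∑ i, (u i - v i) ^ 2 := by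
  rw [Finset.mul_sum, Finset.mul_sum, ← Finset.sum_add_distrib]
  exact Finset.sum_le_sum fun i _ => BAL_pt (u i) (v i)

private theorem BAL_sg {ι : Type} [Fintype ι] (x : ι → ℝ) (hx : ∀ i, x i = 1 ∨ x i = -1) :
    ∑ i, x i ^ 2 = Fintype.card ι := by
  have h : ∀ i ∈ (univ : Finset ι), x i ^ 2 = 1 := by
    intro i _
    rcases hx i with h | h <;> rw [h] <;> norm_num
  rw [Finset.sum_congr rfl h]
  simp

private theorem BAL_ch {ι : Type} [Fintype ι] (y : ι → ℝ)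
    (hy : ∀ i, y i = 0 ∨ y i ^ 2 = 4) :
    ∑ i, y i ^ 2 = 4 * ((univ.filter fun i => y i ≠ 0).card : ℝ) := by
  have h : ∀ i ∈ (univ : Finset ι), y i ^ 2 = if y i ≠ 0 then (4 : ℝ) else 0 := by
    intro i _
    rcases hy i with h | h
    · rw [h]; simp
    · have h0 : y i ≠ 0 := by
        intro h0
        rw [h0] at h
        norm_num at h
      rw [if_pos h0, h]
  rw [Finset.sum_congr rfl h, ← Finset.sum_filter, Finset.sum_const, nsmul_eq_mul, mul_comm]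

/-- BAL -/
theorem balance [Fintype κ] [Nonempty κ] (A : κ → κ → ℝ) (hA : IsH A) (l : ℕ)
    (D : Dt κ (l + 1)) (x w : Om κ (l + 1) → ℝ) (hx : Sg x) (hw : Sg w)
    (hc : ∑ i, (√(Fintype.card (Om κ (l + 1)) : ℝ) / Fintype.card κ * ht A (l + 1) w i -
      dn (l + 1) D x i) ^ 2 ≤ (1 / 200000 : ℝ) ^ 2 * Fintype.card κ) :
    4 * Fintype.card (Om κ l) ≤ 10 * (univ.filter fun i => ch1 D.1.1 x i ≠ 0).card ∧
      10 * (univ.filter fun i => ch1 D.1.1 x i ≠ 0).card ≤ 6 * Fintype.card (Om κ l) := by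
  have hN : (0 : ℝ) < Fintype.card κ := by exact_mod_cast Fintype.card_pos
  have hM2 : (Fintype.card (Om κ (l + 1)) : ℝ) = 2 * Fintype.card (Om κ l) := by
    exact_mod_cast card_Om_succ κ l
  have hM1 : (Fintype.card (Om κ l) : ℝ) = 2 ^ l * Fintype.card κ := by
    exact_mod_cast card_Om κ l
  have h2l : (1 : ℝ) ≤ 2 ^ l := one_le_pow₀ (by norm_num)
  have hM0 : (0 : ℝ) < Fintype.card (Om κ l) := by
    rw [hM1]
    positivity
  have hNM : (Fintype.card κ : ℝ) ≤ Fintype.card (Om κ l) := by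
    rw [hM1]
    nlinarith
  -- the first halves
  have hlw : ∑ i, (lh w) i ^ 2 = (Fintype.card (Om κ l) : ℝ) :=
    BAL_sg (lh w) (fun i => hw (Sum.inl i))
  have hht : ∑ i, ht A l (lh w) i ^ 2 = Fintype.card κ * (Fintype.card (Om κ l) : ℝ) := by
    rw [ht_norm A hA l (lh w), hlw]
  have hch : ∑ i, ch1 D.1.1 x i ^ 2 =
      4 * ((univ.filter fun i => ch1 D.1.1 x i ≠ 0).card : ℝ) := by
    refine BAL_ch (ch1 D.1.1 x) (fun i => ?_)
    have e : ch1 D.1.1 x i = x (Sum.inl i) + x (Sum.inr (D.1.1 i)) := rfl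
    rw [e]
    rcases hx (Sum.inl i) with h1 | h1 <;> rcases hx (Sum.inr (D.1.1 i)) with h2 | h2 <;>
      rw [h1, h2] <;> norm_num
  have hdn : ∑ i, dn l D.2.1 (ch1 D.1.1 x) i ^ 2 =
      2 ^ l * (4 * ((univ.filter fun i => ch1 D.1.1 x i ≠ 0).card : ℝ)) := by
    rw [dn_norm, hch]
  -- the distance
  have hd : ∑ i : Om κ l, (√(Fintype.card (Om κ (l + 1)) : ℝ) / Fintype.card κ *
      ht A l (lh w) i - dn l D.2.1 (ch1 D.1.1 x) i) ^ 2 ≤
        (1 / 200000 : ℝ) ^ 2 * Fintype.card κ := by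
    refine le_trans ?_ hc
    rw [sum_Om (κ := κ) (l := l)]
    refine le_trans (le_of_eq ?_) (le_add_of_nonneg_right
      (Finset.sum_nonneg fun i _ => sq_nonneg _))
    rfl
  set N : ℝ := (Fintype.card κ : ℝ) with hNd
  set M : ℝ := (Fintype.card (Om κ l) : ℝ) with hMd
  set s : ℝ := ((univ.filter fun i => ch1 D.1.1 x i ≠ 0).card : ℝ) with hsd
  set c : ℝ := √(Fintype.card (Om κ (l + 1)) : ℝ) / N with hcd
  have hcs : c ^ 2 * N ^ 2 = 2 * M := by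
    rw [hcd, div_pow, Real.sq_sqrt (Nat.cast_nonneg _), hM2]
    field_simp
  have hu : (∑ i, (c * ht A l (lh w) i) ^ 2) * N = 2 * M ^ 2 := by
    have e1 : ∑ i, (c * ht A l (lh w) i) ^ 2 = c ^ 2 * (N * M) := by
      rw [← hht, Finset.mul_sum]
      exact Finset.sum_congr rfl fun i _ => by ring
    rw [e1]
    calc c ^ 2 * (N * M) * N = (c ^ 2 * N ^ 2) * M := by ring
      _ = 2 * M ^ 2 := by rw [hcs]; ring
  have hv : (∑ i, dn l D.2.1 (ch1 D.1.1 x) i ^ 2) * N = 4 * s * M := by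
    rw [hdn, hM1]
    ring
  have k1 : ∑ i, (c * ht A l (lh w) i) ^ 2 ≤
      11 / 10 * ∑ i, dn l D.2.1 (ch1 D.1.1 x) i ^ 2 +
        11 * ∑ i, (c * ht A l (lh w) i - dn l D.2.1 (ch1 D.1.1 x) i) ^ 2 :=
    BAL_sum (fun i => c * ht A l (lh w) i) (fun i => dn l D.2.1 (ch1 D.1.1 x) i)
  have k2 : ∑ i, dn l D.2.1 (ch1 D.1.1 x) i ^ 2 ≤
      11 / 10 * ∑ i, (c * ht A l (lh w) i) ^ 2 +
        11 * ∑ i, (dn l D.2.1 (ch1 D.1.1 x) i - c * ht A l (lh w) i) ^ 2 :=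
    BAL_sum (fun i => dn l D.2.1 (ch1 D.1.1 x) i) (fun i => c * ht A l (lh w) i)
  have hsw : ∑ i, (dn l D.2.1 (ch1 D.1.1 x) i - c * ht A l (lh w) i) ^ 2 =
      ∑ i, (c * ht A l (lh w) i - dn l D.2.1 (ch1 D.1.1 x) i) ^ 2 :=
    Finset.sum_congr rfl fun i _ => by ring
  rw [hsw] at k2
  set U : ℝ := ∑ i, (c * ht A l (lh w) i) ^ 2 with hUd
  set V : ℝ := ∑ i, dn l D.2.1 (ch1 D.1.1 x) i ^ 2 with hVd
  set T : ℝ := ∑ i, (c * ht A l (lh w) i - dn l D.2.1 (ch1 D.1.1 x) i) ^ 2 with hTd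
  have hTN : T * N ≤ (1 / 200000 : ℝ) ^ 2 * M ^ 2 := by
    have a1 : T * N ≤ (1 / 200000 : ℝ) ^ 2 * N * N := mul_le_mul_of_nonneg_right hd hN.le
    nlinarith
  have q1 : 2 * M ^ 2 ≤ 11 / 10 * (4 * s * M) + 11 * ((1 / 200000 : ℝ) ^ 2 * M ^ 2) := by
    have a1 := mul_le_mul_of_nonneg_right k1 hN.le
    have a2 : (11 / 10 * V + 11 * T) * N = 11 / 10 * (V * N) + 11 * (T * N) := by ring
    rw [a2, hu, hv] at a1
    linarith
  have q2 : 4 * s * M ≤ 11 / 10 * (2 * M ^ 2) + 11 * ((1 / 200000 : ℝ) ^ 2 * M ^ 2) := by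
    have a1 := mul_le_mul_of_nonneg_right k2 hN.le
    have a2 : (11 / 10 * U + 11 * T) * N = 11 / 10 * (U * N) + 11 * (T * N) := by ring
    rw [a2, hu, hv] at a1
    linarith
  have r1 : 4 * M ≤ 10 * s := by
    have : 4 * M * M ≤ 10 * s * M := by nlinarith
    exact le_of_mul_le_mul_right this hM0
  have r2 : 10 * s ≤ 6 * M := by
    have : 10 * s * M ≤ 6 * M * M := by nlinarith
    exact le_of_mul_le_mul_right this hM0
  constructor
  · rw [hMd, hsd] at r1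
    exact_mod_cast r1
  · rw [hMd, hsd] at r2
    exact_mod_cast r2

end Pool.Agent.HFL
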