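import Pool.Agent.HFL.OM

set_option autoImplicit false

open scoped BigOperators Classical

namespace Pool.Agent.HFL

open Finset

variable {κ : Type} {Ω : Type}

/-- BMO: Markov's inequality for one vector -/
theorem bmo_markov {D : Type} [Fintype D] (G : D → ℝ) (a t B : ℝ) (ha : 0 ≤ a)
    (hG : ∑ d, Real.exp (a * G d) ≤ B) :
    ((univ.filter fun d : D => t ≤ G d).card : ℝ) ≤ Real.exp (-(a * t)) * B := by
  have h1 : ((univ.filter fun d : D => t ≤ G d).card : ℝ) * Real.exp (a * t) ≤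
      ∑ d, Real.exp (a * G d) := by
    calc ((univ.filter fun d : D => t ≤ G d).card : ℝ) * Real.exp (a * t)
        = ∑ _d ∈ univ.filter (fun d : D => t ≤ G d), Real.exp (a * t) := by
          rw [Finset.sum_const, nsmul_eq_mul]
      _ ≤ ∑ d ∈ univ.filter (fun d : D => t ≤ G d), Real.exp (a * G d) := by
          refine Finset.sum_le_sum fun d hd => ?_
          rw [Finset.mem_filter] at hd
          exact Real.exp_le_exp.2 (mul_le_mul_of_nonneg_left hd.2 ha)
      _ ≤ ∑ d, Real.exp (a * G d) :=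
          Finset.sum_le_sum_of_subset_of_nonneg (Finset.filter_subset _ _)
            fun d _ _ => (Real.exp_pos _).le
  have h2 : ((univ.filter fun d : D => t ≤ G d).card : ℝ) * Real.exp (a * t) ≤ B :=
    h1.trans hG
  rw [Real.exp_neg, inv_mul_eq_div, le_div_iff₀ (Real.exp_pos _)]
  exact h2

/-- BMO: the sign vectors -/
theorem bmo_signs {Ω : Type} [Fintype Ω] :
    ∃ S : Finset (Ω → ℝ), (∀ x : Ω → ℝ, Sg x → x ∈ S) ∧ S.card = 2 ^ Fintype.card Ω := by
  refine ⟨Fintype.piFinset fun _ => ({1, -1} : Finset ℝ), ?_, ?_⟩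
  · intro x hx
    rw [Fintype.mem_piFinset]
    intro i
    rcases hx i with h | h
    · simp [h]
    · simp [h]
  · rw [Fintype.card_piFinset]
    have h2 : ({1, -1} : Finset ℝ).card = 2 := by
      rw [Finset.card_pair]
      norm_num
    simp [h2]

/-- BMO -/
theorem bad_mom [Fintype κ] [Nonempty κ] (l : ℕ) (F : Dt κ l → (Om κ l → ℝ) → ℝ) (c t : ℝ)
    (hc : 0 < c) (hF : ∀ x : Om κ l → ℝ, ∑ D, Real.exp (c * Fintype.card (Om κ l) * F D x) ≤
      2 ^ (2 ^ l) * Fintype.card (Dt κ l)) (ht : Real.log 4 ≤ c * t) :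
    ((univ.filter fun D : Dt κ l => ∃ x : Om κ l → ℝ, Sg x ∧ t ≤ F D x).card : ℝ) ≤
      2 ^ (2 ^ l) * Real.exp (-(Real.log 2 * Fintype.card (Om κ l))) *
        Fintype.card (Dt κ l) := by
  obtain ⟨S, hS, hcard⟩ := bmo_signs (Ω := Om κ l)
  set n : ℕ := Fintype.card (Om κ l) with hn
  set B : ℝ := 2 ^ (2 ^ l) * Fintype.card (Dt κ l) with hB
  have hB0 : 0 ≤ B := by positivity
  have hsub : (univ.filter fun D : Dt κ l => ∃ x : Om κ l → ℝ, Sg x ∧ t ≤ F D x) ⊆
      S.biUnion fun x => univ.filter fun D : Dt κ l => t ≤ F D x := by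
    intro D hD
    rw [Finset.mem_filter] at hD
    obtain ⟨_, x, hx, htx⟩ := hD
    rw [Finset.mem_biUnion]
    exact ⟨x, hS x hx, Finset.mem_filter.2 ⟨Finset.mem_univ _, htx⟩⟩
  have h1 : ((univ.filter fun D : Dt κ l => ∃ x : Om κ l → ℝ, Sg x ∧ t ≤ F D x).card : ℝ) ≤
      ∑ x ∈ S, ((univ.filter fun D : Dt κ l => t ≤ F D x).card : ℝ) := by
    have h := (Finset.card_le_card hsub).trans Finset.card_biUnion_le
    exact_mod_cast h
  have h2 : ∑ x ∈ S, ((univ.filter fun D : Dt κ l => t ≤ F D x).card : ℝ) ≤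
      ∑ _x ∈ S, Real.exp (-(c * n * t)) * B := by
    refine Finset.sum_le_sum fun x _ => ?_
    exact bmo_markov (fun D => F D x) (c * n) t B (by positivity) (hF x)
  have h3 : ∑ _x ∈ S, Real.exp (-(c * n * t)) * B =
      2 ^ n * (Real.exp (-(c * n * t)) * B) := by
    rw [Finset.sum_const, nsmul_eq_mul, hcard]
    push_cast
    ring
  have h4 : (2 : ℝ) ^ n = Real.exp (Real.log 2 * n) := by
    rw [Real.exp_mul, Real.exp_log (by norm_num), Real.rpow_natCast]
  have hl4 : Real.log 4 = 2 * Real.log 2 := by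
    rw [show (4 : ℝ) = 2 ^ (2 : ℕ) by norm_num, Real.log_pow]
    push_cast
    ring
  have h5 : (2 : ℝ) ^ n * Real.exp (-(c * n * t)) ≤ Real.exp (-(Real.log 2 * n)) := by
    rw [h4, ← Real.exp_add]
    refine Real.exp_le_exp.2 ?_
    have hn0 : (0 : ℝ) ≤ n := Nat.cast_nonneg n
    have : Real.log 4 * n ≤ c * t * n := mul_le_mul_of_nonneg_right ht hn0
    rw [hl4] at this
    nlinarith
  calc ((univ.filter fun D : Dt κ l => ∃ x : Om κ l → ℝ, Sg x ∧ t ≤ F D x).card : ℝ)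
      ≤ 2 ^ n * (Real.exp (-(c * n * t)) * B) := h3 ▸ h1.trans h2
    _ = (2 ^ n * Real.exp (-(c * n * t))) * B := by ring
    _ ≤ Real.exp (-(Real.log 2 * n)) * B := mul_le_mul_of_nonneg_right h5 hB0
    _ = 2 ^ (2 ^ l) * Real.exp (-(Real.log 2 * n)) * Fintype.card (Dt κ l) := by
      rw [hB]
      ring

end Pool.Agent.HFL
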