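import Pool.Agent.HFL.Defs

set_option autoImplicit false

open scoped BigOperators Classical

namespace Pool.Agent.HFL

open Finset

variable {κ : Type} {Ω : Type}

theorem CHL_two_pow (s : ℕ) : ∀ M : ℕ, 2 * s ≤ M → 2 ^ s ≤ M.choose s := by
  induction s with
  | zero => intro M _; simp
  | succ s ih =>
    intro M hM
    obtain ⟨N, rfl⟩ : ∃ N, M = N + 1 := ⟨M - 1, by omega⟩
    have h1 := ih N (by omega)
    have h2 : (N + 1) * N.choose s = (N + 1).choose (s + 1) * (s + 1) :=
      Nat.add_one_mul_choose_eq N s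
    have h3 : 2 ^ (s + 1) * (s + 1) ≤ (N + 1).choose (s + 1) * (s + 1) := by
      rw [← h2]
      calc 2 ^ (s + 1) * (s + 1) = (2 * (s + 1)) * 2 ^ s := by ring
        _ ≤ (N + 1) * N.choose s := Nat.mul_le_mul hM h1
    exact Nat.le_of_mul_le_mul_right h3 (Nat.succ_pos s)

/-- CHL -/
theorem fact_bound (M s : ℕ) (h1 : 4 * M ≤ 10 * s) (h2 : 10 * s ≤ 6 * M) :
    (s.factorial * (M - s).factorial : ℝ) ≤ Real.exp (-(27 / 100 * M)) * M.factorial := by
  have hsM : s ≤ M := by omega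
  obtain ⟨k, hk, hkM⟩ : ∃ k : ℕ, 4 * M ≤ 10 * k ∧ 2 ^ k ≤ M.choose s := by
    by_cases h : 2 * s ≤ M
    · exact ⟨s, h1, CHL_two_pow s M h⟩
    · refine ⟨M - s, by omega, ?_⟩
      rw [← Nat.choose_symm hsM]
      exact CHL_two_pow (M - s) M (by omega)
  have hC : (M.choose s : ℝ) * (s.factorial * (M - s).factorial) = M.factorial := by
    have := Nat.choose_mul_factorial_mul_factorial hsM
    rw [← mul_assoc]
    exact_mod_cast this
  have hexp : Real.exp (27 / 100 * M) ≤ (M.choose s : ℝ) := by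
    have h3 : (27 / 100 * M : ℝ) ≤ Real.log 2 * k := by
      have h4 := Real.log_two_gt_d9
      have h5 : (4 * M : ℝ) ≤ 10 * k := by exact_mod_cast hk
      have h6 : (0 : ℝ) ≤ k := Nat.cast_nonneg k
      have h7 : (0.6931471803 : ℝ) * k ≤ Real.log 2 * k :=
        mul_le_mul_of_nonneg_right h4.le h6
      have h8 : (0 : ℝ) ≤ M := Nat.cast_nonneg M
      linarith
    calc Real.exp (27 / 100 * M) ≤ Real.exp (Real.log 2 * k) := Real.exp_le_exp.mpr h3
      _ = (2 : ℝ) ^ k := by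
          rw [mul_comm, Real.exp_nat_mul, Real.exp_log (by norm_num)]
      _ ≤ (M.choose s : ℝ) := by exact_mod_cast hkM
  have hF : (0 : ℝ) ≤ s.factorial * (M - s).factorial := by positivity
  rw [← hC, Real.exp_neg]
  have he : (0 : ℝ) < Real.exp (27 / 100 * M) := Real.exp_pos _
  rw [← mul_assoc]
  have h9 : 1 ≤ (Real.exp (27 / 100 * M))⁻¹ * (M.choose s : ℝ) := by
    rw [inv_mul_eq_div, le_div_iff₀ he, one_mul]
    exact hexp
  calc (s.factorial * (M - s).factorial : ℝ) = 1 * (s.factorial * (M - s).factorial) := by ring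
    _ ≤ _ := mul_le_mul_of_nonneg_right h9 hF

end Pool.Agent.HFL
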