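import Pool.Agent.HFL.PRM
import Pool.Agent.HFL.CHL

set_option autoImplicit false

open scoped BigOperators Classical

namespace Pool.Agent.HFL

open Finset

variable {κ : Type} {Ω : Type}

theorem RT_pair [Fintype Ω] (y1 y2 : Ω → ℝ) :
    ((univ.filter fun σ : Equiv.Perm Ω =>
      (∀ i, y1 i ≠ 0 ↔ y2 (σ.symm i) = 0) ∧
      4 * Fintype.card Ω ≤ 10 * (univ.filter fun i => y1 i ≠ 0).card ∧
      10 * (univ.filter fun i => y1 i ≠ 0).card ≤ 6 * Fintype.card Ω).card : ℝ) ≤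
      Real.exp (-(27 / 100 * Fintype.card Ω)) * Fintype.card (Equiv.Perm Ω) := by
  rcases Finset.eq_empty_or_nonempty (univ.filter fun σ : Equiv.Perm Ω =>
      (∀ i, y1 i ≠ 0 ↔ y2 (σ.symm i) = 0) ∧
      4 * Fintype.card Ω ≤ 10 * (univ.filter fun i => y1 i ≠ 0).card ∧
      10 * (univ.filter fun i => y1 i ≠ 0).card ≤ 6 * Fintype.card Ω) with h | ⟨σ, hσ⟩
  · rw [h, Finset.card_empty, Nat.cast_zero]
    positivity
  · obtain ⟨_, h1, h2, h3⟩ := Finset.mem_filter.mp hσ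
    have hST : (univ.filter fun i => y1 i ≠ 0).card = (univ.filter fun i => y2 i = 0).card := by
      refine Finset.card_bij (fun i _ => σ.symm i) ?_ ?_ ?_
      · intro i hi
        exact Finset.mem_filter.mpr ⟨Finset.mem_univ _, (h1 i).mp (Finset.mem_filter.mp hi).2⟩
      · intro i _ j _ hij
        exact σ.symm.injective hij
      · intro j hj
        refine ⟨σ j, Finset.mem_filter.mpr ⟨Finset.mem_univ _, (h1 (σ j)).mpr ?_⟩, ?_⟩
        · rw [Equiv.symm_apply_apply]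
          exact (Finset.mem_filter.mp hj).2
        · exact Equiv.symm_apply_apply σ j
    have hle : (univ.filter fun σ : Equiv.Perm Ω =>
        (∀ i, y1 i ≠ 0 ↔ y2 (σ.symm i) = 0) ∧
        4 * Fintype.card Ω ≤ 10 * (univ.filter fun i => y1 i ≠ 0).card ∧
        10 * (univ.filter fun i => y1 i ≠ 0).card ≤ 6 * Fintype.card Ω).card ≤
        (univ.filter fun i => y2 i = 0).card.factorial *
          (Fintype.card Ω - (univ.filter fun i => y2 i = 0).card).factorial := by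
      refine le_trans (Finset.card_le_card ?_)
        (perm_sets (univ.filter fun i => y1 i ≠ 0) (univ.filter fun i => y2 i = 0))
      intro τ hτ
      obtain ⟨_, h4, _, _⟩ := Finset.mem_filter.mp hτ
      refine Finset.mem_filter.mpr ⟨Finset.mem_univ _, fun i => ?_⟩
      rw [Finset.mem_filter, Finset.mem_filter]
      exact ⟨fun hi => ⟨Finset.mem_univ _, (h4 i).mp hi.2⟩,
        fun hi => ⟨Finset.mem_univ _, (h4 i).mpr hi.2⟩⟩
    have hfb := fact_bound (Fintype.card Ω) (univ.filter fun i => y2 i = 0).card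
      (by rw [← hST]; exact h2) (by rw [← hST]; exact h3)
    have hle' : ((univ.filter fun σ : Equiv.Perm Ω =>
        (∀ i, y1 i ≠ 0 ↔ y2 (σ.symm i) = 0) ∧
        4 * Fintype.card Ω ≤ 10 * (univ.filter fun i => y1 i ≠ 0).card ∧
        10 * (univ.filter fun i => y1 i ≠ 0).card ≤ 6 * Fintype.card Ω).card : ℝ) ≤
        ((univ.filter fun i => y2 i = 0).card.factorial : ℝ) *
          ((Fintype.card Ω - (univ.filter fun i => y2 i = 0).card).factorial : ℝ) := by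
      exact_mod_cast hle
    rw [Fintype.card_perm]
    exact le_trans hle' hfb

/-- RT -/
theorem root_count [Fintype Ω] (Y1 Y2 : Finset (Ω → ℝ)) :
    ((univ.filter fun σ : Equiv.Perm Ω => ∃ y1 ∈ Y1, ∃ y2 ∈ Y2,
      (∀ i, y1 i ≠ 0 ↔ y2 (σ.symm i) = 0) ∧
      4 * Fintype.card Ω ≤ 10 * (univ.filter fun i => y1 i ≠ 0).card ∧
      10 * (univ.filter fun i => y1 i ≠ 0).card ≤ 6 * Fintype.card Ω).card : ℝ) ≤
      Y1.card * Y2.card * Real.exp (-(27 / 100 * Fintype.card Ω)) *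
        Fintype.card (Equiv.Perm Ω) := by
  have hsub : (univ.filter fun σ : Equiv.Perm Ω => ∃ y1 ∈ Y1, ∃ y2 ∈ Y2,
      (∀ i, y1 i ≠ 0 ↔ y2 (σ.symm i) = 0) ∧
      4 * Fintype.card Ω ≤ 10 * (univ.filter fun i => y1 i ≠ 0).card ∧
      10 * (univ.filter fun i => y1 i ≠ 0).card ≤ 6 * Fintype.card Ω) ⊆
      (Y1 ×ˢ Y2).biUnion (fun p => univ.filter fun σ : Equiv.Perm Ω =>
        (∀ i, p.1 i ≠ 0 ↔ p.2 (σ.symm i) = 0) ∧
        4 * Fintype.card Ω ≤ 10 * (univ.filter fun i => p.1 i ≠ 0).card ∧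
        10 * (univ.filter fun i => p.1 i ≠ 0).card ≤ 6 * Fintype.card Ω) := by
    intro σ hσ
    obtain ⟨_, y1, h1, y2, h2, h3⟩ := Finset.mem_filter.mp hσ
    exact Finset.mem_biUnion.mpr ⟨(y1, y2), Finset.mem_product.mpr ⟨h1, h2⟩,
      Finset.mem_filter.mpr ⟨Finset.mem_univ _, h3⟩⟩
  have h1 := le_trans (Finset.card_le_card hsub) Finset.card_biUnion_le
  have h2 : ((univ.filter fun σ : Equiv.Perm Ω => ∃ y1 ∈ Y1, ∃ y2 ∈ Y2,
      (∀ i, y1 i ≠ 0 ↔ y2 (σ.symm i) = 0) ∧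
      4 * Fintype.card Ω ≤ 10 * (univ.filter fun i => y1 i ≠ 0).card ∧
      10 * (univ.filter fun i => y1 i ≠ 0).card ≤ 6 * Fintype.card Ω).card : ℝ) ≤
      ∑ p ∈ Y1 ×ˢ Y2, ((univ.filter fun σ : Equiv.Perm Ω =>
        (∀ i, p.1 i ≠ 0 ↔ p.2 (σ.symm i) = 0) ∧
        4 * Fintype.card Ω ≤ 10 * (univ.filter fun i => p.1 i ≠ 0).card ∧
        10 * (univ.filter fun i => p.1 i ≠ 0).card ≤ 6 * Fintype.card Ω).card : ℝ) := by
    exact_mod_cast h1
  refine le_trans h2 (le_trans (Finset.sum_le_sum fun p _ => RT_pair p.1 p.2) (le_of_eq ?_))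
  rw [Finset.sum_const, Finset.card_product, nsmul_eq_mul, Nat.cast_mul]
  ring

end Pool.Agent.HFL
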