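import Pool.Agent.HFL.CNT
import Pool.Agent.HFL.RT

set_option autoImplicit false

open scoped BigOperators Classical

namespace Pool.Agent.HFL

open Finset

variable {κ : Type} {Ω : Type}

private theorem bsf_mem {a b : ℝ} (ha : a = 1 ∨ a = -1) (hb : b = 1 ∨ b = -1) :
    (a + b = 0 ∨ a + b = 2 ∨ a + b = -2) ∧ (a - b = 0 ∨ a - b = 2 ∨ a - b = -2) ∧
      (a + b ≠ 0 ↔ a - b = 0) := by
  rcases ha with rfl | rfl <;> rcases hb with rfl | rfl <;> norm_num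

/-- the bad permutations for fixed other data -/
private theorem bsf_key [Fintype κ] [Nonempty κ] (l : ℕ) (hl : 58 * l ≤ Fintype.card (Om κ l))
    (hcnt : ∀ d < l, ∀ D : Dt κ l,
      (((Fintype.piFinset fun _ : Om κ l => ({0, 2, -2} : Finset ℝ)).filter fun y =>
        sf (1 / 200) l d (cf l d D y) ≤ 1 / 200).card : ℝ) ≤
        Real.exp (Fintype.card (Om κ l) / 10))
    (ρ : Equiv.Perm (Om κ l)) (D1 D2 : Dt κ l) :
    ((univ.filter fun σ : Equiv.Perm (Om κ l) => ∃ x : Om κ (l + 1) → ℝ, Sg x ∧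
        (4 * Fintype.card (Om κ l) ≤ 10 * (univ.filter fun i => ch1 ρ x i ≠ 0).card ∧
          10 * (univ.filter fun i => ch1 ρ x i ≠ 0).card ≤ 6 * Fintype.card (Om κ l)) ∧
        ∃ d < l, sf (1 / 200) (l + 1) (d + 1)
          (cf (l + 1) (d + 1) (((ρ, σ), (D1, D2)) : Dt κ (l + 1)) x) ≤ 1 / 400).card : ℝ) ≤
      1 / 4 * Fintype.card (Equiv.Perm (Om κ l)) := by
  set M : ℕ := Fintype.card (Om κ l) with hM
  obtain ⟨Y, hY⟩ : ∃ Y : Dt κ l → ℕ → Finset (Om κ l → ℝ), Y = fun D d =>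
    ((Fintype.piFinset fun _ : Om κ l => ({0, 2, -2} : Finset ℝ)).filter fun y =>
        sf (1 / 200) l d (cf l d D y) ≤ 1 / 200) := ⟨_, rfl⟩
  obtain ⟨S, hS⟩ : ∃ S : ℕ → Finset (Equiv.Perm (Om κ l)), S = fun d =>
    (univ.filter fun σ : Equiv.Perm (Om κ l) => ∃ y1 ∈ Y D1 d, ∃ y2 ∈ Y D2 d,
      (∀ i, y1 i ≠ 0 ↔ y2 (σ.symm i) = 0) ∧
      4 * Fintype.card (Om κ l) ≤ 10 * (univ.filter fun i => y1 i ≠ 0).card ∧
      10 * (univ.filter fun i => y1 i ≠ 0).card ≤ 6 * Fintype.card (Om κ l)) := ⟨_, rfl⟩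
  have hsub : (univ.filter fun σ : Equiv.Perm (Om κ l) => ∃ x : Om κ (l + 1) → ℝ, Sg x ∧
        (4 * M ≤ 10 * (univ.filter fun i => ch1 ρ x i ≠ 0).card ∧
          10 * (univ.filter fun i => ch1 ρ x i ≠ 0).card ≤ 6 * M) ∧
        ∃ d < l, sf (1 / 200) (l + 1) (d + 1)
          (cf (l + 1) (d + 1) (((ρ, σ), (D1, D2)) : Dt κ (l + 1)) x) ≤ 1 / 400) ⊆
      (Finset.range l).biUnion S := by
    intro σ hσ
    rw [Finset.mem_filter] at hσ
    obtain ⟨-, x, hx, ⟨hb1, hb2⟩, d, hd, hsf⟩ := hσ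
    rw [Finset.mem_biUnion]
    refine ⟨d, Finset.mem_range.2 hd, ?_⟩
    rw [hS, Finset.mem_filter]
    refine ⟨Finset.mem_univ _, ?_⟩
    have e1 : sf (1 / 200) (l + 1) (d + 1)
        (cf (l + 1) (d + 1) (((ρ, σ), (D1, D2)) : Dt κ (l + 1)) x) =
        (sf (1 / 200) l d (cf l d D1 (ch1 ρ x)) + sf (1 / 200) l d (cf l d D2 (ch2 ρ σ x))) / 2 :=
      rfl
    rw [e1] at hsf
    have h1 : 0 ≤ sf (1 / 200) l d (cf l d D1 (ch1 ρ x)) := sf_nonneg _ _ _ _
    have h2 : 0 ≤ sf (1 / 200) l d (cf l d D2 (ch2 ρ σ x)) := sf_nonneg _ _ _ _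
    refine ⟨ch1 ρ x, ?_, ch2 ρ σ x, ?_, ?_, ?_, ?_⟩
    · rw [hY, Finset.mem_filter, Fintype.mem_piFinset]
      refine ⟨fun i => ?_, by linarith⟩
      have h3 := (bsf_mem (hx (Sum.inl i)) (hx (Sum.inr (ρ i)))).1
      rw [Finset.mem_insert, Finset.mem_insert, Finset.mem_singleton]
      exact h3
    · rw [hY, Finset.mem_filter, Fintype.mem_piFinset]
      refine ⟨fun i => ?_, by linarith⟩
      have h3 := (bsf_mem (hx (Sum.inl (σ i))) (hx (Sum.inr (ρ (σ i))))).2.1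
      rw [Finset.mem_insert, Finset.mem_insert, Finset.mem_singleton]
      exact h3
    · intro i
      have h3 := (bsf_mem (hx (Sum.inl i)) (hx (Sum.inr (ρ i)))).2.2
      have h4 : ch2 ρ σ x (σ.symm i) = x (Sum.inl i) - x (Sum.inr (ρ i)) := by
        show x (Sum.inl (σ (σ.symm i))) - x (Sum.inr (ρ (σ (σ.symm i)))) = _
        rw [Equiv.apply_symm_apply]
      rw [h4]
      exact h3
    · exact hb1
    · exact hb2
  have hcard : ((univ.filter fun σ : Equiv.Perm (Om κ l) => ∃ x : Om κ (l + 1) → ℝ, Sg x ∧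
        (4 * M ≤ 10 * (univ.filter fun i => ch1 ρ x i ≠ 0).card ∧
          10 * (univ.filter fun i => ch1 ρ x i ≠ 0).card ≤ 6 * M) ∧
        ∃ d < l, sf (1 / 200) (l + 1) (d + 1)
          (cf (l + 1) (d + 1) (((ρ, σ), (D1, D2)) : Dt κ (l + 1)) x) ≤ 1 / 400).card : ℝ) ≤
      ∑ d ∈ Finset.range l, ((S d).card : ℝ) := by
    have h := (Finset.card_le_card hsub).trans Finset.card_biUnion_le
    exact_mod_cast h
  refine hcard.trans ?_
  have hd : ∀ d ∈ Finset.range l, ((S d).card : ℝ) ≤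
      Real.exp (-(7 / 100 * M)) * Fintype.card (Equiv.Perm (Om κ l)) := by
    intro d hd
    have h1 := root_count (Y D1 d) (Y D2 d)
    rw [hS]
    refine h1.trans ?_
    have h2 : ((Y D1 d).card : ℝ) ≤ Real.exp (M / 10) := by
      rw [hY]
      exact hcnt d (Finset.mem_range.1 hd) D1
    have h3 : ((Y D2 d).card : ℝ) ≤ Real.exp (M / 10) := by
      rw [hY]
      exact hcnt d (Finset.mem_range.1 hd) D2
    refine mul_le_mul_of_nonneg_right ?_ (Nat.cast_nonneg _)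
    calc ((Y D1 d).card : ℝ) * (Y D2 d).card * Real.exp (-(27 / 100 * M))
        ≤ Real.exp (M / 10) * Real.exp (M / 10) * Real.exp (-(27 / 100 * M)) := by
          refine mul_le_mul_of_nonneg_right ?_ (Real.exp_pos _).le
          exact mul_le_mul h2 h3 (Nat.cast_nonneg _) (Real.exp_pos _).le
      _ = Real.exp (-(7 / 100 * M)) := by
          rw [← Real.exp_add, ← Real.exp_add]
          congr 1
          ring
  refine (Finset.sum_le_sum hd).trans ?_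
  rw [Finset.sum_const, Finset.card_range, nsmul_eq_mul, ← mul_assoc]
  refine mul_le_mul_of_nonneg_right ?_ (Nat.cast_nonneg _)
  have h1 : (7 / 100 * (M : ℝ)) + 1 ≤ Real.exp (7 / 100 * M) := Real.add_one_le_exp _
  have h2 : (58 : ℝ) * l ≤ M := by exact_mod_cast hl
  have h3 : (4 : ℝ) * l ≤ Real.exp (7 / 100 * M) := by
    have : (0 : ℝ) ≤ l := Nat.cast_nonneg _
    linarith
  rw [Real.exp_neg, ← div_eq_mul_inv, div_le_iff₀ (Real.exp_pos _)]
  linarith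

/-- BSF -/
theorem bad_sf (l : ℕ) : ∃ N0 : ℕ, ∀ (κ : Type) [Fintype κ] [Nonempty κ],
    N0 ≤ Fintype.card κ →
      ((univ.filter fun D : Dt κ (l + 1) => ∃ x : Om κ (l + 1) → ℝ, Sg x ∧
        (4 * Fintype.card (Om κ l) ≤ 10 * (univ.filter fun i => ch1 D.1.1 x i ≠ 0).card ∧
          10 * (univ.filter fun i => ch1 D.1.1 x i ≠ 0).card ≤ 6 * Fintype.card (Om κ l)) ∧
        ∃ d < l, sf (1 / 200) (l + 1) (d + 1) (cf (l + 1) (d + 1) D x) ≤ 1 / 400).card : ℝ) ≤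
        1 / 4 * Fintype.card (Dt κ (l + 1)) := by
  obtain ⟨N1, hN1⟩ := count_sf l
  refine ⟨max N1 (58 * l), ?_⟩
  intro κ _ _ hκ
  have hκ1 : N1 ≤ Fintype.card κ := le_trans (le_max_left _ _) hκ
  have hκ2 : 58 * l ≤ Fintype.card κ := le_trans (le_max_right _ _) hκ
  have hM : Fintype.card κ ≤ Fintype.card (Om κ l) := by
    rw [card_Om]
    exact Nat.le_mul_of_pos_left _ (by positivity)
  have hkey := bsf_key l (hκ2.trans hM) (hN1 κ hκ1)
  rw [Finset.card_filter]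
  push_cast
  rw [sum_Dt]
  have h1 : ∀ ρ : Equiv.Perm (Om κ l), ∑ σ : Equiv.Perm (Om κ l), ∑ D1 : Dt κ l, ∑ D2 : Dt κ l,
      (if ∃ x : Om κ (l + 1) → ℝ, Sg x ∧
        (4 * Fintype.card (Om κ l) ≤ 10 * (univ.filter fun i => ch1 ρ x i ≠ 0).card ∧
          10 * (univ.filter fun i => ch1 ρ x i ≠ 0).card ≤ 6 * Fintype.card (Om κ l)) ∧
        ∃ d < l, sf (1 / 200) (l + 1) (d + 1)
          (cf (l + 1) (d + 1) (((ρ, σ), (D1, D2)) : Dt κ (l + 1)) x) ≤ 1 / 400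
        then (1 : ℝ) else 0) ≤
      ∑ _D1 : Dt κ l, ∑ _D2 : Dt κ l, 1 / 4 * (Fintype.card (Equiv.Perm (Om κ l)) : ℝ) := by
    intro ρ
    rw [Finset.sum_comm]
    refine Finset.sum_le_sum (fun D1 _ => ?_)
    rw [Finset.sum_comm]
    refine Finset.sum_le_sum (fun D2 _ => ?_)
    have h2 := hkey ρ D1 D2
    rw [Finset.card_filter] at h2
    push_cast at h2
    exact h2
  refine (Finset.sum_le_sum (fun ρ _ => h1 ρ)).trans (le_of_eq ?_)
  rw [card_Dt_succ]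
  simp only [Finset.sum_const, nsmul_eq_mul, Finset.card_univ]
  push_cast
  ring

end Pool.Agent.HFL
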