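import Pool.Agent.HFL.OM

set_option autoImplicit false

open scoped BigOperators Classical

namespace Pool.Agent.HFL

open Finset

variable {κ : Type} {Ω : Type}

/-- the first child, as a linear map -/
private def cflCh1 (κ : Type) (l : ℕ) (ρ : Equiv.Perm (Om κ l)) :
    (Om κ (l + 1) → ℝ) →ₗ[ℝ] (Om κ l → ℝ) where
  toFun := ch1 ρ
  map_add' x y := by
    funext i
    simp only [ch1, lh, rh, Pi.add_apply]
    ring
  map_smul' c x := by
    funext i
    simp only [ch1, lh, rh, Pi.smul_apply, smul_eq_mul, RingHom.id_apply]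
    ring

/-- the second child, as a linear map -/
private def cflCh2 (κ : Type) (l : ℕ) (ρ σ : Equiv.Perm (Om κ l)) :
    (Om κ (l + 1) → ℝ) →ₗ[ℝ] (Om κ l → ℝ) where
  toFun := ch2 ρ σ
  map_add' x y := by
    funext i
    simp only [ch2, lh, rh, Pi.add_apply]
    ring
  map_smul' c x := by
    funext i
    simp only [ch2, lh, rh, Pi.smul_apply, smul_eq_mul, RingHom.id_apply]
    ring

/-- CFL -/
theorem exists_cfL (κ : Type) (l d : ℕ) (D : Dt κ l) :
    ∃ F : (Om κ l → ℝ) →ₗ[ℝ] (Om κ l → ℝ), (∀ x, F x = cf l d D x) ∧ Function.Injective F := by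
  induction l generalizing d with
  | zero =>
    refine ⟨LinearMap.id, fun x => ?_, fun x y h => h⟩
    rw [LinearMap.id_apply]
    cases d <;> rfl
  | succ l ih =>
    cases d with
    | zero =>
      exact ⟨LinearMap.id, fun x => rfl, fun x y h => h⟩
    | succ d =>
      obtain ⟨F1, hF1, hI1⟩ := ih d D.2.1
      obtain ⟨F2, hF2, hI2⟩ := ih d D.2.2
      have hval : ∀ x : Om κ (l + 1) → ℝ, cf (l + 1) (d + 1) D x =
          jn (F1 (ch1 D.1.1 x)) (F2 (ch2 D.1.1 D.1.2 x)) := by
        intro x
        rw [hF1, hF2]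
        rfl
      refine ⟨{ toFun := fun x => jn (F1 (ch1 D.1.1 x)) (F2 (ch2 D.1.1 D.1.2 x))
                map_add' := ?_
                map_smul' := ?_ }, fun x => (hval x).symm, ?_⟩
      · intro x y
        have h1 : ch1 D.1.1 (x + y) = ch1 D.1.1 x + ch1 D.1.1 y :=
          (cflCh1 κ l D.1.1).map_add x y
        have h2 : ch2 D.1.1 D.1.2 (x + y) = ch2 D.1.1 D.1.2 x + ch2 D.1.1 D.1.2 y :=
          (cflCh2 κ l D.1.1 D.1.2).map_add x y
        funext i
        rw [h1, h2, map_add, map_add]
        rcases i with i | i <;> rfl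
      · intro c x
        have h1 : ch1 D.1.1 (c • x) = c • ch1 D.1.1 x :=
          (cflCh1 κ l D.1.1).map_smul c x
        have h2 : ch2 D.1.1 D.1.2 (c • x) = c • ch2 D.1.1 D.1.2 x :=
          (cflCh2 κ l D.1.1 D.1.2).map_smul c x
        funext i
        rw [h1, h2, map_smul, map_smul]
        rcases i with i | i <;> rfl
      · intro x y h
        have h' : jn (F1 (ch1 D.1.1 x)) (F2 (ch2 D.1.1 D.1.2 x)) =
            jn (F1 (ch1 D.1.1 y)) (F2 (ch2 D.1.1 D.1.2 y)) := h
        have e1 : F1 (ch1 D.1.1 x) = F1 (ch1 D.1.1 y) := by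
          funext i
          exact congrFun h' (Sum.inl i)
        have e2 : F2 (ch2 D.1.1 D.1.2 x) = F2 (ch2 D.1.1 D.1.2 y) := by
          funext i
          exact congrFun h' (Sum.inr i)
        have c1 := hI1 e1
        have c2 := hI2 e2
        have k1 : ∀ i : Om κ l, x (Sum.inl i) + x (Sum.inr (D.1.1 i)) =
            y (Sum.inl i) + y (Sum.inr (D.1.1 i)) := fun i => congrFun c1 i
        have k2 : ∀ i : Om κ l, x (Sum.inl i) - x (Sum.inr (D.1.1 i)) =
            y (Sum.inl i) - y (Sum.inr (D.1.1 i)) := by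
          intro i
          have := congrFun c2 (D.1.2.symm i)
          simp only [ch2, lh, rh, Equiv.apply_symm_apply] at this
          exact this
        funext i
        rcases i with i | i
        · have a := k1 i
          have b := k2 i
          linarith
        · have a := k1 (D.1.1.symm i)
          have b := k2 (D.1.1.symm i)
          rw [Equiv.apply_symm_apply] at a b
          linarith

end Pool.Agent.HFL
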