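import Pool.Agent.HFL.Defs

set_option autoImplicit false

open scoped BigOperators Classical

namespace Pool.Agent.HFL

open Finset

variable {κ : Type} {Ω : Type}

private theorem CHF_lip (s t : ℝ) :
    ‖Complex.exp ((s : ℂ) * Complex.I) - Complex.exp ((t : ℂ) * Complex.I)‖ ≤ |s - t| := by
  have e : Complex.exp ((s : ℂ) * Complex.I) - Complex.exp ((t : ℂ) * Complex.I) =
      Complex.exp ((t : ℂ) * Complex.I) * (Complex.exp (Complex.I * ((s - t : ℝ) : ℂ)) - 1) := by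
    rw [mul_sub, ← Complex.exp_add, mul_one]
    congr 2
    push_cast
    ring
  rw [e, norm_mul, Complex.norm_exp_ofReal_mul_I, one_mul]
  exact (Real.norm_exp_I_mul_ofReal_sub_one_le).trans_eq (Real.norm_eq_abs _)

/-- the difference of two averages -/
private theorem CHF_avg [Fintype Ω] [Nonempty Ω] {f g : Ω → ℂ} {C : ℝ}
    (h : ∑ i, ‖f i - g i‖ ≤ C * Fintype.card Ω) :
    ‖(∑ i, f i) / Fintype.card Ω - (∑ i, g i) / Fintype.card Ω‖ ≤ C := by
  have hc : (0 : ℝ) < Fintype.card Ω := by exact_mod_cast Fintype.card_pos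
  rw [← sub_div, ← sum_sub_distrib, norm_div, Complex.norm_natCast, div_le_iff₀ hc]
  exact (norm_sum_le _ _).trans h

/-- CHF -/
theorem norm_chf_le [Fintype Ω] [Nonempty Ω] (q m : ℕ) (x : Ω → ℝ) : ‖chf q m x‖ ≤ 1 := by
  have hc : (0 : ℝ) < Fintype.card Ω := by exact_mod_cast Fintype.card_pos
  rw [chf, norm_div, Complex.norm_natCast, div_le_one hc]
  refine (norm_sum_le _ _).trans ?_
  simp only [Complex.norm_exp_ofReal_mul_I, sum_const, card_univ, nsmul_eq_mul, mul_one, le_refl]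

/-- CHF -/
theorem chf_zero [Fintype Ω] [Nonempty Ω] (q : ℕ) (x : Ω → ℝ) : chf q 0 x = 1 := by
  have hc : (Fintype.card Ω : ℂ) ≠ 0 := by exact_mod_cast Fintype.card_ne_zero
  rw [chf]
  have h : ∀ i : Ω, Complex.exp (((2 * Real.pi * ((0 : ℕ) : ℝ) / q * x i : ℝ) : ℂ) *
      Complex.I) = 1 := by
    intro i
    simp
  simp only [h, sum_const, card_univ, nsmul_eq_mul, mul_one]
  exact div_self hc

/-- CHF -/
theorem chf_perm [Fintype Ω] (q m : ℕ) (x : Ω → ℝ) (τ : Equiv.Perm Ω) :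
    chf q m (fun i => x (τ i)) = chf q m x := by
  unfold chf
  congr 1
  exact Equiv.sum_comp τ fun i => Complex.exp (((2 * Real.pi * m / q * x i : ℝ) : ℂ) * Complex.I)

/-- CHF -/
theorem chf_double [Fintype Ω] (q m : ℕ) (x : Ω → ℝ) :
    chf q m (fun i => 2 * x i) = chf q (2 * m) x := by
  unfold chf
  congr 1
  refine sum_congr rfl fun i _ => ?_
  congr 3
  push_cast
  ring

/-- CHF -/
theorem chf_add_q [Fintype Ω] (q m : ℕ) (hq : 0 < q) (x : Ω → ℝ)
    (hx : ∀ i, ∃ z : ℤ, x i = z) : chf q (m + q) x = chf q m x := by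
  unfold chf
  congr 1
  refine sum_congr rfl fun i _ => ?_
  obtain ⟨z, hz⟩ := hx i
  have hq' : (q : ℝ) ≠ 0 := by exact_mod_cast hq.ne'
  have e : 2 * Real.pi * ((m + q : ℕ) : ℝ) / q * x i =
      2 * Real.pi * m / q * x i + 2 * Real.pi * z := by
    rw [hz]
    push_cast
    field_simp
  rw [e]
  have e2 : ((2 * Real.pi * m / q * x i + 2 * Real.pi * z : ℝ) : ℂ) * Complex.I =
      ((2 * Real.pi * m / q * x i : ℝ) : ℂ) * Complex.I + z * (2 * Real.pi * Complex.I) := by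
    push_cast
    ring
  rw [e2, Complex.exp_add, Complex.exp_int_mul_two_pi_mul_I, mul_one]

/-- CHF -/
theorem chf_step [Fintype Ω] [Nonempty Ω] (q m : ℕ) (hq : 0 < q) (x : Ω → ℝ) (R : ℝ)
    (hx : ∀ i, |x i| ≤ R) : ‖chf q (m + 1) x - chf q m x‖ ≤ 2 * Real.pi / q * R := by
  refine CHF_avg ?_
  have hq' : (0 : ℝ) < q := by exact_mod_cast hq
  have h : ∀ i, ‖Complex.exp (((2 * Real.pi * ((m + 1 : ℕ) : ℝ) / q * x i : ℝ) : ℂ) * Complex.I) -
      Complex.exp (((2 * Real.pi * m / q * x i : ℝ) : ℂ) * Complex.I)‖ ≤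
      2 * Real.pi / q * R := by
    intro i
    refine (CHF_lip _ _).trans ?_
    have e : 2 * Real.pi * ((m + 1 : ℕ) : ℝ) / q * x i - 2 * Real.pi * m / q * x i =
        2 * Real.pi / q * x i := by
      push_cast
      ring
    have h0 : 0 ≤ 2 * Real.pi / q := by positivity
    rw [e, abs_mul, abs_of_nonneg h0]
    exact mul_le_mul_of_nonneg_left (hx i) h0
  refine (sum_le_sum fun i _ => h i).trans ?_
  rw [sum_const, card_univ, nsmul_eq_mul, mul_comm]

/-- CHF -/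
theorem chf_sub [Fintype Ω] [Nonempty Ω] (q m : ℕ) (hm : m < q) (x y : Ω → ℝ) (s : ℝ)
    (hs : 0 ≤ s) (h : ∑ i, (x i - y i) ^ 2 ≤ s ^ 2 * Fintype.card Ω) :
    ‖chf q m x - chf q m y‖ ≤ 2 * Real.pi * s := by
  refine CHF_avg ?_
  have hq' : (0 : ℝ) < q := by exact_mod_cast (Nat.zero_le m).trans_lt hm
  have hmq : (m : ℝ) ≤ q := by exact_mod_cast hm.le
  have hc : (0 : ℝ) ≤ Fintype.card Ω := Nat.cast_nonneg _
  have h1 : ∀ i, ‖Complex.exp (((2 * Real.pi * m / q * x i : ℝ) : ℂ) * Complex.I) -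
      Complex.exp (((2 * Real.pi * m / q * y i : ℝ) : ℂ) * Complex.I)‖ ≤
      2 * Real.pi * |x i - y i| := by
    intro i
    refine (CHF_lip _ _).trans ?_
    have e : 2 * Real.pi * m / q * x i - 2 * Real.pi * m / q * y i =
        2 * Real.pi * (m / q) * (x i - y i) := by ring
    have h0 : 0 ≤ 2 * Real.pi * ((m : ℝ) / q) := by positivity
    have h2 : 2 * Real.pi * ((m : ℝ) / q) ≤ 2 * Real.pi :=
      mul_le_of_le_one_right (by positivity) ((div_le_one hq').2 hmq)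
    rw [e, abs_mul, abs_of_nonneg h0]
    exact mul_le_mul_of_nonneg_right h2 (abs_nonneg _)
  refine (sum_le_sum fun i _ => h1 i).trans ?_
  rw [← mul_sum, mul_assoc (2 * Real.pi) s]
  refine mul_le_mul_of_nonneg_left ?_ (by positivity)
  have h3 : (∑ i, |x i - y i|) ^ 2 ≤ (s * Fintype.card Ω) ^ 2 := by
    have h4 := sq_sum_le_card_mul_sum_sq (s := (univ : Finset Ω)) (f := fun i => |x i - y i|)
    simp only [sq_abs, card_univ] at h4
    calc (∑ i, |x i - y i|) ^ 2 ≤ Fintype.card Ω * ∑ i, (x i - y i) ^ 2 := h4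
      _ ≤ Fintype.card Ω * (s ^ 2 * Fintype.card Ω) := mul_le_mul_of_nonneg_left h hc
      _ = (s * Fintype.card Ω) ^ 2 := by ring
  exact (sq_le_sq₀ (sum_nonneg fun i _ => abs_nonneg _) (mul_nonneg hs hc)).1 h3

end Pool.Agent.HFL
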