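import Pool.Agent.HFL.Defs

set_option autoImplicit false

open scoped BigOperators Classical

namespace Pool.Agent.HFL

open Finset

variable {κ : Type} {Ω : Type}

private lemma cho_exp : Real.exp (-(47 / 10)) ≤ 1 / 100 := by
  rw [Real.exp_neg, inv_eq_one_div]
  apply one_div_le_one_div_of_le (by norm_num)
  have h1 : Real.exp (47 / 10) = Real.exp 1 ^ 4 * Real.exp (7 / 10) := by
    rw [← Real.exp_nat_mul, ← Real.exp_add]
    norm_num
  have h2 : (2.7182818283 : ℝ) < Real.exp 1 := Real.exp_one_gt_d9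
  have h3 : 1 + (7 / 10 : ℝ) + (7 / 10) ^ 2 / 2 ≤ Real.exp (7 / 10) :=
    Real.quadratic_le_exp_of_nonneg (by norm_num)
  have h4 : (2.7182818283 : ℝ) ^ 4 ≤ Real.exp 1 ^ 4 :=
    pow_le_pow_left₀ (by norm_num) h2.le 4
  rw [h1]
  calc (100 : ℝ) ≤ (2.7182818283 : ℝ) ^ 4 * (1 + (7 / 10 : ℝ) + (7 / 10) ^ 2 / 2) := by norm_num
    _ ≤ Real.exp 1 ^ 4 * Real.exp (7 / 10) := by
        apply mul_le_mul h4 h3 (by norm_num) (by positivity)

/-- CHO -/
theorem small_sets [Fintype Ω] :
    ((univ.filter fun E : Finset Ω => 100 * E.card ≤ Fintype.card Ω).card : ℝ) ≤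
      Real.exp (57 / 1000 * Fintype.card Ω) := by
  set M : ℕ := Fintype.card Ω with hM
  have h1 : ∀ E ∈ univ.filter (fun E : Finset Ω => 100 * E.card ≤ M),
      (1 : ℝ) ≤ Real.exp (47 / 1000 * M) * ((1 / 100) ^ E.card * 1 ^ (M - E.card)) := by
    intro E hE
    have hE1 : 100 * E.card ≤ M := (mem_filter.1 hE).2
    have hE2 : (100 : ℝ) * E.card ≤ M := by exact_mod_cast hE1
    have h2 : (Real.exp (-(47 / 10))) ^ E.card ≤ (1 / 100 : ℝ) ^ E.card :=
      pow_le_pow_left₀ (Real.exp_pos _).le cho_exp _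
    rw [← Real.exp_nat_mul] at h2
    calc (1 : ℝ) ≤ Real.exp (47 / 1000 * M + E.card * (-(47 / 10))) := by
          apply Real.one_le_exp
          linarith
      _ = Real.exp (47 / 1000 * M) * Real.exp (E.card * (-(47 / 10))) := Real.exp_add _ _
      _ ≤ Real.exp (47 / 1000 * M) * ((1 / 100) ^ E.card * 1 ^ (M - E.card)) := by
          rw [one_pow, mul_one]
          exact mul_le_mul_of_nonneg_left h2 (Real.exp_pos _).le
  calc ((univ.filter fun E : Finset Ω => 100 * E.card ≤ M).card : ℝ)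
      = ∑ _E ∈ univ.filter (fun E : Finset Ω => 100 * E.card ≤ M), (1 : ℝ) := by simp
    _ ≤ ∑ E ∈ univ.filter (fun E : Finset Ω => 100 * E.card ≤ M),
          Real.exp (47 / 1000 * M) * ((1 / 100) ^ E.card * 1 ^ (M - E.card)) := sum_le_sum h1
    _ ≤ ∑ E : Finset Ω, Real.exp (47 / 1000 * M) * ((1 / 100) ^ E.card * 1 ^ (M - E.card)) := by
        apply sum_le_sum_of_subset_of_nonneg (filter_subset _ _)
        intro E _ _
        positivity
    _ = Real.exp (47 / 1000 * M) * (1 / 100 + 1) ^ M := by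
        rw [← mul_sum]
        congr 1
        have := Finset.sum_pow_mul_eq_add_pow (1 / 100 : ℝ) 1 (univ : Finset Ω)
        rw [Finset.card_univ, ← hM] at this
        rw [← this, Finset.powerset_univ]
    _ ≤ Real.exp (47 / 1000 * M) * Real.exp (1 / 100) ^ M := by
        apply mul_le_mul_of_nonneg_left _ (Real.exp_pos _).le
        apply pow_le_pow_left₀ (by norm_num)
        exact Real.add_one_le_exp _
    _ = Real.exp (57 / 1000 * M) := by
        rw [← Real.exp_nat_mul, ← Real.exp_add]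
        congr 1
        ring

end Pool.Agent.HFL
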