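import Pool.Agent.HFL.HMT
import Pool.Agent.HFL.UPD

set_option autoImplicit false

open scoped BigOperators Classical

namespace Pool.Agent.HFL

open Finset

variable {κ : Type} {Ω : Type}

/-- CLO -/
theorem closeness [Fintype κ] [Nonempty κ] (A : κ → κ → ℝ) (hA : IsH A) (l : ℕ) (D : Dt κ l)
    (x w : Om κ l → ℝ) (hx : Sg x) (hw : Sg w) (γ : ℝ)
    (h : γ * ((Fintype.card (Om κ l) : ℝ) * √(Fintype.card (Om κ l) : ℝ)) ≤
      ∑ j, w j * hm A l (dn l D x) j)
    (hγ : 2 * (1 - γ) * 4 ^ l ≤ (1 / 200000 : ℝ) ^ 2) :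
    ∑ i, (√(Fintype.card (Om κ l) : ℝ) / Fintype.card κ * ht A l w i - dn l D x i) ^ 2 ≤
      (1 / 200000 : ℝ) ^ 2 * Fintype.card κ := by
  have hsq : ∀ y : Om κ l → ℝ, Sg y → ∑ i, y i ^ 2 = (Fintype.card (Om κ l) : ℝ) := by
    intro y hy
    rw [Finset.sum_congr rfl (fun i _ => show y i ^ 2 = 1 by
      rcases hy i with h1 | h1 <;> rw [h1] <;> norm_num), Finset.sum_const, Finset.card_univ,
      nsmul_eq_mul, mul_one]
  set n : ℝ := (Fintype.card (Om κ l) : ℝ) with hn
  set N : ℝ := (Fintype.card κ : ℝ) with hN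
  have hNpos : 0 < N := by
    rw [hN]
    exact_mod_cast Fintype.card_pos
  have hnN : n = 2 ^ l * N := by
    rw [hn, card_Om, hN]
    push_cast
    ring
  have hnpos : 0 < n := by
    rw [hnN]
    positivity
  set s : ℝ := √n with hs
  have hss : s * s = n := Real.mul_self_sqrt hnpos.le
  set S : ℝ := ∑ i, (s / N * ht A l w i - dn l D x i) ^ 2 with hS
  have h1 : ∑ i, hm A l (fun i => s / N * ht A l w i - 1 * dn l D x i) i ^ 2 = N * S := by
    rw [hm_norm A hA, hS]
    congr 1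
    refine Finset.sum_congr rfl fun i _ => ?_
    rw [one_mul]
  have h2 : ∀ i, hm A l (fun i => s / N * ht A l w i - 1 * dn l D x i) i =
      s * w i - hm A l (dn l D x) i := by
    intro i
    rw [hm_sub, hm_ht A hA, one_mul]
    rw [← hN]
    field_simp
  have h3 : ∑ i, (s * w i - hm A l (dn l D x) i) ^ 2 = N * S := by
    rw [← h1]
    exact Finset.sum_congr rfl fun i _ => by rw [h2]
  have h4 : ∑ i, hm A l (dn l D x) i ^ 2 = n * n := by
    rw [hm_norm A hA, dn_norm, hsq x hx, ← hN]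
    rw [← mul_assoc, mul_comm N, ← hnN]
  have h5 : ∑ i, (s * w i - hm A l (dn l D x) i) ^ 2 =
      n * n - 2 * s * ∑ i, w i * hm A l (dn l D x) i + n * n := by
    have h6 : ∀ i, (s * w i - hm A l (dn l D x) i) ^ 2 =
        n * w i ^ 2 - 2 * s * (w i * hm A l (dn l D x) i) + hm A l (dn l D x) i ^ 2 := by
      intro i
      rw [← hss]
      ring
    rw [Finset.sum_congr rfl fun i _ => h6 i, Finset.sum_add_distrib, Finset.sum_sub_distrib,
      ← Finset.mul_sum, ← Finset.mul_sum, h4, hsq w hw]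
  have h7 : N * S ≤ 2 * (1 - γ) * (n * n) := by
    rw [← h3, h5]
    have h8 : s * (γ * (n * s)) ≤ s * ∑ i, w i * hm A l (dn l D x) i :=
      mul_le_mul_of_nonneg_left h (Real.sqrt_nonneg n)
    have h9 : s * (γ * (n * s)) = γ * (n * n) := by
      calc s * (γ * (n * s)) = γ * (n * (s * s)) := by ring
        _ = _ := by rw [hss]
    rw [h9] at h8
    nlinarith [h8]
  have h10 : n * n = 4 ^ l * (N * N) := by
    rw [hnN, show (4 : ℝ) = 2 * 2 by norm_num, mul_pow]
    ring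
  have h11 : N * S ≤ N * ((1 / 200000 : ℝ) ^ 2 * N) := by
    calc N * S ≤ 2 * (1 - γ) * (n * n) := h7
      _ = (2 * (1 - γ) * 4 ^ l) * (N * N) := by rw [h10]; ring
      _ ≤ (1 / 200000 : ℝ) ^ 2 * (N * N) := mul_le_mul_of_nonneg_right hγ (by positivity)
      _ = _ := by ring
  exact le_of_mul_le_mul_left h11 hNpos

end Pool.Agent.HFL
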