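import Pool.Agent.HFL.Defs

set_option autoImplicit false

open scoped BigOperators Classical

namespace Pool.Agent.HFL

open Finset

variable {κ : Type} {Ω : Type}

/-- a set of coordinates of size at most `finrank W` that determines the elements of `W` -/
private theorem odl_coords [Fintype Ω] (W : Submodule ℝ (Ω → ℝ)) :
    ∃ I : Finset Ω, I.card ≤ Module.finrank ℝ W ∧
      ∀ w ∈ W, (∀ i ∈ I, w i = 0) → w = 0 := by
  let f : Ω → Module.Dual ℝ W := fun i => (LinearMap.proj i).comp W.subtype
  obtain ⟨b, hbs, hspan, hli⟩ := exists_linearIndependent ℝ (Set.range f)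
  have hfin : b.Finite := (Set.finite_range f).subset hbs
  have : Fintype b := hfin.fintype
  have hcard : Fintype.card b ≤ Module.finrank ℝ W := by
    have h := hli.fintype_card_le_finrank
    rwa [Subspace.dual_finrank_eq] at h
  have hex : ∀ φ : b, ∃ i, f i = φ.1 := fun φ => hbs φ.2
  choose g hg using hex
  refine ⟨univ.image g, (Finset.card_image_le.trans (by simpa using hcard)), ?_⟩
  intro w hw h0
  have hker : ∀ φ ∈ Submodule.span ℝ b, φ ⟨w, hw⟩ = 0 := by
    intro φ hφ
    induction hφ using Submodule.span_induction with
    | mem φ hφ =>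
      have h1 := hg ⟨φ, hφ⟩
      have h2 := h0 (g ⟨φ, hφ⟩) (Finset.mem_image_of_mem g (mem_univ _))
      have h3 : f (g ⟨φ, hφ⟩) ⟨w, hw⟩ = 0 := h2
      rw [h1] at h3
      exact h3
    | zero => rfl
    | add φ ψ _ _ h1 h2 => rw [LinearMap.add_apply, h1, h2, add_zero]
    | smul c φ _ h1 => rw [LinearMap.smul_apply, h1, smul_zero]
  funext i
  have hi : f i ∈ Submodule.span ℝ b := by
    rw [hspan]
    exact Submodule.subset_span ⟨i, rfl⟩
  exact hker (f i) hi

/-- ODL -/
theorem odl [Fintype Ω] (W : Submodule ℝ (Ω → ℝ)) (S : Finset ℝ) :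
    ((Fintype.piFinset fun _ : Ω => S).filter fun y => y ∈ W).card ≤
      S.card ^ Module.finrank ℝ W := by
  rcases S.eq_empty_or_nonempty with hS | hS
  · subst hS
    rcases isEmpty_or_nonempty Ω with hΩ | hΩ
    · have h0 : Module.finrank ℝ W = 0 := by
        have h1 : Module.finrank ℝ W ≤ Module.finrank ℝ (Ω → ℝ) := Submodule.finrank_le W
        have h2 : Module.finrank ℝ (Ω → ℝ) = 0 := by
          rw [Module.finrank_fintype_fun_eq_card, Fintype.card_eq_zero]
        omega
      rw [h0, pow_zero]
      refine Finset.card_le_one.2 ?_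
      intro a _ b _
      exact Subsingleton.elim a b
    · have h : ((Fintype.piFinset fun _ : Ω => (∅ : Finset ℝ)).filter fun y => y ∈ W) = ∅ := by
        ext y
        simp only [Finset.mem_filter, Fintype.mem_piFinset]
        constructor
        · rintro ⟨h1, _⟩
          exact absurd (h1 (Classical.arbitrary Ω)) (Finset.notMem_empty _)
        · intro h
          exact absurd h (Finset.notMem_empty _)
      rw [h]
      exact Nat.zero_le _
  · obtain ⟨I, hI, hdet⟩ := odl_coords W
    calc ((Fintype.piFinset fun _ : Ω => S).filter fun y => y ∈ W).card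
        ≤ (Fintype.piFinset fun _ : I => S).card := by
          refine Finset.card_le_card_of_injOn (fun y => fun i : I => y i.1) ?_ ?_
          · intro y hy
            have hy' := Finset.mem_filter.1 (Finset.mem_coe.1 hy)
            refine Finset.mem_coe.2 (Fintype.mem_piFinset.2 fun i => ?_)
            exact Fintype.mem_piFinset.1 hy'.1 i.1
          · intro y hy z hz hyz
            have hy' := Finset.mem_filter.1 (Finset.mem_coe.1 hy)
            have hz' := Finset.mem_filter.1 (Finset.mem_coe.1 hz)
            have h := hdet (y - z) (W.sub_mem hy'.2 hz'.2) (fun i hi => by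
              have h1 := congrFun hyz ⟨i, hi⟩
              simpa [sub_eq_zero] using h1)
            exact sub_eq_zero.1 h
      _ = S.card ^ I.card := by
          rw [Fintype.card_piFinset]
          simp
      _ ≤ S.card ^ Module.finrank ℝ W :=
          Nat.pow_le_pow_right hS.card_pos hI

end Pool.Agent.HFL
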