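import Pool.Agent.HFL.OM

set_option autoImplicit false

open scoped BigOperators Classical

namespace Pool.Agent.HFL

open Finset

variable {κ : Type} {Ω : Type}

/-- WSP -/
theorem card_Bk (d : ℕ) : Fintype.card (Bk d) = 2 ^ (d + 1) := by
  induction d with
  | zero =>
    show Fintype.card Bool = 2 ^ (0 + 1)
    simp
  | succ d ih =>
    have h : Fintype.card (Bk (d + 1)) = Fintype.card (Bk d ⊕ Bk d) := rfl
    rw [h, Fintype.card_sum, ih]
    ring

/-- the linear map whose range is the space -/
private noncomputable def WSP_map (l d : ℕ) (E : Finset (Om κ l)) :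
    ((Bk d → ℝ) × (E → ℝ)) →ₗ[ℝ] (Om κ l → ℝ) where
  toFun p i := p.1 (blk l d i) + (if h : i ∈ E then p.2 ⟨i, h⟩ else 0)
  map_add' p q := by
    funext i
    by_cases h : i ∈ E
    · simp only [h, dif_pos, Prod.fst_add, Prod.snd_add, Pi.add_apply]
      ring
    · simp only [h, dif_neg, not_false_eq_true, Prod.fst_add, Pi.add_apply]
      ring
  map_smul' t p := by
    funext i
    by_cases h : i ∈ E
    · simp only [h, dif_pos, Prod.smul_fst, Prod.smul_snd, Pi.smul_apply, smul_eq_mul,
        RingHom.id_apply]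
      ring
    · simp only [h, dif_neg, not_false_eq_true, Prod.smul_fst, Pi.smul_apply, smul_eq_mul,
        RingHom.id_apply]
      ring

/-- WSP -/
theorem exists_wsp [Fintype κ] (l d : ℕ) (E : Finset (Om κ l)) :
    ∃ W : Submodule ℝ (Om κ l → ℝ), Module.finrank ℝ W ≤ 2 ^ (d + 1) + E.card ∧
      ∀ (z : Om κ l → ℝ) (c : Bk d → ℝ), (∀ i, i ∉ E → z i = c (blk l d i)) → z ∈ W := by
  refine ⟨LinearMap.range (WSP_map l d E), ?_, ?_⟩
  · refine (LinearMap.finrank_range_le _).trans ?_
    rw [Module.finrank_prod, Module.finrank_fintype_fun_eq_card,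
      Module.finrank_fintype_fun_eq_card, card_Bk, Fintype.card_coe]
  · intro z c hz
    rw [LinearMap.mem_range]
    refine ⟨(c, fun i => z i.1 - c (blk l d i.1)), ?_⟩
    funext i
    show c (blk l d i) + (if h : i ∈ E then z i - c (blk l d i) else 0) = z i
    by_cases h : i ∈ E
    · rw [dif_pos h]; ring
    · rw [dif_neg h, add_zero, hz i h]

end Pool.Agent.HFL
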