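import Pool.Agent.HFL.SFB
import Pool.Agent.HFL.ODL
import Pool.Agent.HFL.CFL
import Pool.Agent.HFL.WSP
import Pool.Agent.HFL.CHO

set_option autoImplicit false

open scoped BigOperators Classical

namespace Pool.Agent.HFL

open Finset

variable {κ : Type} {Ω : Type}

private theorem CNT_three_le : (3 : ℝ) ≤ Real.exp (11 / 10) := by
  have h1 : (2.7182818283 : ℝ) < Real.exp 1 := Real.exp_one_gt_d9
  have h2 : 1 + (1 / 10 : ℝ) + (1 / 10) ^ 2 / 2 ≤ Real.exp (1 / 10) :=
    Real.quadratic_le_exp_of_nonneg (by norm_num)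
  have h3 : Real.exp (11 / 10) = Real.exp 1 * Real.exp (1 / 10) := by
    rw [← Real.exp_add]
    norm_num
  rw [h3]
  nlinarith

private theorem CNT_three_pow (k : ℕ) : (3 : ℝ) ^ k ≤ Real.exp (11 / 10 * k) := by
  have h : Real.exp (11 / 10 * k) = Real.exp (11 / 10) ^ k := by
    rw [← Real.exp_nat_mul]
    ring_nf
  rw [h]
  exact pow_le_pow_left₀ (by norm_num) CNT_three_le k

private theorem CNT_piece [Fintype Ω] (F : (Ω → ℝ) →ₗ[ℝ] (Ω → ℝ)) (hinj : Function.Injective F)
    (W : Submodule ℝ (Ω → ℝ)) (a b : ℕ) (hW : Module.finrank ℝ W ≤ a + b) :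
    (((Fintype.piFinset fun _ : Ω => ({0, 2, -2} : Finset ℝ)).filter fun y =>
      y ∈ W.comap F).card : ℝ) ≤ Real.exp (11 / 10 * (a + b)) := by
  have h1 := odl (W.comap F) ({0, 2, -2} : Finset ℝ)
  have h2 : Module.finrank ℝ (W.comap F) ≤ a + b := by
    have e : Module.finrank ℝ (W.comap F) = Module.finrank ℝ ((W.comap F).map F) :=
      (Submodule.equivMapOfInjective F hinj (W.comap F)).finrank_eq
    rw [e]
    exact (Submodule.finrank_mono (Submodule.map_comap_le F W)).trans hW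
  have h3 : ({0, 2, -2} : Finset ℝ).card ≤ 3 := Finset.card_le_three
  have h4 : ({0, 2, -2} : Finset ℝ).card ^ Module.finrank ℝ (W.comap F) ≤ 3 ^ (a + b) := by
    calc ({0, 2, -2} : Finset ℝ).card ^ Module.finrank ℝ (W.comap F)
        ≤ 3 ^ Module.finrank ℝ (W.comap F) := Nat.pow_le_pow_left h3 _
      _ ≤ 3 ^ (a + b) := Nat.pow_le_pow_right (by norm_num) h2
  have h5 := h1.trans h4
  calc (((Fintype.piFinset fun _ : Ω => ({0, 2, -2} : Finset ℝ)).filter fun y =>
      y ∈ W.comap F).card : ℝ) ≤ ((3 ^ (a + b) : ℕ) : ℝ) := by exact_mod_cast h5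
    _ = (3 : ℝ) ^ (a + b) := by push_cast; ring
    _ ≤ Real.exp (11 / 10 * ((a + b : ℕ) : ℝ)) := CNT_three_pow _
    _ = Real.exp (11 / 10 * (a + b)) := by push_cast; ring_nf

/-- CNT -/
theorem count_sf (l : ℕ) : ∃ N0 : ℕ, ∀ (κ : Type) [Fintype κ] [Nonempty κ],
    N0 ≤ Fintype.card κ → ∀ d < l, ∀ D : Dt κ l,
      (((Fintype.piFinset fun _ : Om κ l => ({0, 2, -2} : Finset ℝ)).filter fun y =>
        sf (1 / 200) l d (cf l d D y) ≤ 1 / 200).card : ℝ) ≤
        Real.exp (Fintype.card (Om κ l) / 10) := by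
  refine ⟨50 * 2 ^ l, ?_⟩
  intro κ _ _ hκ d hd D
  obtain ⟨F, hF, hinj⟩ := exists_cfL κ l d D
  have hMc : Fintype.card (Om κ l) = 2 ^ l * Fintype.card κ := card_Om κ l
  have hM50 : 50 * 2 ^ l ≤ Fintype.card (Om κ l) := by
    rw [hMc]
    calc 50 * 2 ^ l ≤ Fintype.card κ := hκ
      _ = 1 * Fintype.card κ := (one_mul _).symm
      _ ≤ 2 ^ l * Fintype.card κ := Nat.mul_le_mul_right _ Nat.one_le_two_pow
  choose W hW1 hW2 using fun E : Finset (Om κ l) => exists_wsp (κ := κ) l d E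
  have hsub : ((Fintype.piFinset fun _ : Om κ l => ({0, 2, -2} : Finset ℝ)).filter fun y =>
        sf (1 / 200) l d (cf l d D y) ≤ 1 / 200) ⊆
      (univ.filter fun E : Finset (Om κ l) =>
        100 * E.card ≤ Fintype.card (Om κ l)).biUnion fun E =>
        (Fintype.piFinset fun _ : Om κ l => ({0, 2, -2} : Finset ℝ)).filter fun y =>
          y ∈ (W E).comap F := by
    intro y hy
    rw [mem_filter] at hy
    obtain ⟨c, hc⟩ := sf_blk (1 / 200) (by norm_num) l d hd (cf l d D y)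
    refine mem_biUnion.2 ⟨univ.filter fun i => cf l d D y i ≠ c (blk l d i), ?_, ?_⟩
    · rw [mem_filter]
      refine ⟨mem_univ _, ?_⟩
      have hpos : (0 : ℝ) ≤ Fintype.card (Om κ l) := Nat.cast_nonneg _
      have h1 : 100 * ((univ.filter fun i => cf l d D y i ≠ c (blk l d i)).card : ℝ) ≤
          (Fintype.card (Om κ l) : ℝ) := by
        nlinarith [hy.2]
      exact_mod_cast h1
    · rw [mem_filter]
      refine ⟨hy.1, ?_⟩
      rw [Submodule.mem_comap, hF]
      apply hW2 _ _ c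
      intro i hi
      by_contra h
      exact hi (mem_filter.2 ⟨mem_univ _, h⟩)
  have h2l : (2 : ℝ) ^ (d + 1) ≤ 2 ^ l := pow_le_pow_right₀ (by norm_num) hd
  have hM : 50 * (2 : ℝ) ^ l ≤ (Fintype.card (Om κ l) : ℝ) := by exact_mod_cast hM50
  calc (((Fintype.piFinset fun _ : Om κ l => ({0, 2, -2} : Finset ℝ)).filter fun y =>
        sf (1 / 200) l d (cf l d D y) ≤ 1 / 200).card : ℝ)
      ≤ (((univ.filter fun E : Finset (Om κ l) =>
        100 * E.card ≤ Fintype.card (Om κ l)).biUnion fun E =>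
        (Fintype.piFinset fun _ : Om κ l => ({0, 2, -2} : Finset ℝ)).filter fun y =>
          y ∈ (W E).comap F).card : ℝ) := by exact_mod_cast card_le_card hsub
    _ ≤ ((∑ E ∈ (univ.filter fun E : Finset (Om κ l) =>
        100 * E.card ≤ Fintype.card (Om κ l)),
        ((Fintype.piFinset fun _ : Om κ l => ({0, 2, -2} : Finset ℝ)).filter fun y =>
          y ∈ (W E).comap F).card : ℕ) : ℝ) := by exact_mod_cast card_biUnion_le
    _ = ∑ E ∈ (univ.filter fun E : Finset (Om κ l) =>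
        100 * E.card ≤ Fintype.card (Om κ l)),
        (((Fintype.piFinset fun _ : Om κ l => ({0, 2, -2} : Finset ℝ)).filter fun y =>
          y ∈ (W E).comap F).card : ℝ) := by push_cast; rfl
    _ ≤ ∑ _E ∈ (univ.filter fun E : Finset (Om κ l) =>
        100 * E.card ≤ Fintype.card (Om κ l)),
        Real.exp (11 / 10 * 2 ^ l + 11 / 1000 * Fintype.card (Om κ l)) := by
        refine sum_le_sum fun E hE => ?_
        rw [mem_filter] at hE
        have hE2 : 100 * (E.card : ℝ) ≤ Fintype.card (Om κ l) := by exact_mod_cast hE.2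
        refine (CNT_piece F hinj (W E) (2 ^ (d + 1)) E.card (hW1 E)).trans ?_
        apply Real.exp_le_exp.2
        push_cast
        nlinarith
    _ = ((univ.filter fun E : Finset (Om κ l) =>
        100 * E.card ≤ Fintype.card (Om κ l)).card : ℝ) *
        Real.exp (11 / 10 * 2 ^ l + 11 / 1000 * Fintype.card (Om κ l)) := by
        rw [sum_const, nsmul_eq_mul]
    _ ≤ Real.exp (57 / 1000 * Fintype.card (Om κ l)) *
        Real.exp (11 / 10 * 2 ^ l + 11 / 1000 * Fintype.card (Om κ l)) :=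
        mul_le_mul_of_nonneg_right small_sets (Real.exp_pos _).le
    _ = Real.exp (57 / 1000 * Fintype.card (Om κ l) +
        (11 / 10 * 2 ^ l + 11 / 1000 * Fintype.card (Om κ l))) := (Real.exp_add _ _).symm
    _ ≤ Real.exp (Fintype.card (Om κ l) / 10) := by
        apply Real.exp_le_exp.2
        linarith

end Pool.Agent.HFL
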