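import Pool.Agent.HFL.Defs

set_option autoImplicit false

open scoped BigOperators Classical

namespace Pool.Agent.HFL

open Finset

variable {κ : Type} {Ω : Type}

private lemma cst_root (q : ℕ) (hq : 0 < q) (z : ℤ) (hz : |z| < q) :
    ∑ m ∈ range q, Complex.exp (((2 * Real.pi * m / q * (z : ℝ) : ℝ) : ℂ) * Complex.I) =
      if z = 0 then (q : ℂ) else 0 := by
  have hqC : (q : ℂ) ≠ 0 := by exact_mod_cast hq.ne'
  set ω : ℂ := Complex.exp (2 * Real.pi * Complex.I * (z / q)) with hω
  have h1 : ∀ m ∈ range q,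
      Complex.exp (((2 * Real.pi * m / q * (z : ℝ) : ℝ) : ℂ) * Complex.I) = ω ^ m := by
    intro m _
    rw [hω, ← Complex.exp_nat_mul]
    congr 1
    push_cast
    field_simp
  rw [sum_congr rfl h1]
  split_ifs with h0
  · have : ω = 1 := by
      rw [hω, h0]
      simp
    simp [this]
  · have hne : ω ≠ 1 := by
      intro h
      rw [hω, Complex.exp_eq_one_iff] at h
      obtain ⟨n, hn⟩ := h
      have hpi : (2 * (Real.pi : ℂ) * Complex.I) ≠ 0 := Complex.two_pi_I_ne_zero
      have h2 : ((z : ℂ) / q) = n := by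
        have h3 : (2 * (Real.pi : ℂ) * Complex.I) * ((z : ℂ) / q) =
            (2 * (Real.pi : ℂ) * Complex.I) * n := by
          rw [hn]; ring
        exact mul_left_cancel₀ hpi h3
      have h4 : (z : ℂ) = n * q := by
        field_simp at h2
        linear_combination h2
      have h5 : z = n * q := by exact_mod_cast h4
      have hn0 : n ≠ 0 := by
        rintro rfl
        apply h0
        rw [h5]
        simp
      have h6 : (q : ℤ) ≤ |z| := by
        rw [h5, abs_mul]
        have : (1 : ℤ) ≤ |n| := Int.one_le_abs hn0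
        have hq' : |(q : ℤ)| = q := abs_of_nonneg (Int.natCast_nonneg _)
        rw [hq']
        nlinarith [Int.natCast_nonneg q]
      omega
    rw [geom_sum_eq hne]
    have h7 : ω ^ q = 1 := by
      rw [hω, ← Complex.exp_nat_mul]
      have : (q : ℂ) * (2 * Real.pi * Complex.I * (z / q)) = z * (2 * Real.pi * Complex.I) := by
        field_simp
      rw [this, Complex.exp_int_mul_two_pi_mul_I]
    rw [h7]
    simp

private lemma cst_sq [Fintype Ω] (θ : ℝ) (x : Ω → ℝ) :
    ((‖∑ i, Complex.exp (((θ * x i : ℝ) : ℂ) * Complex.I)‖ ^ 2 : ℝ) : ℂ) =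
      ∑ i, ∑ j, Complex.exp (((θ * (x i - x j) : ℝ) : ℂ) * Complex.I) := by
  set S : ℂ := ∑ i, Complex.exp (((θ * x i : ℝ) : ℂ) * Complex.I) with hS
  have h1 : ((‖S‖ ^ 2 : ℝ) : ℂ) = S * (starRingEnd ℂ) S := by
    rw [Complex.mul_conj, Complex.normSq_eq_norm_sq]
  rw [h1, hS, map_sum, sum_mul_sum]
  apply sum_congr rfl
  intro i _
  apply sum_congr rfl
  intro j _
  rw [← Complex.exp_conj, ← Complex.exp_add]
  congr 1
  rw [map_mul, Complex.conj_ofReal, Complex.conj_I]
  push_cast
  ring

/-- CST -/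
theorem nc_of_chf [Fintype Ω] [Nonempty Ω] (q R : ℕ) (hqR : 2 * R < q) (x : Ω → ℝ)
    (hx : ∀ i, ∃ z : ℤ, x i = z ∧ |z| ≤ R) (h : ∀ m < q, 399 / 400 ≤ ‖chf q m x‖) :
    nc (1 / 200) x := by
  have hq : 0 < q := by omega
  have hN : (0 : ℝ) < Fintype.card Ω := by exact_mod_cast Fintype.card_pos
  set N : ℝ := ((Fintype.card Ω : ℕ) : ℝ) with hNd
  choose z hz1 hz2 using hx
  -- the number of pairs
  have key : ∑ m ∈ range q,
      ‖∑ i, Complex.exp (((2 * Real.pi * m / q * x i : ℝ) : ℂ) * Complex.I)‖ ^ 2 =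
      q * ∑ j, ((univ.filter fun i => x i = x j).card : ℝ) := by
    have h1 : ((∑ m ∈ range q,
        ‖∑ i, Complex.exp (((2 * Real.pi * m / q * x i : ℝ) : ℂ) * Complex.I)‖ ^ 2 : ℝ) : ℂ) =
        ((q * ∑ j, ((univ.filter fun i => x i = x j).card : ℝ) : ℝ) : ℂ) := by
      rw [Complex.ofReal_sum]
      have h2 : ∀ m ∈ range q, ((‖∑ i, Complex.exp (((2 * Real.pi * m / q * x i : ℝ) : ℂ) *
          Complex.I)‖ ^ 2 : ℝ) : ℂ) = ∑ j, ∑ i,
          Complex.exp (((2 * Real.pi * m / q * ((z i - z j : ℤ) : ℝ) : ℝ) : ℂ) * Complex.I) := by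
        intro m _
        rw [cst_sq (2 * Real.pi * m / q) x, sum_comm]
        apply sum_congr rfl
        intro j _
        apply sum_congr rfl
        intro i _
        rw [hz1 i, hz1 j]
        push_cast
        rfl
      rw [sum_congr rfl h2, sum_comm]
      have h3 : ∀ j ∈ (univ : Finset Ω), ∑ m ∈ range q, ∑ i,
          Complex.exp (((2 * Real.pi * m / q * ((z i - z j : ℤ) : ℝ) : ℝ) : ℂ) * Complex.I) =
          ((q * ((univ.filter fun i => x i = x j).card : ℝ) : ℝ) : ℂ) := by
        intro j _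
        rw [sum_comm]
        have h4 : ∀ i ∈ (univ : Finset Ω), ∑ m ∈ range q,
            Complex.exp (((2 * Real.pi * m / q * ((z i - z j : ℤ) : ℝ) : ℝ) : ℂ) * Complex.I) =
            if x i = x j then (q : ℂ) else 0 := by
          intro i _
          rw [cst_root q hq (z i - z j)]
          · have : (z i - z j = 0) ↔ x i = x j := by
              rw [hz1 i, hz1 j, sub_eq_zero]
              exact_mod_cast Iff.rfl
            simp only [this]
          · have h5 := abs_sub (z i) (z j)
            have h6 := hz2 i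
            have h7 := hz2 j
            have h8 : (2 * R : ℤ) < q := by exact_mod_cast hqR
            linarith
        rw [sum_congr rfl h4, ← sum_filter, sum_const, nsmul_eq_mul]
        push_cast
        ring
      rw [sum_congr rfl h3]
      push_cast
      rw [mul_sum]
    exact_mod_cast h1
  -- lower bound
  have low : ∀ m ∈ range q, (399 / 400 * N) ^ 2 ≤
      ‖∑ i, Complex.exp (((2 * Real.pi * m / q * x i : ℝ) : ℂ) * Complex.I)‖ ^ 2 := by
    intro m hm
    have h1 := h m (mem_range.1 hm)
    unfold chf at h1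
    rw [norm_div, Complex.norm_natCast, le_div_iff₀ hN] at h1
    exact pow_le_pow_left₀ (by positivity) h1 2
  have h2 := card_nsmul_le_sum (range q) _ _ low
  rw [key, card_range, nsmul_eq_mul] at h2
  have hq' : (0 : ℝ) < q := by exact_mod_cast hq
  have h3 : (399 / 400 * N) ^ 2 ≤ ∑ j, ((univ.filter fun i => x i = x j).card : ℝ) :=
    le_of_mul_le_mul_left h2 hq'
  -- some class is large
  have h4 : ∃ j, 199 / 200 * N ≤ ((univ.filter fun i => x i = x j).card : ℝ) := by
    by_contra hcon
    push Not at hcon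
    have h5 : ∑ j, ((univ.filter fun i => x i = x j).card : ℝ) ≤ ∑ j : Ω, 199 / 200 * N :=
      sum_le_sum fun j _ => (hcon j).le
    rw [sum_const, card_univ, nsmul_eq_mul] at h5
    have h6 : (399 / 400 * N) ^ 2 ≤ N * (199 / 200 * N) := h3.trans h5
    nlinarith
  obtain ⟨j, hj⟩ := h4
  refine ⟨x j, ?_⟩
  have h7 : (univ.filter fun i => x i = x j).card + (univ.filter fun i => x i ≠ x j).card =
      Fintype.card Ω := by
    rw [← card_union_of_disjoint, ← filter_or]
    · have : (univ.filter fun i => x i = x j ∨ x i ≠ x j) = (univ : Finset Ω) := by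
        apply filter_true_of_mem
        intro i _
        exact em _
      rw [this, card_univ]
    · exact disjoint_filter_filter_not _ _ _
  have h8 : ((univ.filter fun i => x i = x j).card : ℝ) +
      ((univ.filter fun i => x i ≠ x j).card : ℝ) = N := by
    rw [hNd]
    exact_mod_cast h7
  show ((univ.filter fun i => x i ≠ x j).card : ℝ) ≤ 1 / 200 * N
  linarith

end Pool.Agent.HFL
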