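import Pool.Agent.HFL.Defs

set_option autoImplicit false

open scoped BigOperators Classical

namespace Pool.Agent.HFL

open Finset

variable {κ : Type} {Ω : Type}

private theorem dch_step {a : ℝ} (h1 : 1 / 5 ≤ a) (h2 : a ≤ 97 / 100) :
    a ^ 4 + 1 / 200 ≤ a - 7 / 100 := by
  have e : a - 7 / 100 - (a ^ 4 + 1 / 200) =
      (a - 1 / 5) * (97 / 100 - a) * (a ^ 2 + 117 / 100 * a + (117 / 100) ^ 2 - 97 / 500) +
        ((1 - ((117 / 100 : ℝ) ^ 2 - 97 / 500) * (117 / 100) + 97 / 500 * (117 / 100)) * a +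
          97 / 500 * ((117 / 100 : ℝ) ^ 2 - 97 / 500) - 3 / 40) := by
    ring
  have h3 : 0 ≤ (a - 1 / 5) * (97 / 100 - a) := mul_nonneg (by linarith) (by linarith)
  have h4 : 0 ≤ (a - 1 / 5) * (97 / 100 - a) *
      (a ^ 2 + 117 / 100 * a + (117 / 100) ^ 2 - 97 / 500) :=
    mul_nonneg h3 (by nlinarith)
  have h5 : 0 ≤ ((1 - ((117 / 100 : ℝ) ^ 2 - 97 / 500) * (117 / 100) + 97 / 500 * (117 / 100)) * a +
          97 / 500 * ((117 / 100 : ℝ) ^ 2 - 97 / 500) - 3 / 40) := by
    norm_num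
    linarith
  linarith

private theorem dch_small {a : ℝ} (h0 : 0 ≤ a) (h1 : a ≤ 1 / 5) : a ^ 4 + 1 / 200 ≤ 1 / 5 := by
  have h2 : a ^ 4 ≤ (1 / 5 : ℝ) ^ 4 := pow_le_pow_left₀ h0 h1 4
  norm_num at h2
  linarith

/-- DCH -/
theorem dich (q : ℕ) (hq : Odd q) (C : ℕ → ℝ) (hper : ∀ m, C (m + q) = C m)
    (h0 : ∀ m, 0 ≤ C m) (h1 : ∀ m, C m ≤ 1) (hd : ∀ m, |C (2 * m) - C m ^ 4| ≤ 1 / 200)
    (hs : ∀ m, |C (m + 1) - C m| ≤ 1 / 2) (hC0 : C 0 = 1) : ∀ m, 399 / 400 ≤ C m := by
  have hq0 : 0 < q := hq.pos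
  have hP : Function.Periodic C q := hper
  have hmod : ∀ m, C (m % q) = C m := fun m => hP.map_mod_nat m
  have hup : ∀ m, C (2 * m) ≤ C m ^ 4 + 1 / 200 := by
    intro m
    have := (abs_le.1 (hd m)).2
    linarith
  have hlow : ∀ m, C (2 * m) - 1 / 200 ≤ C m ^ 4 := by
    intro m
    have := (abs_le.1 (hd m)).2
    linarith
  -- step A
  have hA : ∀ m, C m < 97 / 100 → C m ≤ 1 / 5 := by
    intro m hm
    have hj : ∀ j : ℕ, C (2 ^ j * m) ≤ 1 / 5 ∨ C (2 ^ j * m) ≤ C m - 7 / 100 * j := by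
      intro j
      induction j with
      | zero => right; simp
      | succ j ih =>
        have e : 2 ^ (j + 1) * m = 2 * (2 ^ j * m) := by ring
        rw [e]
        have h2 := hup (2 ^ j * m)
        by_cases h3 : C (2 ^ j * m) ≤ 1 / 5
        · left
          have := dch_small (h0 _) h3
          linarith
        · rcases ih with h4 | h4
          · exact absurd h4 h3
          · right
            rw [not_le] at h3
            have h5 : (0 : ℝ) ≤ 7 / 100 * j := by positivity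
            have h6 := dch_step (a := C (2 ^ j * m)) h3.le (by linarith)
            push_cast
            linarith
    have hcop : Nat.Coprime 2 q := (Nat.coprime_two_left).2 hq
    have hK := Nat.ModEq.pow_totient hcop
    have hKpos : 0 < Nat.totient q := Nat.totient_pos.2 hq0
    have h2 := hj (Nat.totient q * 14)
    have h3 : C (2 ^ (Nat.totient q * 14) * m) = C m := by
      have h4 : 2 ^ (Nat.totient q * 14) * m ≡ m [MOD q] := by
        have h5 : (2 ^ Nat.totient q) ^ 14 ≡ 1 ^ 14 [MOD q] := hK.pow 14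
        rw [← pow_mul, one_pow] at h5
        have h6 := h5.mul_right m
        rwa [one_mul] at h6
      rw [← hmod (2 ^ (Nat.totient q * 14) * m), ← hmod m, h4]
    rw [h3] at h2
    rcases h2 with h2 | h2
    · exact h2
    · exfalso
      have h4 : (1 : ℝ) ≤ (Nat.totient q : ℝ) := by exact_mod_cast hKpos
      push_cast at h2
      linarith
  -- step B
  have hB : ∀ m, 97 / 100 ≤ C m := by
    intro m
    induction m with
    | zero => rw [hC0]; norm_num
    | succ m ih =>
      by_contra h2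
      rw [not_le] at h2
      have h3 := hA _ h2
      have h4 := (abs_le.1 (hs m)).1
      linarith
  -- step C
  obtain ⟨m0, hm0, hmin⟩ := Finset.exists_min_image (Finset.range q) C ⟨0, Finset.mem_range.2 hq0⟩
  have hmin' : ∀ m, C m0 ≤ C m := by
    intro m
    rw [← hmod m]
    exact hmin _ (Finset.mem_range.2 (Nat.mod_lt _ hq0))
  intro m
  refine le_trans ?_ (hmin' m)
  have h2 := hlow m0
  have h3 := hmin' (2 * m0)
  have h4 := hB m0
  have h5 := h1 m0
  have h6 : C m0 - C m0 ^ 4 = (1 - C m0) * (C m0 * (1 + C m0 + C m0 ^ 2)) := by ring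
  have h7 : (2 : ℝ) ≤ C m0 * (1 + C m0 + C m0 ^ 2) := by nlinarith
  nlinarith

end Pool.Agent.HFL
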