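import Mathlib

/-!
Random Hadamard matrices without nearly flat vectors: definitions (MP_4e07e5_an).
-/

set_option autoImplicit false

open scoped BigOperators Classical

namespace Pool.Agent.HFL

open Finset

variable {κ : Type} {Ω : Type}

/-- `2 ^ l` copies of `κ` -/
def Om (κ : Type) : ℕ → Type
  | 0 => κ
  | l + 1 => Om κ l ⊕ Om κ l

noncomputable instance fintypeOm (κ : Type) [Fintype κ] : (l : ℕ) → Fintype (Om κ l)
  | 0 => (inferInstance : Fintype κ)
  | l + 1 =>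
    haveI := fintypeOm κ l
    (inferInstance : Fintype (Om κ l ⊕ Om κ l))

instance nonemptyOm (κ : Type) [Nonempty κ] : (l : ℕ) → Nonempty (Om κ l)
  | 0 => (inferInstance : Nonempty κ)
  | l + 1 =>
    haveI := nonemptyOm κ l
    (inferInstance : Nonempty (Om κ l ⊕ Om κ l))

/-- the permutations used in the construction: two for every inner node of a binary tree -/
def Dt (κ : Type) : ℕ → Type
  | 0 => Unit
  | l + 1 => (Equiv.Perm (Om κ l) × Equiv.Perm (Om κ l)) × (Dt κ l × Dt κ l)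

noncomputable instance fintypeDt (κ : Type) [Fintype κ] : (l : ℕ) → Fintype (Dt κ l)
  | 0 => (inferInstance : Fintype Unit)
  | l + 1 =>
    haveI := fintypeDt κ l
    (inferInstance :
      Fintype ((Equiv.Perm (Om κ l) × Equiv.Perm (Om κ l)) × (Dt κ l × Dt κ l)))

instance nonemptyDt (κ : Type) : (l : ℕ) → Nonempty (Dt κ l)
  | 0 => (inferInstance : Nonempty Unit)
  | l + 1 =>
    haveI := nonemptyDt κ l
    (inferInstance :
      Nonempty ((Equiv.Perm (Om κ l) × Equiv.Perm (Om κ l)) × (Dt κ l × Dt κ l)))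

/-- the first half of a vector -/
def lh {l : ℕ} (x : Om κ (l + 1) → ℝ) : Om κ l → ℝ := fun i => x (Sum.inl i)

/-- the second half of a vector -/
def rh {l : ℕ} (x : Om κ (l + 1) → ℝ) : Om κ l → ℝ := fun i => x (Sum.inr i)

/-- the two halves put together -/
def jn {l : ℕ} (a b : Om κ l → ℝ) : Om κ (l + 1) → ℝ := fun i => Sum.elim a b i

/-- first child -/
def ch1 {l : ℕ} (ρ : Equiv.Perm (Om κ l)) (x : Om κ (l + 1) → ℝ) : Om κ l → ℝ :=
  fun i => lh x i + rh x (ρ i)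

/-- second child -/
def ch2 {l : ℕ} (ρ σ : Equiv.Perm (Om κ l)) (x : Om κ (l + 1) → ℝ) : Om κ l → ℝ :=
  fun i => lh x (σ i) - rh x (ρ (σ i))

/-- the leaves of the tree with root `x` -/
def dn : (l : ℕ) → Dt κ l → (Om κ l → ℝ) → (Om κ l → ℝ)
  | 0, _, x => x
  | l + 1, D, x => jn (dn l D.2.1 (ch1 D.1.1 x)) (dn l D.2.2 (ch2 D.1.1 D.1.2 x))

/-- the root of the tree with leaves `b` -/
noncomputable def up : (l : ℕ) → Dt κ l → (Om κ l → ℝ) → (Om κ l → ℝ)
  | 0, _, b => b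
  | l + 1, D, b =>
    jn (fun i => (up l D.2.1 (lh b) i + up l D.2.2 (rh b) (D.1.2.symm i)) / 2)
      (fun i => (up l D.2.1 (lh b) (D.1.1.symm i) -
        up l D.2.2 (rh b) (D.1.2.symm (D.1.1.symm i))) / 2)

/-- `A` applied to every leaf -/
noncomputable def hm [Fintype κ] (A : κ → κ → ℝ) : (l : ℕ) → (Om κ l → ℝ) → (Om κ l → ℝ)
  | 0, z => fun j : κ => ∑ i : κ, A j i * z i
  | l + 1, z => jn (hm A l (lh z)) (hm A l (rh z))

/-- the transpose of `A` applied to every leaf -/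
noncomputable def ht [Fintype κ] (A : κ → κ → ℝ) : (l : ℕ) → (Om κ l → ℝ) → (Om κ l → ℝ)
  | 0, z => fun j : κ => ∑ i : κ, A i j * z i
  | l + 1, z => jn (ht A l (lh z)) (ht A l (rh z))

/-- the matrix -/
def mat (A : κ → κ → ℝ) : (l : ℕ) → Dt κ l → Om κ l → Om κ l → ℝ
  | 0, _ => A
  | l + 1, D => fun j i => Sum.elim
      (fun j => Sum.elim (fun i => mat A l D.2.1 j i)
        (fun i => mat A l D.2.1 j (D.1.1.symm i)) i)
      (fun j => Sum.elim (fun i => mat A l D.2.2 j (D.1.2.symm i))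
        (fun i => -mat A l D.2.2 j (D.1.2.symm (D.1.1.symm i))) i) j

/-- the value at `m / q` of the characteristic function of the empirical distribution of `x` -/
noncomputable def chf [Fintype Ω] (q m : ℕ) (x : Ω → ℝ) : ℂ :=
  (∑ i, Complex.exp (((2 * Real.pi * m / q * x i : ℝ) : ℂ) * Complex.I)) / Fintype.card Ω

/-- `a` and `b ∘ τ` are nearly independent, as far as sums and differences are concerned -/
def Ty [Fintype Ω] (q : ℕ) (δ : ℝ) (τ : Equiv.Perm Ω) (a b : Ω → ℝ) : Prop :=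
  ∀ m < q, ‖chf q m (fun i => a i + b (τ i)) - chf q m a * chf q m b‖ ≤ δ ∧
    ‖chf q m (fun i => a i - b (τ i)) - chf q m a * (starRingEnd ℂ) (chf q m b)‖ ≤ δ

/-- nearly constant -/
def nc [Fintype Ω] (r : ℝ) (x : Ω → ℝ) : Prop :=
  ∃ c : ℝ, ((univ.filter fun i => x i ≠ c).card : ℝ) ≤ r * Fintype.card Ω

/-- weighted number of non typical nodes, from the root -/
noncomputable def td [Fintype κ] (q : ℕ) (δ : ℝ) : (l : ℕ) → Dt κ l → (Om κ l → ℝ) → ℝ
  | 0, _, _ => 0
  | l + 1, D, x => (if Ty q δ D.1.1 (lh x) (rh x) then 0 else 1) +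
      (td q δ l D.2.1 (ch1 D.1.1 x) + td q δ l D.2.2 (ch2 D.1.1 D.1.2 x)) / 2

/-- weighted number of non typical nodes, from the leaves -/
noncomputable def bu [Fintype κ] (q : ℕ) (δ : ℝ) : (l : ℕ) → Dt κ l → (Om κ l → ℝ) → ℝ
  | 0, _, _ => 0
  | l + 1, D, b => (if Ty q δ D.1.2.symm (up l D.2.1 (lh b)) (up l D.2.2 (rh b)) then 0 else 1) +
      (bu q δ l D.2.1 (lh b) + bu q δ l D.2.2 (rh b)) / 2

/-- the vectors at depth `d` -/
def cf : (l d : ℕ) → Dt κ l → (Om κ l → ℝ) → (Om κ l → ℝ)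
  | 0, _, _, x => x
  | _ + 1, 0, _, x => x
  | l + 1, d + 1, D, x => jn (cf l d D.2.1 (ch1 D.1.1 x)) (cf l d D.2.2 (ch2 D.1.1 D.1.2 x))

/-- the proportion of the nodes at depth `d` with a half that is not nearly constant -/
noncomputable def sf [Fintype κ] (r : ℝ) : (l d : ℕ) → (Om κ l → ℝ) → ℝ
  | 0, _, _ => 0
  | _ + 1, 0, z => if nc r (lh z) ∧ nc r (rh z) then 0 else 1
  | l + 1, d + 1, z => (sf r l d (lh z) + sf r l d (rh z)) / 2

/-- the names of the half nodes at depth `d` -/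
def Bk : ℕ → Type
  | 0 => Bool
  | d + 1 => Bk d ⊕ Bk d

noncomputable instance fintypeBk : (d : ℕ) → Fintype (Bk d)
  | 0 => (inferInstance : Fintype Bool)
  | d + 1 =>
    haveI := fintypeBk d
    (inferInstance : Fintype (Bk d ⊕ Bk d))

/-- some name -/
def bk0 : (d : ℕ) → Bk d
  | 0 => false
  | d + 1 => Sum.inl (bk0 d)

/-- the half node of an index -/
def blk : (l d : ℕ) → Om κ l → Bk d
  | 0, d, _ => bk0 d
  | _ + 1, 0, i => Sum.elim (fun _ => false) (fun _ => true) i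
  | l + 1, d + 1, i => Sum.elim (fun i => Sum.inl (blk l d i)) (fun i => Sum.inr (blk l d i)) i

/-- sign vectors -/
def Sg (x : Ω → ℝ) : Prop := ∀ i, x i = 1 ∨ x i = -1

/-- Hadamard matrices -/
def IsH [Fintype Ω] (A : Ω → Ω → ℝ) : Prop :=
  (∀ j i, A j i = 1 ∨ A j i = -1) ∧
    ∀ j k, ∑ i, A j i * A k i = if j = k then (Fintype.card Ω : ℝ) else 0

end Pool.Agent.HFL
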