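import Pool.Agent.HFL.OM

set_option autoImplicit false

open scoped BigOperators Classical

namespace Pool.Agent.HFL

open Finset

variable {κ : Type} {Ω : Type}

/-- MAT -/
theorem mat_apply [Fintype κ] (A : κ → κ → ℝ) (l : ℕ) (D : Dt κ l) (x : Om κ l → ℝ)
    (j : Om κ l) : ∑ i, mat A l D j i * x i = hm A l (dn l D x) j := by
  induction l with
  | zero => rfl
  | succ l ih =>
    rw [sum_Om]
    rcases j with j | j
    · have h2 : ∑ i : Om κ l, mat A l D.2.1 j (D.1.1.symm i) * x (Sum.inr i)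
          = ∑ i : Om κ l, mat A l D.2.1 j i * x (Sum.inr (D.1.1 i)) := by
        rw [← Equiv.sum_comp D.1.1]
        refine Finset.sum_congr rfl fun i _ => ?_
        rw [Equiv.symm_apply_apply]
      have h3 := ih D.2.1 (ch1 D.1.1 x) j
      have h4 : hm A (l + 1) (dn (l + 1) D x) (Sum.inl j)
          = hm A l (dn l D.2.1 (ch1 D.1.1 x)) j := rfl
      rw [h4, ← h3]
      show ∑ i : Om κ l, mat A l D.2.1 j i * x (Sum.inl i)
        + ∑ i : Om κ l, mat A l D.2.1 j (D.1.1.symm i) * x (Sum.inr i) = _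
      rw [h2, ← Finset.sum_add_distrib]
      refine Finset.sum_congr rfl fun i _ => ?_
      rw [← mul_add]
      rfl
    · have h1 : ∑ i : Om κ l, mat A l D.2.2 j (D.1.2.symm i) * x (Sum.inl i)
          = ∑ i : Om κ l, mat A l D.2.2 j i * x (Sum.inl (D.1.2 i)) := by
        rw [← Equiv.sum_comp D.1.2]
        refine Finset.sum_congr rfl fun i _ => ?_
        rw [Equiv.symm_apply_apply]
      have h2 : ∑ i : Om κ l, -mat A l D.2.2 j (D.1.2.symm (D.1.1.symm i)) * x (Sum.inr i)
          = ∑ i : Om κ l, -mat A l D.2.2 j i * x (Sum.inr (D.1.1 (D.1.2 i))) := by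
        rw [← Equiv.sum_comp (D.1.2.trans D.1.1)]
        refine Finset.sum_congr rfl fun i _ => ?_
        simp only [Equiv.trans_apply, Equiv.symm_apply_apply]
      have h3 := ih D.2.2 (ch2 D.1.1 D.1.2 x) j
      have h4 : hm A (l + 1) (dn (l + 1) D x) (Sum.inr j)
          = hm A l (dn l D.2.2 (ch2 D.1.1 D.1.2 x)) j := rfl
      rw [h4, ← h3]
      show ∑ i : Om κ l, mat A l D.2.2 j (D.1.2.symm i) * x (Sum.inl i)
        + ∑ i : Om κ l, -mat A l D.2.2 j (D.1.2.symm (D.1.1.symm i)) * x (Sum.inr i) = _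
      rw [h1, h2, ← Finset.sum_add_distrib]
      refine Finset.sum_congr rfl fun i _ => ?_
      have : ch2 D.1.1 D.1.2 x i = x (Sum.inl (D.1.2 i)) - x (Sum.inr (D.1.1 (D.1.2 i))) := rfl
      rw [this]
      ring

/-- MAT -/
theorem isH_mat [Fintype κ] (A : κ → κ → ℝ) (hA : IsH A) (l : ℕ) (D : Dt κ l) :
    IsH (mat A l D) := by
  induction l with
  | zero => exact hA
  | succ l ih =>
    obtain ⟨h1, o1⟩ := ih D.2.1
    obtain ⟨h2, o2⟩ := ih D.2.2
    have hc : (Fintype.card (Om κ (l + 1)) : ℝ) = 2 * (Fintype.card (Om κ l) : ℝ) := by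
      have h : Fintype.card (Om κ (l + 1)) = Fintype.card (Om κ l) + Fintype.card (Om κ l) :=
        Fintype.card_sum
      rw [h]
      push_cast
      ring
    refine ⟨?_, ?_⟩
    · intro j i
      rcases j with j | j <;> rcases i with i | i
      · exact h1 j i
      · exact h1 j (D.1.1.symm i)
      · exact h2 j (D.1.2.symm i)
      · show -mat A l D.2.2 j (D.1.2.symm (D.1.1.symm i)) = 1 ∨
          -mat A l D.2.2 j (D.1.2.symm (D.1.1.symm i)) = -1
        rcases h2 j (D.1.2.symm (D.1.1.symm i)) with h | h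
        · right; rw [h]
        · left; rw [h]; norm_num
    · intro j k
      rw [sum_Om]
      rcases j with j | j <;> rcases k with k | k
      · have e2 : ∑ i : Om κ l, mat A l D.2.1 j (D.1.1.symm i) * mat A l D.2.1 k (D.1.1.symm i)
            = ∑ i : Om κ l, mat A l D.2.1 j i * mat A l D.2.1 k i :=
          Equiv.sum_comp D.1.1.symm (fun i => mat A l D.2.1 j i * mat A l D.2.1 k i)
        show ∑ i : Om κ l, mat A l D.2.1 j i * mat A l D.2.1 k i
          + ∑ i : Om κ l, mat A l D.2.1 j (D.1.1.symm i) * mat A l D.2.1 k (D.1.1.symm i) = _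
        rw [e2, o1 j k, hc]
        by_cases hjk : j = k
        · rw [if_pos hjk, if_pos (by rw [hjk])]; ring
        · rw [if_neg hjk]
          exact (add_zero 0).trans (if_neg (fun h => hjk (Sum.inl.inj h))).symm
      · have e2 : ∑ i : Om κ l, mat A l D.2.1 j (D.1.1.symm i)
              * -mat A l D.2.2 k (D.1.2.symm (D.1.1.symm i))
            = ∑ i : Om κ l, mat A l D.2.1 j i * -mat A l D.2.2 k (D.1.2.symm i) :=
          Equiv.sum_comp D.1.1.symm (fun i => mat A l D.2.1 j i * -mat A l D.2.2 k (D.1.2.symm i))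
        show ∑ i : Om κ l, mat A l D.2.1 j i * mat A l D.2.2 k (D.1.2.symm i)
          + ∑ i : Om κ l, mat A l D.2.1 j (D.1.1.symm i)
              * -mat A l D.2.2 k (D.1.2.symm (D.1.1.symm i)) = _
        rw [e2, if_neg (fun h => by cases h), ← Finset.sum_add_distrib]
        refine Finset.sum_eq_zero fun i _ => ?_
        ring
      · have e2 : ∑ i : Om κ l, -mat A l D.2.2 j (D.1.2.symm (D.1.1.symm i))
              * mat A l D.2.1 k (D.1.1.symm i)
            = ∑ i : Om κ l, -mat A l D.2.2 j (D.1.2.symm i) * mat A l D.2.1 k i :=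
          Equiv.sum_comp D.1.1.symm (fun i => -mat A l D.2.2 j (D.1.2.symm i) * mat A l D.2.1 k i)
        show ∑ i : Om κ l, mat A l D.2.2 j (D.1.2.symm i) * mat A l D.2.1 k i
          + ∑ i : Om κ l, -mat A l D.2.2 j (D.1.2.symm (D.1.1.symm i))
              * mat A l D.2.1 k (D.1.1.symm i) = _
        rw [e2, if_neg (fun h => by cases h), ← Finset.sum_add_distrib]
        refine Finset.sum_eq_zero fun i _ => ?_
        ring
      · have e1 : ∑ i : Om κ l, mat A l D.2.2 j (D.1.2.symm i) * mat A l D.2.2 k (D.1.2.symm i)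
            = ∑ i : Om κ l, mat A l D.2.2 j i * mat A l D.2.2 k i :=
          Equiv.sum_comp D.1.2.symm (fun i => mat A l D.2.2 j i * mat A l D.2.2 k i)
        have e2 : ∑ i : Om κ l, -mat A l D.2.2 j (D.1.2.symm (D.1.1.symm i))
              * -mat A l D.2.2 k (D.1.2.symm (D.1.1.symm i))
            = ∑ i : Om κ l, -mat A l D.2.2 j i * -mat A l D.2.2 k i :=
          Equiv.sum_comp (D.1.1.symm.trans D.1.2.symm)
            (fun i => -mat A l D.2.2 j i * -mat A l D.2.2 k i)
        show ∑ i : Om κ l, mat A l D.2.2 j (D.1.2.symm i) * mat A l D.2.2 k (D.1.2.symm i)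
          + ∑ i : Om κ l, -mat A l D.2.2 j (D.1.2.symm (D.1.1.symm i))
              * -mat A l D.2.2 k (D.1.2.symm (D.1.1.symm i)) = _
        have e3 : ∑ i : Om κ l, -mat A l D.2.2 j i * -mat A l D.2.2 k i
            = ∑ i : Om κ l, mat A l D.2.2 j i * mat A l D.2.2 k i :=
          Finset.sum_congr rfl fun i _ => by ring
        rw [e1, e2, e3, o2 j k, hc]
        by_cases hjk : j = k
        · rw [if_pos hjk, if_pos (by rw [hjk])]; ring
        · rw [if_neg hjk]
          exact (add_zero 0).trans (if_neg (fun h => hjk (Sum.inr.inj h))).symm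

end Pool.Agent.HFL
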