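import Pool.Agent.HFL.OM

set_option autoImplicit false

open scoped BigOperators Classical

namespace Pool.Agent.HFL

open Finset

variable {κ : Type} {Ω : Type}

/-- the sum over one node -/
private theorem mbu_node [Fintype κ] (q : ℕ) (δ c : ℝ) {l : ℕ}
    (hP : ∀ a b : Om κ l → ℝ, ∑ τ : Equiv.Perm (Om κ l),
      (if Ty q δ τ a b then (1 : ℝ) else Real.exp (2 * c * Fintype.card (Om κ l))) ≤
        2 * Fintype.card (Equiv.Perm (Om κ l))) (a b : Om κ l → ℝ) :
    ∑ σ : Equiv.Perm (Om κ l),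
      (if Ty q δ σ.symm a b then (1 : ℝ) else Real.exp (2 * c * Fintype.card (Om κ l))) ≤
        2 * Fintype.card (Equiv.Perm (Om κ l)) := by
  have e := Equiv.sum_comp (Equiv.inv (Equiv.Perm (Om κ l))) fun τ : Equiv.Perm (Om κ l) =>
    (if Ty q δ τ a b then (1 : ℝ) else Real.exp (2 * c * Fintype.card (Om κ l)))
  refine le_trans (le_of_eq ?_) (hP a b)
  rw [← e]
  rfl

/-- the exponential of one node -/
private theorem mbu_exp (P : Prop) (c M u v : ℝ) :
    Real.exp (c * (2 * M) * ((if P then 0 else 1) + (u + v) / 2)) =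
      (if P then (1 : ℝ) else Real.exp (2 * c * M)) * (Real.exp (c * M * u) *
        Real.exp (c * M * v)) := by
  split_ifs
  · rw [one_mul, ← Real.exp_add]
    congr 1
    ring
  · rw [← Real.exp_add, ← Real.exp_add]
    congr 1
    ring

private theorem mbu_main [Fintype κ] [Nonempty κ] (q : ℕ) (δ c : ℝ)
    (hP : ∀ (k : ℕ) (a b : Om κ k → ℝ), ∑ τ : Equiv.Perm (Om κ k),
      (if Ty q δ τ a b then (1 : ℝ) else Real.exp (2 * c * Fintype.card (Om κ k))) ≤
        2 * Fintype.card (Equiv.Perm (Om κ k))) (l : ℕ) : ∀ b : Om κ l → ℝ,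
    ∑ D : Dt κ l, Real.exp (c * Fintype.card (Om κ l) * bu q δ l D b) ≤
      2 ^ (2 ^ l - 1) * Fintype.card (Dt κ l) := by
  induction l with
  | zero =>
    intro b
    refine (sum_le_card_nsmul _ _ 1 fun D _ => ?_).trans ?_
    · show Real.exp (c * Fintype.card (Om κ 0) * 0) ≤ 1
      rw [mul_zero, Real.exp_zero]
    · rw [pow_zero, Nat.sub_self, pow_zero, one_mul, nsmul_eq_mul, mul_one]
      rfl
  | succ l ih =>
    intro b
    have h1 := ih (lh b)
    have h2 := ih (rh b)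
    obtain ⟨M, hM⟩ : ∃ M : ℝ, M = Fintype.card (Om κ l) := ⟨_, rfl⟩
    obtain ⟨p, hp⟩ : ∃ p : ℝ, p = Fintype.card (Equiv.Perm (Om κ l)) := ⟨_, rfl⟩
    obtain ⟨t, ht⟩ : ∃ t : ℝ, t = Fintype.card (Dt κ l) := ⟨_, rfl⟩
    have hp0 : 0 ≤ p := by rw [hp]; exact Nat.cast_nonneg _
    have ht0 : 0 ≤ t := by rw [ht]; exact Nat.cast_nonneg _
    have hn : ∀ a b : Om κ l → ℝ, ∑ σ : Equiv.Perm (Om κ l),
        (if Ty q δ σ.symm a b then (1 : ℝ) else Real.exp (2 * c * M)) ≤ 2 * p := by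
      intro a b
      rw [hM, hp]
      exact mbu_node q δ c (hP l) a b
    rw [← hM, ← ht] at h1 h2
    rw [sum_Dt, card_Dt_succ, card_Om_succ]
    push_cast
    rw [← hM, ← hp, ← ht]
    have e0 : ∀ (ρ σ : Equiv.Perm (Om κ l)) (D1 D2 : Dt κ l),
        Real.exp (c * (2 * M) * bu q δ (l + 1) ((ρ, σ), (D1, D2)) b) =
          (if Ty q δ σ.symm (up l D1 (lh b)) (up l D2 (rh b)) then (1 : ℝ)
            else Real.exp (2 * c * M)) *
          (Real.exp (c * M * bu q δ l D1 (lh b)) * Real.exp (c * M * bu q δ l D2 (rh b))) := by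
      intro ρ σ D1 D2
      exact mbu_exp _ c M _ _
    have e1 : ∀ ρ : Equiv.Perm (Om κ l), ∑ σ : Equiv.Perm (Om κ l), ∑ D1 : Dt κ l,
        ∑ D2 : Dt κ l, Real.exp (c * (2 * M) * bu q δ (l + 1) ((ρ, σ), (D1, D2)) b) ≤
        2 * p * ((2 ^ (2 ^ l - 1) * t) * (2 ^ (2 ^ l - 1) * t)) := by
      intro ρ
      rw [sum_comm]
      calc ∑ D1 : Dt κ l, ∑ σ : Equiv.Perm (Om κ l), ∑ D2 : Dt κ l,
            Real.exp (c * (2 * M) * bu q δ (l + 1) ((ρ, σ), (D1, D2)) b)
          ≤ ∑ D1 : Dt κ l, ∑ D2 : Dt κ l, 2 * p * (Real.exp (c * M * bu q δ l D1 (lh b)) *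
              Real.exp (c * M * bu q δ l D2 (rh b))) := by
            refine sum_le_sum fun D1 _ => ?_
            rw [sum_comm]
            refine sum_le_sum fun D2 _ => ?_
            simp only [e0]
            rw [← sum_mul]
            exact mul_le_mul_of_nonneg_right (hn _ _)
              (mul_nonneg (Real.exp_nonneg _) (Real.exp_nonneg _))
        _ = 2 * p * ((∑ D : Dt κ l, Real.exp (c * M * bu q δ l D (lh b))) *
              ∑ D : Dt κ l, Real.exp (c * M * bu q δ l D (rh b))) := by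
            rw [sum_mul_sum, mul_sum]
            exact sum_congr rfl fun D1 _ => (mul_sum _ _ _).symm
        _ ≤ 2 * p * ((2 ^ (2 ^ l - 1) * t) * (2 ^ (2 ^ l - 1) * t)) := by
            refine mul_le_mul_of_nonneg_left ?_ (mul_nonneg zero_le_two hp0)
            exact mul_le_mul h1 h2 (sum_nonneg fun D _ => Real.exp_nonneg _)
              (mul_nonneg (pow_nonneg zero_le_two _) ht0)
    refine (sum_le_card_nsmul _ _ _ fun ρ _ => e1 ρ).trans (le_of_eq ?_)
    rw [nsmul_eq_mul, card_univ, ← hp]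
    have h3 : 2 ^ (l + 1) - 1 = (2 ^ l - 1) + (2 ^ l - 1) + 1 := by
      have : 1 ≤ 2 ^ l := Nat.one_le_two_pow
      rw [pow_succ]
      omega
    rw [h3, pow_succ, pow_add]
    ring

/-- MBU -/
theorem bu_mom [Fintype κ] [Nonempty κ] (q : ℕ) (δ c : ℝ) (hc : 0 ≤ c)
    (hP : ∀ (k : ℕ) (a b : Om κ k → ℝ), ∑ τ : Equiv.Perm (Om κ k),
      (if Ty q δ τ a b then (1 : ℝ) else Real.exp (2 * c * Fintype.card (Om κ k))) ≤
        2 * Fintype.card (Equiv.Perm (Om κ k))) (l : ℕ) (b : Om κ l → ℝ) :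
    ∑ D : Dt κ l, Real.exp (c * Fintype.card (Om κ l) * bu q δ l D b) ≤
      2 ^ (2 ^ l) * Fintype.card (Dt κ l) := by
  refine (mbu_main q δ c hP l b).trans ?_
  refine mul_le_mul_of_nonneg_right ?_ (Nat.cast_nonneg _)
  exact pow_le_pow_right₀ one_le_two (Nat.sub_le _ _)

end Pool.Agent.HFL
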