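import Pool.Agent.HFL.OM

set_option autoImplicit false

open scoped BigOperators Classical

namespace Pool.Agent.HFL

open Finset

variable {κ : Type} {Ω : Type}

private theorem mtd_strong [Fintype κ] [Nonempty κ] (q : ℕ) (δ c : ℝ)
    (hP : ∀ (k : ℕ) (a b : Om κ k → ℝ), ∑ τ : Equiv.Perm (Om κ k),
      (if Ty q δ τ a b then (1 : ℝ) else Real.exp (2 * c * Fintype.card (Om κ k))) ≤
        2 * Fintype.card (Equiv.Perm (Om κ k))) (l : ℕ) (x : Om κ l → ℝ) :
    ∑ D : Dt κ l, Real.exp (c * Fintype.card (Om κ l) * td q δ l D x) ≤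
      2 ^ (2 ^ l - 1) * Fintype.card (Dt κ l) := by
  induction l with
  | zero =>
    have h1 : ∀ D : Dt κ 0, Real.exp (c * Fintype.card (Om κ 0) * td q δ 0 D x) = 1 := by
      intro D
      show Real.exp (c * Fintype.card (Om κ 0) * 0) = 1
      rw [mul_zero, Real.exp_zero]
    rw [Finset.sum_congr rfl (fun D _ => h1 D), Finset.sum_const, nsmul_eq_mul, mul_one,
      Finset.card_univ]
    norm_num
  | succ l ih =>
    rw [sum_Dt, card_Dt_succ, card_Om_succ]
    set M : ℕ := Fintype.card (Om κ l) with hM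
    set K : ℝ := 2 ^ (2 ^ l - 1) with hK
    have hK0 : 0 ≤ K := by positivity
    have hterm : ∀ (ρ σ : Equiv.Perm (Om κ l)) (D1 D2 : Dt κ l),
        Real.exp (c * ((2 * M : ℕ) : ℝ) * td q δ (l + 1) ((ρ, σ), (D1, D2)) x) =
          (if Ty q δ ρ (lh x) (rh x) then (1 : ℝ) else Real.exp (2 * c * M)) *
            (Real.exp (c * M * td q δ l D1 (ch1 ρ x)) *
              Real.exp (c * M * td q δ l D2 (ch2 ρ σ x))) := by
      intro ρ σ D1 D2
      have e1 : td q δ (l + 1) ((ρ, σ), (D1, D2)) x =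
          (if Ty q δ ρ (lh x) (rh x) then 0 else 1) +
            (td q δ l D1 (ch1 ρ x) + td q δ l D2 (ch2 ρ σ x)) / 2 := rfl
      rw [e1]
      split_ifs with h
      · rw [one_mul, ← Real.exp_add]
        congr 1
        push_cast
        ring
      · rw [← Real.exp_add, ← Real.exp_add]
        congr 1
        push_cast
        ring
    have hin : ∀ ρ σ : Equiv.Perm (Om κ l), ∑ D1 : Dt κ l, ∑ D2 : Dt κ l,
        Real.exp (c * ((2 * M : ℕ) : ℝ) * td q δ (l + 1) ((ρ, σ), (D1, D2)) x) ≤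
          (if Ty q δ ρ (lh x) (rh x) then (1 : ℝ) else Real.exp (2 * c * M)) *
            ((K * Fintype.card (Dt κ l)) * (K * Fintype.card (Dt κ l))) := by
      intro ρ σ
      have e2 : ∑ D1 : Dt κ l, ∑ D2 : Dt κ l,
          Real.exp (c * ((2 * M : ℕ) : ℝ) * td q δ (l + 1) ((ρ, σ), (D1, D2)) x) =
          (if Ty q δ ρ (lh x) (rh x) then (1 : ℝ) else Real.exp (2 * c * M)) *
            ((∑ D1 : Dt κ l, Real.exp (c * M * td q δ l D1 (ch1 ρ x))) *
              (∑ D2 : Dt κ l, Real.exp (c * M * td q δ l D2 (ch2 ρ σ x)))) := by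
        rw [Finset.sum_mul_sum, Finset.mul_sum]
        refine Finset.sum_congr rfl (fun D1 _ => ?_)
        rw [Finset.mul_sum]
        exact Finset.sum_congr rfl (fun D2 _ => hterm ρ σ D1 D2)
      rw [e2]
      refine mul_le_mul_of_nonneg_left ?_ ?_
      · refine mul_le_mul (ih _) (ih _) ?_ ?_
        · exact Finset.sum_nonneg (fun _ _ => (Real.exp_pos _).le)
        · positivity
      · split_ifs
        · norm_num
        · exact (Real.exp_pos _).le
    have h2 : ∑ ρ : Equiv.Perm (Om κ l), ∑ σ : Equiv.Perm (Om κ l), ∑ D1 : Dt κ l,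
        ∑ D2 : Dt κ l, Real.exp (c * ((2 * M : ℕ) : ℝ) * td q δ (l + 1) ((ρ, σ), (D1, D2)) x) ≤
        ∑ ρ : Equiv.Perm (Om κ l), ∑ _σ : Equiv.Perm (Om κ l),
          (if Ty q δ ρ (lh x) (rh x) then (1 : ℝ) else Real.exp (2 * c * M)) *
            ((K * Fintype.card (Dt κ l)) * (K * Fintype.card (Dt κ l))) :=
      Finset.sum_le_sum (fun ρ _ => Finset.sum_le_sum (fun σ _ => hin ρ σ))
    refine h2.trans ?_
    have h3 : ∑ ρ : Equiv.Perm (Om κ l), ∑ _σ : Equiv.Perm (Om κ l),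
          (if Ty q δ ρ (lh x) (rh x) then (1 : ℝ) else Real.exp (2 * c * M)) *
            ((K * Fintype.card (Dt κ l)) * (K * Fintype.card (Dt κ l))) =
        (∑ ρ : Equiv.Perm (Om κ l),
          (if Ty q δ ρ (lh x) (rh x) then (1 : ℝ) else Real.exp (2 * c * M))) *
          (Fintype.card (Equiv.Perm (Om κ l)) *
            ((K * Fintype.card (Dt κ l)) * (K * Fintype.card (Dt κ l)))) := by
      rw [Finset.sum_mul]
      refine Finset.sum_congr rfl (fun ρ _ => ?_)
      rw [Finset.sum_const, nsmul_eq_mul, Finset.card_univ]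
      ring
    rw [h3]
    have h4 := hP l (lh x) (rh x)
    rw [← hM] at h4
    refine (mul_le_mul_of_nonneg_right h4 (by positivity)).trans (le_of_eq ?_)
    have h5 : (2 : ℝ) ^ (2 ^ (l + 1) - 1) = 2 * (K * K) := by
      rw [hK, ← pow_add, ← pow_succ']
      congr 1
      have h6 : 1 ≤ 2 ^ l := Nat.one_le_two_pow
      rw [pow_succ]
      omega
    rw [h5]
    push_cast
    ring

/-- MTD -/
theorem td_mom [Fintype κ] [Nonempty κ] (q : ℕ) (δ c : ℝ) (hc : 0 ≤ c)
    (hP : ∀ (k : ℕ) (a b : Om κ k → ℝ), ∑ τ : Equiv.Perm (Om κ k),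
      (if Ty q δ τ a b then (1 : ℝ) else Real.exp (2 * c * Fintype.card (Om κ k))) ≤
        2 * Fintype.card (Equiv.Perm (Om κ k))) (l : ℕ) (x : Om κ l → ℝ) :
    ∑ D : Dt κ l, Real.exp (c * Fintype.card (Om κ l) * td q δ l D x) ≤
      2 ^ (2 ^ l) * Fintype.card (Dt κ l) := by
  have _ := hc
  refine (mtd_strong q δ c hP l x).trans ?_
  refine mul_le_mul_of_nonneg_right ?_ (Nat.cast_nonneg _)
  exact pow_le_pow_right₀ (by norm_num) (Nat.sub_le _ _)

end Pool.Agent.HFL
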