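import Pool.Agent.HFL.NOA
import Pool.Agent.HFL.DCH
import Pool.Agent.HFL.CST

set_option autoImplicit false

open scoped BigOperators Classical

namespace Pool.Agent.HFL

open Finset

variable {κ : Type} {Ω : Type}

private theorem NOD_per (q : ℕ) (C : ℕ → ℝ) (hper : ∀ m, C (m + q) = C m) (m k : ℕ) :
    C (m + k * q) = C m := by
  induction k with
  | zero => simp
  | succ k ih => rw [Nat.succ_mul, ← Nat.add_assoc, hper, ih]

/-- NOD -/
theorem node [Fintype Ω] [Nonempty Ω] (q R : ℕ) (hq : Odd q) (hqR : 40 * R < q) (a b : Ω → ℝ)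
    (ha : ∀ i, ∃ z : ℤ, a i = z ∧ |z| ≤ R) (hb : ∀ i, ∃ z : ℤ, b i = z ∧ |z| ≤ R)
    (ρ τ : Equiv.Perm Ω) (Y V : Ω → ℝ) (h1 : Ty q (1 / 2000) ρ a b)
    (h2 : Ty q (1 / 2000) τ Y V)
    (c1 : ∑ i, (a i + b (ρ i) - Y i) ^ 2 ≤ (1 / 200000 : ℝ) ^ 2 * Fintype.card Ω)
    (c2 : ∑ i, (a i - b (ρ i) - V (τ i)) ^ 2 ≤ (1 / 200000 : ℝ) ^ 2 * Fintype.card Ω) :
    nc (1 / 200) a ∧ nc (1 / 200) b := by
  have hq0 : 0 < q := by omega
  have hqpos : (0 : ℝ) < q := by exact_mod_cast hq0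
  have ha1 : ∀ i, ∃ z : ℤ, a i = z := fun i => by
    obtain ⟨z, hz, -⟩ := ha i
    exact ⟨z, hz⟩
  have hb1 : ∀ i, ∃ z : ℤ, b i = z := fun i => by
    obtain ⟨z, hz, -⟩ := hb i
    exact ⟨z, hz⟩
  have ha2 : ∀ i, |a i| ≤ (R : ℝ) := fun i => by
    obtain ⟨z, hz, hzR⟩ := ha i
    rw [hz]
    exact_mod_cast hzR
  have hb2 : ∀ i, |b i| ≤ (R : ℝ) := fun i => by
    obtain ⟨z, hz, hzR⟩ := hb i
    rw [hz]
    exact_mod_cast hzR
  let C : ℕ → ℝ := fun m => ‖chf q m a‖ * ‖chf q m b‖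
  have hCdef : ∀ m, C m = ‖chf q m a‖ * ‖chf q m b‖ := fun m => rfl
  have hper : ∀ m, C (m + q) = C m := by
    intro m
    rw [hCdef, hCdef, chf_add_q q m hq0 a ha1, chf_add_q q m hq0 b hb1]
  have h0 : ∀ m, 0 ≤ C m := fun m => mul_nonneg (norm_nonneg _) (norm_nonneg _)
  have hA1 : ∀ m, ‖chf q m a‖ ≤ 1 := fun m => norm_chf_le q m a
  have hB1 : ∀ m, ‖chf q m b‖ ≤ 1 := fun m => norm_chf_le q m b
  have h1' : ∀ m, C m ≤ 1 := fun m =>
    mul_le_one₀ (hA1 m) (norm_nonneg _) (hB1 m)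
  have hd0 : ∀ m < q, |C (2 * m) - C m ^ 4| ≤ 1 / 200 := fun m hm =>
    node_double q m hm a b ρ τ Y V h1 h2 c1 c2
  have hd : ∀ m, |C (2 * m) - C m ^ 4| ≤ 1 / 200 := by
    intro m
    have e1 : C m = C (m % q) := by
      conv_lhs => rw [← Nat.mod_add_div m q]
      rw [Nat.mul_comm]
      exact NOD_per q C hper _ _
    have e2 : C (2 * m) = C (2 * (m % q)) := by
      have : 2 * m = 2 * (m % q) + (2 * (m / q)) * q := by
        conv_lhs => rw [← Nat.mod_add_div m q]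
        ring
      rw [this]
      exact NOD_per q C hper _ _
    rw [e1, e2]
    exact hd0 _ (Nat.mod_lt _ hq0)
  have hst : 2 * Real.pi / q * R ≤ 1 / 4 := by
    have hR : (40 : ℝ) * R ≤ q := by exact_mod_cast hqR.le
    have hpi := Real.pi_lt_four
    have hR0 : (0 : ℝ) ≤ R := Nat.cast_nonneg R
    rw [div_mul_eq_mul_div, div_le_iff₀ hqpos]
    nlinarith
  have hs : ∀ m, |C (m + 1) - C m| ≤ 1 / 2 := by
    intro m
    have s1 : |‖chf q (m + 1) a‖ - ‖chf q m a‖| ≤ 1 / 4 :=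
      ((abs_norm_sub_norm_le _ _).trans (chf_step q m hq0 a R ha2)).trans hst
    have s2 : |‖chf q (m + 1) b‖ - ‖chf q m b‖| ≤ 1 / 4 :=
      ((abs_norm_sub_norm_le _ _).trans (chf_step q m hq0 b R hb2)).trans hst
    have e : C (m + 1) - C m
        = (‖chf q (m + 1) a‖ - ‖chf q m a‖) * ‖chf q (m + 1) b‖
          + ‖chf q m a‖ * (‖chf q (m + 1) b‖ - ‖chf q m b‖) := by
      rw [hCdef, hCdef]
      ring
    rw [e]
    refine (abs_add_le _ _).trans ?_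
    rw [abs_mul, abs_mul, abs_of_nonneg (norm_nonneg (chf q (m + 1) b)),
      abs_of_nonneg (norm_nonneg (chf q m a))]
    have t1 : |‖chf q (m + 1) a‖ - ‖chf q m a‖| * ‖chf q (m + 1) b‖ ≤ 1 / 4 * 1 :=
      mul_le_mul s1 (hB1 _) (norm_nonneg _) (by norm_num)
    have t2 : ‖chf q m a‖ * |‖chf q (m + 1) b‖ - ‖chf q m b‖| ≤ 1 * (1 / 4) :=
      mul_le_mul (hA1 _) s2 (abs_nonneg _) (by norm_num)
    linarith
  have hC0 : C 0 = 1 := by
    rw [hCdef, chf_zero, chf_zero]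
    simp
  have hall := dich q hq C hper h0 h1' hd hs hC0
  have h2R : 2 * R < q := by omega
  refine ⟨nc_of_chf q R h2R a ha ?_, nc_of_chf q R h2R b hb ?_⟩
  · intro m _
    have h3 := hall m
    have h4 : C m ≤ ‖chf q m a‖ := mul_le_of_le_one_right (norm_nonneg _) (hB1 m)
    exact h3.trans h4
  · intro m _
    have h3 := hall m
    have h4 : C m ≤ ‖chf q m b‖ := mul_le_of_le_one_left (norm_nonneg _) (hA1 m)
    exact h3.trans h4

end Pool.Agent.HFL
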