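import Pool.Agent.HFL.UPD
import Pool.Agent.HFL.NOD

set_option autoImplicit false

open scoped BigOperators Classical

namespace Pool.Agent.HFL

open Finset

variable {κ : Type} {Ω : Type}

private theorem SUM_card_le [Fintype κ] (l : ℕ) :
    (Fintype.card κ : ℝ) ≤ Fintype.card (Om κ l) := by
  rw [card_Om]
  push_cast
  have h1 : (1 : ℝ) ≤ 2 ^ l := one_le_pow₀ (by norm_num)
  have h2 : (0 : ℝ) ≤ Fintype.card κ := Nat.cast_nonneg _
  nlinarith

private theorem SUM_root [Fintype κ] [Nonempty κ] (q R : ℕ) (hq : Odd q) (hqR : 40 * R < q)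
    (l : ℕ) (ρ σ : Equiv.Perm (Om κ l)) (D1 D2 : Dt κ l) (x : Om κ (l + 1) → ℝ)
    (b1 b2 : Om κ l → ℝ)
    (hx : ∀ i, ∃ z : ℤ, x i = z ∧ |z| * 2 ^ (l + 1) ≤ R)
    (h1 : ∑ i, (b1 i - dn l D1 (ch1 ρ x) i) ^ 2 ≤ (1 / 200000 : ℝ) ^ 2 * Fintype.card κ)
    (h2 : ∑ i, (b2 i - dn l D2 (ch2 ρ σ x) i) ^ 2 ≤ (1 / 200000 : ℝ) ^ 2 * Fintype.card κ) :
    (if nc (1 / 200) (lh x) ∧ nc (1 / 200) (rh x) then (0 : ℝ) else 1) ≤
      (if Ty q (1 / 2000) ρ (lh x) (rh x) then (0 : ℝ) else 1) +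
      (if Ty q (1 / 2000) σ.symm (up l D1 b1) (up l D2 b2) then (0 : ℝ) else 1) := by
  by_cases t1 : Ty q (1 / 2000) ρ (lh x) (rh x)
  · by_cases t2 : Ty q (1 / 2000) σ.symm (up l D1 b1) (up l D2 b2)
    · have hz : ∀ i, ∃ z : ℤ, x i = z ∧ |z| ≤ R := by
        intro i
        obtain ⟨z, e, hz⟩ := hx i
        refine ⟨z, e, le_trans ?_ hz⟩
        have h3 : (1 : ℤ) ≤ 2 ^ (l + 1) := one_le_pow₀ (by norm_num)
        nlinarith [abs_nonneg z]
      have hc : (1 / 200000 : ℝ) ^ 2 * Fintype.card κ ≤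
          (1 / 200000 : ℝ) ^ 2 * Fintype.card (Om κ l) :=
        mul_le_mul_of_nonneg_left (SUM_card_le l) (by positivity)
      have key := node q R hq hqR (lh x) (rh x) (fun i => hz _) (fun i => hz _) ρ σ.symm
        (up l D1 b1) (up l D2 b2) t1 t2
        ((up_dist l D1 b1 (ch1 ρ x)).trans (h1.trans hc))
        (by
          rw [← Equiv.sum_comp σ]
          refine le_trans (le_of_eq ?_) ((up_dist l D2 b2 (ch2 ρ σ x)).trans (h2.trans hc))
          refine Finset.sum_congr rfl fun i _ => ?_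
          rw [Equiv.symm_apply_apply]
          rfl)
      rw [if_pos key, if_pos t1, if_pos t2]
      norm_num
    · rw [if_neg t2]
      split_ifs <;> norm_num
  · rw [if_neg t1]
    split_ifs <;> norm_num

/-- SUM -/
theorem sum_sf_le [Fintype κ] [Nonempty κ] (q R : ℕ) (hq : Odd q) (hqR : 40 * R < q) (l : ℕ)
    (D : Dt κ l) (x b : Om κ l → ℝ) (hx : ∀ i, ∃ z : ℤ, x i = z ∧ |z| * 2 ^ l ≤ R)
    (hb : ∑ i, (b i - dn l D x i) ^ 2 ≤ (1 / 200000 : ℝ) ^ 2 * Fintype.card κ) :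
    ∑ d ∈ range l, sf (1 / 200) l d (cf l d D x) ≤
      td q (1 / 2000) l D x + bu q (1 / 2000) l D b := by
  induction l with
  | zero =>
    have e1 : td q (1 / 2000) 0 D x = 0 := rfl
    have e2 : bu q (1 / 2000) 0 D b = 0 := rfl
    rw [e1, e2]
    simp
  | succ l ih =>
    obtain ⟨⟨ρ, σ⟩, ⟨D1, D2⟩⟩ := D
    rw [sum_Om] at hb
    have hb1 : ∑ i, (lh b i - dn l D1 (ch1 ρ x) i) ^ 2 ≤
        (1 / 200000 : ℝ) ^ 2 * Fintype.card κ := by
      refine le_trans ?_ hb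
      refine le_add_of_nonneg_right (Finset.sum_nonneg fun i _ => sq_nonneg _)
    have hb2 : ∑ i, (rh b i - dn l D2 (ch2 ρ σ x) i) ^ 2 ≤
        (1 / 200000 : ℝ) ^ 2 * Fintype.card κ := by
      refine le_trans ?_ hb
      refine le_add_of_nonneg_left (Finset.sum_nonneg fun i _ => sq_nonneg _)
    have hx1 : ∀ i, ∃ z : ℤ, ch1 ρ x i = z ∧ |z| * 2 ^ l ≤ R := by
      intro i
      obtain ⟨z1, e1, hz1⟩ := hx (Sum.inl i)
      obtain ⟨z2, e2, hz2⟩ := hx (Sum.inr (ρ i))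
      refine ⟨z1 + z2, ?_, ?_⟩
      · show x (Sum.inl i) + x (Sum.inr (ρ i)) = _
        rw [e1, e2]; push_cast; ring
      · have h3 : (0 : ℤ) < 2 ^ l := by positivity
        rw [pow_succ] at hz1 hz2
        have h4 := abs_add_le z1 z2
        have h5 := mul_le_mul_of_nonneg_right h4 h3.le
        nlinarith
    have hx2 : ∀ i, ∃ z : ℤ, ch2 ρ σ x i = z ∧ |z| * 2 ^ l ≤ R := by
      intro i
      obtain ⟨z1, e1, hz1⟩ := hx (Sum.inl (σ i))
      obtain ⟨z2, e2, hz2⟩ := hx (Sum.inr (ρ (σ i)))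
      refine ⟨z1 - z2, ?_, ?_⟩
      · show x (Sum.inl (σ i)) - x (Sum.inr (ρ (σ i))) = _
        rw [e1, e2]; push_cast; ring
      · have h3 : (0 : ℤ) < 2 ^ l := by positivity
        rw [pow_succ] at hz1 hz2
        have h4 := abs_sub z1 z2
        have h5 := mul_le_mul_of_nonneg_right h4 h3.le
        nlinarith
    have i1 := ih D1 (ch1 ρ x) (lh b) hx1 hb1
    have i2 := ih D2 (ch2 ρ σ x) (rh b) hx2 hb2
    have key := SUM_root q R hq hqR l ρ σ D1 D2 x (lh b) (rh b) hx hb1 hb2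
    have et : td q (1 / 2000) (l + 1) ((ρ, σ), (D1, D2)) x =
        (if Ty q (1 / 2000) ρ (lh x) (rh x) then 0 else 1) +
        (td q (1 / 2000) l D1 (ch1 ρ x) + td q (1 / 2000) l D2 (ch2 ρ σ x)) / 2 := rfl
    have eb : bu q (1 / 2000) (l + 1) ((ρ, σ), (D1, D2)) b =
        (if Ty q (1 / 2000) σ.symm (up l D1 (lh b)) (up l D2 (rh b)) then 0 else 1) +
        (bu q (1 / 2000) l D1 (lh b) + bu q (1 / 2000) l D2 (rh b)) / 2 := rfl
    have es : ∀ d, sf (1 / 200) (l + 1) (d + 1) (cf (l + 1) (d + 1) ((ρ, σ), (D1, D2)) x) =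
        (sf (1 / 200) l d (cf l d D1 (ch1 ρ x)) +
          sf (1 / 200) l d (cf l d D2 (ch2 ρ σ x))) / 2 := fun d => rfl
    have e0 : sf (1 / 200) (l + 1) 0 (cf (l + 1) 0 ((ρ, σ), (D1, D2)) x) =
        (if nc (1 / 200) (lh x) ∧ nc (1 / 200) (rh x) then (0 : ℝ) else 1) := rfl
    rw [Finset.sum_range_succ', et, eb, e0, Finset.sum_congr rfl fun d _ => es d,
      ← Finset.sum_div, Finset.sum_add_distrib]
    linarith

end Pool.Agent.HFL
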