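import Pool.Agent.HFL.PT
import Pool.Agent.HFL.MTD
import Pool.Agent.HFL.MBU
import Pool.Agent.HFL.SUM
import Pool.Agent.HFL.CLO
import Pool.Agent.HFL.BAL
import Pool.Agent.HFL.BMO
import Pool.Agent.HFL.BSF
import Pool.Agent.HFL.MAT

set_option autoImplicit false

open scoped BigOperators Classical

namespace Pool.Agent.HFL

open Finset

variable {κ : Type} {Ω : Type}

private theorem FIN_card [Fintype κ] (l : ℕ) : Fintype.card κ ≤ Fintype.card (Om κ l) := by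
  rw [card_Om]
  exact Nat.le_mul_of_pos_left _ (by positivity)

private theorem FIN_small (a n : ℕ) (h : a + 2 ≤ n) :
    (2 : ℝ) ^ a * Real.exp (-(Real.log 2 * n)) ≤ 1 / 4 := by
  have h1 : Real.exp (-(Real.log 2 * n)) = ((2 : ℝ) ^ n)⁻¹ := by
    rw [Real.exp_neg, mul_comm, Real.exp_nat_mul, Real.exp_log two_pos]
  rw [h1]
  have h2 : (2 : ℝ) ^ (a + 2) ≤ 2 ^ n := pow_le_pow_right₀ (by norm_num) h
  rw [← div_eq_mul_inv, div_le_iff₀ (by positivity)]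
  rw [pow_add] at h2
  linarith

private theorem FIN_union {α : Type} [Fintype α] (S1 S2 S3 : Finset α)
    (h0 : (0 : ℝ) < Fintype.card α) (h1 : (S1.card : ℝ) ≤ 1 / 4 * Fintype.card α)
    (h2 : (S2.card : ℝ) ≤ 1 / 4 * Fintype.card α) (h3 : (S3.card : ℝ) ≤ 1 / 4 * Fintype.card α) :
    ∃ D, D ∉ S1 ∧ D ∉ S2 ∧ D ∉ S3 := by
  by_contra hcon
  have h4 : ∀ D : α, D ∈ S1 ∪ (S2 ∪ S3) := by
    intro D
    by_contra h
    rw [Finset.mem_union, Finset.mem_union, not_or, not_or] at h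
    exact hcon ⟨D, h⟩
  have h5 : (univ : Finset α).card ≤ S1.card + (S2.card + S3.card) :=
    (Finset.card_le_card fun D _ => h4 D).trans ((Finset.card_union_le _ _).trans
      (Nat.add_le_add_left (Finset.card_union_le _ _) _))
  rw [Finset.card_univ] at h5
  have h6 : (Fintype.card α : ℝ) ≤ S1.card + (S2.card + S3.card) := by exact_mod_cast h5
  linarith

/-- the contradiction for one matrix -/
private theorem FIN_one [Fintype κ] [Nonempty κ] (A : κ → κ → ℝ) (hA : IsH A) (l q : ℕ)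
    (hq : q = 40 * 2 ^ (l + 1) + 1) (t γ : ℝ) (hl : 800 * t < l)
    (hγ : 2 * (1 - γ) * 4 ^ (l + 1) ≤ (1 / 200000 : ℝ) ^ 2) (D : Dt κ (l + 1))
    (D1 : ¬ ∃ x : Om κ (l + 1) → ℝ, Sg x ∧ t ≤ td q (1 / 2000) (l + 1) D x)
    (D2 : ¬ ∃ w : Om κ (l + 1) → ℝ, Sg w ∧ t ≤ bu q (1 / 2000) (l + 1) D
      (fun i => √(Fintype.card (Om κ (l + 1)) : ℝ) / Fintype.card κ * ht A (l + 1) w i))
    (D3 : ¬ ∃ x : Om κ (l + 1) → ℝ, Sg x ∧
        (4 * Fintype.card (Om κ l) ≤ 10 * (univ.filter fun i => ch1 D.1.1 x i ≠ 0).card ∧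
          10 * (univ.filter fun i => ch1 D.1.1 x i ≠ 0).card ≤ 6 * Fintype.card (Om κ l)) ∧
        ∃ d < l, sf (1 / 200) (l + 1) (d + 1) (cf (l + 1) (d + 1) D x) ≤ 1 / 400)
    (x : Om κ (l + 1) → ℝ) (hx : Sg x) :
    ∑ j, |∑ i, mat A (l + 1) D j i * x i| ≤
      γ * ((Fintype.card (Om κ (l + 1)) : ℝ) * √(Fintype.card (Om κ (l + 1)) : ℝ)) := by
  by_contra hcon
  push Not at hcon
  let w : Om κ (l + 1) → ℝ := fun j =>
    if 0 ≤ ∑ i, mat A (l + 1) D j i * x i then 1 else -1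
  have hw : Sg w := by
    intro j
    by_cases h : 0 ≤ ∑ i, mat A (l + 1) D j i * x i
    · left
      exact if_pos h
    · right
      exact if_neg h
  have hwx : ∀ j, w j * hm A (l + 1) (dn (l + 1) D x) j = |∑ i, mat A (l + 1) D j i * x i| := by
    intro j
    rw [← mat_apply]
    by_cases h : 0 ≤ ∑ i, mat A (l + 1) D j i * x i
    · rw [abs_of_nonneg h]
      show (if 0 ≤ ∑ i, mat A (l + 1) D j i * x i then (1 : ℝ) else -1) * _ = _
      rw [if_pos h, one_mul]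
    · rw [abs_of_neg (not_le.1 h)]
      show (if 0 ≤ ∑ i, mat A (l + 1) D j i * x i then (1 : ℝ) else -1) * _ = _
      rw [if_neg h, neg_one_mul]
  have hcl := closeness A hA (l + 1) D x w hx hw γ (by
    rw [Finset.sum_congr rfl fun j _ => hwx j]
    exact hcon.le) hγ
  have hbal := balance A hA l D x w hx hw hcl
  have hq1 : Odd q := ⟨20 * 2 ^ (l + 1), by rw [hq]; ring⟩
  have hq2 : 40 * 2 ^ (l + 1) < q := by rw [hq]; exact Nat.lt_succ_self _
  have hsum := sum_sf_le q (2 ^ (l + 1)) hq1 hq2 (l + 1) D x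
    (fun i => √(Fintype.card (Om κ (l + 1)) : ℝ) / Fintype.card κ * ht A (l + 1) w i)
    (fun i => by
      rcases hx i with h | h
      · exact ⟨1, by rw [h]; norm_num, by norm_num⟩
      · exact ⟨-1, by rw [h]; norm_num, by norm_num⟩) hcl
  have h1 : td q (1 / 2000) (l + 1) D x < t := by
    by_contra h
    exact D1 ⟨x, hx, not_lt.1 h⟩
  have h2 : bu q (1 / 2000) (l + 1) D
      (fun i => √(Fintype.card (Om κ (l + 1)) : ℝ) / Fintype.card κ * ht A (l + 1) w i) < t := by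
    by_contra h
    exact D2 ⟨w, hw, not_lt.1 h⟩
  have h3 : ∀ d < l, 1 / 400 ≤ sf (1 / 200) (l + 1) (d + 1) (cf (l + 1) (d + 1) D x) := by
    intro d hd
    by_contra h
    exact D3 ⟨x, hx, hbal, d, hd, (not_le.1 h).le⟩
  rw [Finset.sum_range_succ'] at hsum
  have h4 : (l : ℝ) * (1 / 400) ≤ ∑ d ∈ range l,
      sf (1 / 200) (l + 1) (d + 1) (cf (l + 1) (d + 1) D x) := by
    have h5 := Finset.card_nsmul_le_sum (range l)
      (fun d => sf (1 / 200) (l + 1) (d + 1) (cf (l + 1) (d + 1) D x)) (1 / 400)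
      (fun d hd => h3 d (Finset.mem_range.1 hd))
    rw [Finset.card_range, nsmul_eq_mul] at h5
    exact h5
  have h5 := sf_nonneg (κ := κ) (1 / 200) (l + 1) 0 (cf (l + 1) 0 D x)
  linarith

/-- FIN -/
theorem exists_mat : ∃ (L N0 : ℕ) (γ : ℝ), 0 < γ ∧ γ < 1 ∧
    ∀ (κ : Type) [Fintype κ] [Nonempty κ] (A : κ → κ → ℝ), IsH A → N0 ≤ Fintype.card κ →
      ∃ H : Om κ L → Om κ L → ℝ, IsH H ∧ ∀ x : Om κ L → ℝ, Sg x →
        ∑ j, |∑ i, H j i * x i| ≤
          γ * ((Fintype.card (Om κ L) : ℝ) * √(Fintype.card (Om κ L) : ℝ)) := by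
  have hc0 : (0 : ℝ) < (1 / 2000 : ℝ) ^ 2 / 2048 := by norm_num
  obtain ⟨l, hl⟩ := exists_nat_gt (800 * (Real.log 4 / ((1 / 2000 : ℝ) ^ 2 / 2048)))
  obtain ⟨N1, hN1⟩ := exists_hP (40 * 2 ^ (l + 1) + 1) (1 / 2000) (by norm_num)
  obtain ⟨N2, hN2⟩ := bad_sf l
  have hp4 : (0 : ℝ) < 4 ^ (l + 1) := by positivity
  refine ⟨l + 1, N1 + N2 + (2 ^ (l + 1) + 2),
    1 - (1 / 200000 : ℝ) ^ 2 / (2 * 4 ^ (l + 1)), ?_, ?_, ?_⟩
  · have h1 : (1 / 200000 : ℝ) ^ 2 / (2 * 4 ^ (l + 1)) < 1 := by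
      rw [div_lt_one (by positivity)]
      have h2 : (1 : ℝ) ≤ 4 ^ (l + 1) := one_le_pow₀ (by norm_num)
      norm_num
      linarith
    linarith
  · have h1 : 0 < (1 / 200000 : ℝ) ^ 2 / (2 * 4 ^ (l + 1)) := by positivity
    linarith
  · intro κ _ _ A hA hN
    have hNa : N1 ≤ Fintype.card κ :=
      le_trans (le_trans (Nat.le_add_right _ _) (Nat.le_add_right _ _)) hN
    have hNb : N2 ≤ Fintype.card κ :=
      le_trans (le_trans (Nat.le_add_left _ _) (Nat.le_add_right _ _)) hN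
    have hNc : 2 ^ (l + 1) + 2 ≤ Fintype.card κ := le_trans (Nat.le_add_left _ _) hN
    have hP := hN1 κ hNa
    have m1 := td_mom (κ := κ) (40 * 2 ^ (l + 1) + 1) (1 / 2000) ((1 / 2000 : ℝ) ^ 2 / 2048) hc0.le
      hP (l + 1)
    have m2 := bu_mom (κ := κ) (40 * 2 ^ (l + 1) + 1) (1 / 2000) ((1 / 2000 : ℝ) ^ 2 / 2048) hc0.le
      hP (l + 1)
    have ht : Real.log 4 ≤ (1 / 2000 : ℝ) ^ 2 / 2048 *
        (Real.log 4 / ((1 / 2000 : ℝ) ^ 2 / 2048)) := by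
      rw [mul_div_cancel₀ _ hc0.ne']
    have B1 := bad_mom (l + 1) (fun D x => td (40 * 2 ^ (l + 1) + 1) (1 / 2000) (l + 1) D x)
      _ _ hc0 m1 ht
    have B2 := bad_mom (l + 1) (fun D w => bu (40 * 2 ^ (l + 1) + 1) (1 / 2000) (l + 1) D
      (fun i => √(Fintype.card (Om κ (l + 1)) : ℝ) / Fintype.card κ * Pool.Agent.HFL.ht A (l + 1) w i))
      _ _ hc0 (fun w => m2 _) ht
    have B3 := hN2 κ hNb
    have hsm := FIN_small (2 ^ (l + 1)) (Fintype.card (Om κ (l + 1)))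
      (le_trans hNc (FIN_card (κ := κ) (l + 1)))
    have hcard : (0 : ℝ) < Fintype.card (Dt κ (l + 1)) := by
      exact_mod_cast Fintype.card_pos
    obtain ⟨D, hD1, hD2, hD3⟩ := FIN_union _ _ _ hcard (B1.trans (mul_le_mul_of_nonneg_right hsm
      hcard.le)) (B2.trans (mul_le_mul_of_nonneg_right hsm hcard.le)) B3
    simp only [Finset.mem_filter, Finset.mem_univ, true_and] at hD1 hD2 hD3
    refine ⟨mat A (l + 1) D, isH_mat A hA (l + 1) D, fun x hx => ?_⟩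
    refine FIN_one A hA l _ rfl _ _ hl ?_ D hD1 hD2 hD3 x hx
    have h1 : 2 * (1 - (1 - (1 / 200000 : ℝ) ^ 2 / (2 * 4 ^ (l + 1)))) * 4 ^ (l + 1) =
        (1 / 200000 : ℝ) ^ 2 := by
      field_simp
      ring
    exact h1.le

end Pool.Agent.HFL
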