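import Pool.Agent.HFL.OM

set_option autoImplicit false

open scoped BigOperators Classical

namespace Pool.Agent.HFL

open Finset

variable {κ : Type} {Ω : Type}

theorem hmt_cols [Fintype κ] (A : κ → κ → ℝ) (hA : IsH A) (i k : κ) :
    ∑ j, A j i * A j k = if i = k then (Fintype.card κ : ℝ) else 0 := by
  have hN : (Fintype.card κ : ℝ) ≠ 0 := by
    have : 0 < Fintype.card κ := Fintype.card_pos_iff.2 ⟨i⟩
    positivity
  let M : Matrix κ κ ℝ := Matrix.of fun a b => A a b
  let B : Matrix κ κ ℝ := Matrix.of fun a b => A b a / Fintype.card κ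
  have h1 : M * B = 1 := by
    ext a b
    simp only [M, B, Matrix.mul_apply, Matrix.of_apply, Matrix.one_apply]
    have h2 := hA.2 a b
    have h3 : ∑ c, A a c * (A b c / Fintype.card κ) =
        (∑ c, A a c * A b c) / Fintype.card κ := by
      rw [Finset.sum_div]
      exact Finset.sum_congr rfl fun c _ => by ring
    rw [h3, h2]
    split_ifs
    · exact div_self hN
    · exact zero_div _
  have h4 : B * M = 1 := mul_eq_one_comm.1 h1
  have h5 := congrFun (congrFun h4 i) k
  simp only [M, B, Matrix.mul_apply, Matrix.of_apply, Matrix.one_apply] at h5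
  have h6 : ∑ c, A c i / Fintype.card κ * A c k =
      (∑ c, A c i * A c k) / Fintype.card κ := by
    rw [Finset.sum_div]
    exact Finset.sum_congr rfl fun c _ => by ring
  rw [h6, div_eq_iff hN] at h5
  rw [h5]
  split_ifs <;> simp

theorem hmt_inv [Fintype κ] (A : κ → κ → ℝ) (hA : IsH A) (w : κ → ℝ) (j : κ) :
    ∑ i : κ, A j i * ∑ k : κ, A k i * w k = Fintype.card κ * w j := by
  have h1 : ∑ i : κ, A j i * ∑ k : κ, A k i * w k = ∑ k : κ, (∑ i : κ, A j i * A k i) * w k := by
    simp only [Finset.mul_sum, Finset.sum_mul]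
    rw [Finset.sum_comm]
    exact Finset.sum_congr rfl fun k _ => Finset.sum_congr rfl fun i _ => by ring
  rw [h1]
  have h2 : ∀ k : κ, (∑ i : κ, A j i * A k i) * w k =
      if j = k then (Fintype.card κ : ℝ) * w k else 0 := by
    intro k
    rw [hA.2 j k]
    by_cases h : j = k
    · rw [if_pos h, if_pos h]
    · rw [if_neg h, if_neg h, zero_mul]
  rw [Finset.sum_congr rfl fun k _ => h2 k, Finset.sum_ite_eq, if_pos (Finset.mem_univ j)]

/-- HMT -/
theorem hm_ht [Fintype κ] (A : κ → κ → ℝ) (hA : IsH A) (l : ℕ) (w : Om κ l → ℝ) (j : Om κ l) :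
    hm A l (ht A l w) j = Fintype.card κ * w j := by
  induction l with
  | zero => exact hmt_inv A hA w j
  | succ l ih =>
    rcases j with j | j
    · exact ih (lh w) j
    · exact ih (rh w) j

theorem hmt_leaf [Fintype κ] (A : κ → κ → ℝ)
    (hA : ∀ i k, ∑ j, A j i * A j k = if i = k then (Fintype.card κ : ℝ) else 0) (z : κ → ℝ) :
    ∑ j : κ, (∑ i : κ, A j i * z i) ^ 2 = Fintype.card κ * ∑ i, z i ^ 2 := by
  have h1 : ∀ j : κ, (∑ i : κ, A j i * z i) ^ 2 =
      ∑ i : κ, ∑ k : κ, (A j i * A j k) * (z i * z k) := by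
    intro j
    rw [sq, Finset.sum_mul_sum]
    exact Finset.sum_congr rfl fun i _ => Finset.sum_congr rfl fun k _ => by ring
  rw [Finset.sum_congr rfl fun j _ => h1 j, Finset.sum_comm]
  have h2 : ∀ i : κ, ∑ j : κ, ∑ k : κ, (A j i * A j k) * (z i * z k) =
      Fintype.card κ * z i ^ 2 := by
    intro i
    rw [Finset.sum_comm]
    have h3 : ∀ k : κ, ∑ j : κ, (A j i * A j k) * (z i * z k) =
        if i = k then (Fintype.card κ : ℝ) * (z i * z k) else 0 := by
      intro k
      rw [← Finset.sum_mul, hA i k]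
      split_ifs <;> simp
    rw [Finset.sum_congr rfl fun k _ => h3 k]
    simp [sq]
  rw [Finset.sum_congr rfl fun i _ => h2 i, Finset.mul_sum]

/-- HMT -/
theorem hm_norm [Fintype κ] (A : κ → κ → ℝ) (hA : IsH A) (l : ℕ) (z : Om κ l → ℝ) :
    ∑ i, hm A l z i ^ 2 = Fintype.card κ * ∑ i, z i ^ 2 := by
  induction l with
  | zero => exact hmt_leaf A (hmt_cols A hA) z
  | succ l ih =>
    rw [sum_Om, sum_Om, mul_add]
    exact congrArg₂ (· + ·) (ih (lh z)) (ih (rh z))

/-- HMT -/
theorem ht_norm [Fintype κ] (A : κ → κ → ℝ) (hA : IsH A) (l : ℕ) (z : Om κ l → ℝ) :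
    ∑ i, ht A l z i ^ 2 = Fintype.card κ * ∑ i, z i ^ 2 := by
  induction l with
  | zero => exact hmt_leaf (fun i j => A j i) (fun i k => hA.2 i k) z
  | succ l ih =>
    rw [sum_Om, sum_Om, mul_add]
    exact congrArg₂ (· + ·) (ih (lh z)) (ih (rh z))

/-- HMT -/
theorem hm_sub [Fintype κ] (A : κ → κ → ℝ) (l : ℕ) (s t : ℝ) (y z : Om κ l → ℝ) (j : Om κ l) :
    hm A l (fun i => s * y i - t * z i) j = s * hm A l y j - t * hm A l z j := by
  induction l with
  | zero =>
    show ∑ i : κ, A j i * (s * y i - t * z i) =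
      s * (∑ i : κ, A j i * y i) - t * ∑ i : κ, A j i * z i
    rw [Finset.mul_sum, Finset.mul_sum, ← Finset.sum_sub_distrib]
    exact Finset.sum_congr rfl fun i _ => by ring
  | succ l ih =>
    rcases j with j | j
    · exact ih (lh y) (lh z) j
    · exact ih (rh y) (rh z) j

end Pool.Agent.HFL
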