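import Pool.Agent.HFL.Defs

set_option autoImplicit false

open scoped BigOperators Classical

namespace Pool.Agent.HFL

open Finset

variable {κ : Type} {Ω : Type}

private theorem MGF_conv (lam y : ℝ) (hy : |y| ≤ 4) :
    Real.exp (lam * y) ≤ Real.cosh (4 * lam) + y / 4 * Real.sinh (4 * lam) := by
  obtain ⟨h1, h2⟩ := abs_le.mp hy
  have h := convexOn_exp.2 (Set.mem_univ (-(4 * lam))) (Set.mem_univ (4 * lam))
    (show (0 : ℝ) ≤ (4 - y) / 8 by linarith) (show (0 : ℝ) ≤ (y + 4) / 8 by linarith) (by ring)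
  simp only [smul_eq_mul] at h
  rw [Real.cosh_eq, Real.sinh_eq]
  have e1 : (4 - y) / 8 * -(4 * lam) + (y + 4) / 8 * (4 * lam) = lam * y := by ring
  rw [e1] at h
  linarith

private theorem MGF_sum {m : ℕ} (Y : Fin m → ℝ) (h0 : ∑ p, Y p = 0)
    (hY : ∀ p, |Y p| ≤ 4) (lam : ℝ) :
    ∑ p, Real.exp (lam * Y p) ≤ (m : ℝ) * Real.exp (8 * lam ^ 2) := by
  have h1 : ∑ p, Real.exp (lam * Y p) ≤
      ∑ p, (Real.cosh (4 * lam) + Y p / 4 * Real.sinh (4 * lam)) :=
    Finset.sum_le_sum fun p _ => MGF_conv lam (Y p) (hY p)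
  have h2 : ∑ p, (Real.cosh (4 * lam) + Y p / 4 * Real.sinh (4 * lam)) =
      (m : ℝ) * Real.cosh (4 * lam) := by
    rw [Finset.sum_add_distrib, Finset.sum_const, ← Finset.sum_mul, ← Finset.sum_div, h0]
    simp
  have h3 : Real.cosh (4 * lam) ≤ Real.exp (8 * lam ^ 2) := by
    refine (Real.cosh_le_exp_half_sq _).trans (le_of_eq ?_)
    congr 1
    ring
  rw [h2] at h1
  exact h1.trans (mul_le_mul_of_nonneg_left h3 (Nat.cast_nonneg _))

private theorem MGF_abs {m : ℕ} (hm : 0 < m) (F : Fin m → ℝ) (hF : ∀ i, |F i| ≤ 1) :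
    |(∑ i, F i) / (m : ℝ)| ≤ 1 := by
  have hm' : (0 : ℝ) < m := by exact_mod_cast hm
  rw [abs_div, abs_of_pos hm', div_le_one hm']
  calc |∑ i, F i| ≤ ∑ i, |F i| := Finset.abs_sum_le_sum_abs _ _
    _ ≤ ∑ _i : Fin m, (1 : ℝ) := Finset.sum_le_sum fun i _ => hF i
    _ = m := by simp

/-- MGF -/
theorem perm_mgf_fin (n : ℕ) (f g : Fin (n + 1) → ℝ) (hf : ∀ i, |f i| ≤ 1) (hg : ∀ i, |g i| ≤ 1)
    (lam : ℝ) :
    ∑ τ : Equiv.Perm (Fin (n + 1)), Real.exp (lam * (∑ i, f i * g (τ i) -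
      (∑ i, f i) * (∑ i, g i) / (n + 1 : ℕ))) ≤
      Real.exp (8 * lam ^ 2 * (n + 1 : ℕ)) * ((n + 1).factorial : ℝ) := by
  induction n with
  | zero =>
    have h : ∀ τ : Equiv.Perm (Fin (0 + 1)), Real.exp (lam * (∑ i, f i * g (τ i) -
      (∑ i, f i) * (∑ i, g i) / (0 + 1 : ℕ))) = 1 := by
      intro τ
      have : τ 0 = 0 := Fin.ext (by omega)
      simp [this]
    rw [Finset.sum_congr rfl fun τ _ => h τ]
    have h2 : (1 : ℝ) ≤ Real.exp (8 * lam ^ 2 * (0 + 1 : ℕ)) := Real.one_le_exp (by positivity)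
    simpa using h2
  | succ n ih =>
    set G : ℝ := ∑ i, g i with hG
    set F' : ℝ := ∑ i : Fin (n + 1), f i.succ with hF'
    have hFs : ∑ i, f i = f 0 + F' := Fin.sum_univ_succ f
    clear_value G F'
    have hn1 : ((n + 1 : ℕ) : ℝ) ≠ 0 := by positivity
    have hn2 : ((n + 1 + 1 : ℕ) : ℝ) ≠ 0 := by positivity
    have hgp : ∀ p : Fin (n + 1 + 1),
        ∑ j : Fin (n + 1), g (Equiv.swap 0 p j.succ) = G - g p := by
      intro p
      have h1 := Equiv.sum_comp (Equiv.swap 0 p) g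
      rw [Fin.sum_univ_succ, Equiv.swap_apply_left] at h1
      rw [hG]
      linarith
    set Y : Fin (n + 1 + 1) → ℝ := fun p =>
      (f 0 - F' / (n + 1 : ℕ)) * (g p - G / (n + 1 + 1 : ℕ)) with hYd
    have hY0 : ∑ p, Y p = 0 := by
      simp only [hYd]
      rw [← Finset.mul_sum, Finset.sum_sub_distrib, Finset.sum_const, Finset.card_univ,
        Fintype.card_fin, nsmul_eq_mul, mul_div_cancel₀ _ hn2, ← hG, sub_self, mul_zero]
    have hY4 : ∀ p, |Y p| ≤ 4 := by
      intro p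
      have h1 : |F' / (n + 1 : ℕ)| ≤ 1 := by
        rw [hF']
        exact MGF_abs (Nat.succ_pos n) (fun i => f i.succ) (fun i => hf _)
      have h2 : |G / (n + 1 + 1 : ℕ)| ≤ 1 := by
        rw [hG]
        exact MGF_abs (Nat.succ_pos (n + 1)) g hg
      have h3 : |f 0 - F' / (n + 1 : ℕ)| ≤ 2 := by
        refine (abs_sub _ _).trans ?_
        have := hf 0
        linarith
      have h4 : |g p - G / (n + 1 + 1 : ℕ)| ≤ 2 := by
        refine (abs_sub _ _).trans ?_
        have := hg p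
        linarith
      simp only [hYd]
      rw [abs_mul]
      nlinarith [abs_nonneg (f 0 - F' / (n + 1 : ℕ)), abs_nonneg (g p - G / (n + 1 + 1 : ℕ))]
    have hmain : ∑ τ : Equiv.Perm (Fin (n + 1 + 1)), Real.exp (lam * (∑ i, f i * g (τ i) -
        (∑ i, f i) * G / (n + 1 + 1 : ℕ))) =
        ∑ p : Fin (n + 1 + 1), Real.exp (lam * Y p) *
          ∑ e : Equiv.Perm (Fin (n + 1)), Real.exp (lam * (∑ i, f i.succ *
            g (Equiv.swap 0 p (e i).succ) -
            F' * (∑ j : Fin (n + 1), g (Equiv.swap 0 p j.succ)) / (n + 1 : ℕ))) := by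
      rw [← Equiv.sum_comp Equiv.Perm.decomposeFin.symm, Fintype.sum_prod_type]
      refine Finset.sum_congr rfl fun p _ => ?_
      rw [Finset.mul_sum]
      refine Finset.sum_congr rfl fun e _ => ?_
      rw [← Real.exp_add]
      congr 1
      rw [Fin.sum_univ_succ, Equiv.Perm.decomposeFin_symm_apply_zero, hgp p, hFs]
      simp only [Equiv.Perm.decomposeFin_symm_apply_succ, hYd]
      push_cast
      have hn1' : (n : ℝ) + 1 ≠ 0 := by positivity
      have hn2' : (n : ℝ) + 1 + 1 ≠ 0 := by positivity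
      field_simp
      ring
    rw [hmain]
    have hstep : ∀ p : Fin (n + 1 + 1), ∑ e : Equiv.Perm (Fin (n + 1)),
        Real.exp (lam * (∑ i, f i.succ * g (Equiv.swap 0 p (e i).succ) -
            F' * (∑ j : Fin (n + 1), g (Equiv.swap 0 p j.succ)) / (n + 1 : ℕ))) ≤
        Real.exp (8 * lam ^ 2 * (n + 1 : ℕ)) * ((n + 1).factorial : ℝ) := by
      intro p
      rw [hF']
      exact ih (fun i => f i.succ) (fun j => g (Equiv.swap 0 p j.succ)) (fun i => hf _)
        (fun i => hg _)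
    calc ∑ p : Fin (n + 1 + 1), Real.exp (lam * Y p) *
          ∑ e : Equiv.Perm (Fin (n + 1)), Real.exp (lam * (∑ i, f i.succ *
            g (Equiv.swap 0 p (e i).succ) -
            F' * (∑ j : Fin (n + 1), g (Equiv.swap 0 p j.succ)) / (n + 1 : ℕ)))
        ≤ ∑ p : Fin (n + 1 + 1), Real.exp (lam * Y p) *
          (Real.exp (8 * lam ^ 2 * (n + 1 : ℕ)) * ((n + 1).factorial : ℝ)) :=
          Finset.sum_le_sum fun p _ =>
            mul_le_mul_of_nonneg_left (hstep p) (Real.exp_pos _).le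
      _ = (∑ p : Fin (n + 1 + 1), Real.exp (lam * Y p)) *
          (Real.exp (8 * lam ^ 2 * (n + 1 : ℕ)) * ((n + 1).factorial : ℝ)) :=
          (Finset.sum_mul _ _ _).symm
      _ ≤ (((n + 1 + 1 : ℕ) : ℝ) * Real.exp (8 * lam ^ 2)) *
          (Real.exp (8 * lam ^ 2 * (n + 1 : ℕ)) * ((n + 1).factorial : ℝ)) :=
          mul_le_mul_of_nonneg_right (MGF_sum Y hY0 hY4 lam)
            (by positivity)
      _ = Real.exp (8 * lam ^ 2 * (n + 1 + 1 : ℕ)) * ((n + 1 + 1).factorial : ℝ) := by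
          have h1 : Real.exp (8 * lam ^ 2 * ((n + 1 + 1 : ℕ) : ℝ)) =
              Real.exp (8 * lam ^ 2) * Real.exp (8 * lam ^ 2 * ((n + 1 : ℕ) : ℝ)) := by
            rw [← Real.exp_add]
            congr 1
            push_cast
            ring
          rw [h1, Nat.factorial_succ (n + 1)]
          push_cast
          ring

end Pool.Agent.HFL
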