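import Pool.Agent.HFL.CHF

set_option autoImplicit false

open scoped BigOperators Classical

namespace Pool.Agent.HFL

open Finset

variable {κ : Type} {Ω : Type}

private theorem NOA_two (p v x z : ℂ) (e : ℝ) (hp : ‖p‖ ≤ 1) (hz : ‖z‖ ≤ 1)
    (h1 : ‖p - x‖ ≤ e) (h2 : ‖v - z‖ ≤ e) : ‖p * v - x * z‖ ≤ 2 * e := by
  have e1 : p * v - x * z = p * (v - z) + (p - x) * z := by ring
  have e0 : 0 ≤ e := le_trans (norm_nonneg _) h1
  calc ‖p * v - x * z‖ = ‖p * (v - z) + (p - x) * z‖ := by rw [e1]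
    _ ≤ ‖p * (v - z)‖ + ‖(p - x) * z‖ := norm_add_le _ _
    _ = ‖p‖ * ‖v - z‖ + ‖p - x‖ * ‖z‖ := by rw [norm_mul, norm_mul]
    _ ≤ 1 * e + e * 1 := by
        apply add_le_add
        · exact mul_le_mul hp h2 (norm_nonneg _) zero_le_one
        · exact mul_le_mul h1 hz (norm_nonneg _) e0
    _ = 2 * e := by ring

private theorem NOA_norm (A w : ℂ) (c e : ℝ) (hw : ‖w‖ = c) (h : ‖A - w‖ ≤ e) :
    |‖A‖ - c| ≤ e := by
  rw [← hw]
  exact (abs_norm_sub_norm_le A w).trans h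

private theorem NOA_sq [Fintype Ω] (u w f : Ω → ℝ) (s : ℝ) (c : ℝ)
    (hf : ∀ i, f i ^ 2 ≤ 2 * u i ^ 2 + 2 * w i ^ 2)
    (c1 : ∑ i, u i ^ 2 ≤ s ^ 2 * c) (c2 : ∑ i, w i ^ 2 ≤ s ^ 2 * c) :
    ∑ i, f i ^ 2 ≤ (2 * s) ^ 2 * c := by
  calc ∑ i, f i ^ 2 ≤ ∑ i, (2 * u i ^ 2 + 2 * w i ^ 2) := sum_le_sum fun i _ => hf i
    _ = 2 * ∑ i, u i ^ 2 + 2 * ∑ i, w i ^ 2 := by rw [sum_add_distrib, mul_sum, mul_sum]
    _ ≤ (2 * s) ^ 2 * c := by linarith

/-- NOA -/
theorem node_double [Fintype Ω] [Nonempty Ω] (q m : ℕ) (hm : m < q) (a b : Ω → ℝ)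
    (ρ τ : Equiv.Perm Ω) (Y V : Ω → ℝ) (h1 : Ty q (1 / 2000) ρ a b)
    (h2 : Ty q (1 / 2000) τ Y V)
    (c1 : ∑ i, (a i + b (ρ i) - Y i) ^ 2 ≤ (1 / 200000 : ℝ) ^ 2 * Fintype.card Ω)
    (c2 : ∑ i, (a i - b (ρ i) - V (τ i)) ^ 2 ≤ (1 / 200000 : ℝ) ^ 2 * Fintype.card Ω) :
    |‖chf q (2 * m) a‖ * ‖chf q (2 * m) b‖ - (‖chf q m a‖ * ‖chf q m b‖) ^ 4| ≤ 1 / 200 := by
  have hpi : Real.pi ≤ 3.1416 := Real.pi_lt_d4.le
  obtain ⟨p1, p2⟩ := h1 m hm
  obtain ⟨q1, q2⟩ := h2 m hm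
  -- the children
  have y1 : ‖chf q m (fun i => a i + b (ρ i)) - chf q m Y‖ ≤ 2 * Real.pi * (1 / 200000) :=
    chf_sub q m hm (fun i => a i + b (ρ i)) Y (1 / 200000) (by norm_num) c1
  have v1 : ‖chf q m (fun i => a i - b (ρ i)) - chf q m (fun i => V (τ i))‖ ≤
      2 * Real.pi * (1 / 200000) :=
    chf_sub q m hm (fun i => a i - b (ρ i)) (fun i => V (τ i)) (1 / 200000) (by norm_num) c2
  rw [chf_perm] at v1
  have yy : ‖chf q m Y - chf q m a * chf q m b‖ ≤ 1 / 2000 + 2 * Real.pi * (1 / 200000) := by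
    have e : chf q m Y - chf q m a * chf q m b =
        (chf q m (fun i => a i + b (ρ i)) - chf q m a * chf q m b) -
        (chf q m (fun i => a i + b (ρ i)) - chf q m Y) := by ring
    rw [e]
    exact (norm_sub_le _ _).trans (add_le_add p1 y1)
  have vv : ‖chf q m V - chf q m a * (starRingEnd ℂ) (chf q m b)‖ ≤
      1 / 2000 + 2 * Real.pi * (1 / 200000) := by
    have e : chf q m V - chf q m a * (starRingEnd ℂ) (chf q m b) =
        (chf q m (fun i => a i - b (ρ i)) - chf q m a * (starRingEnd ℂ) (chf q m b)) -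
        (chf q m (fun i => a i - b (ρ i)) - chf q m V) := by ring
    rw [e]
    exact (norm_sub_le _ _).trans (add_le_add p2 v1)
  -- doubling
  have a1 : ‖chf q m (fun i => 2 * a i) - chf q m (fun i => Y i + V (τ i))‖ ≤
      2 * Real.pi * (2 * (1 / 200000)) := by
    apply chf_sub q m hm _ _ (2 * (1 / 200000)) (by norm_num)
    refine NOA_sq (fun i => a i + b (ρ i) - Y i) (fun i => a i - b (ρ i) - V (τ i))
      (fun i => 2 * a i - (Y i + V (τ i))) _ _ (fun i => ?_) c1 c2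
    show (2 * a i - (Y i + V (τ i))) ^ 2 ≤
      2 * (a i + b (ρ i) - Y i) ^ 2 + 2 * (a i - b (ρ i) - V (τ i)) ^ 2
    nlinarith [sq_nonneg ((a i + b (ρ i) - Y i) - (a i - b (ρ i) - V (τ i)))]
  have b1 : ‖chf q m (fun i => 2 * b (ρ i)) - chf q m (fun i => Y i - V (τ i))‖ ≤
      2 * Real.pi * (2 * (1 / 200000)) := by
    apply chf_sub q m hm _ _ (2 * (1 / 200000)) (by norm_num)
    refine NOA_sq (fun i => a i + b (ρ i) - Y i) (fun i => a i - b (ρ i) - V (τ i))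
      (fun i => 2 * b (ρ i) - (Y i - V (τ i))) _ _ (fun i => ?_) c1 c2
    show (2 * b (ρ i) - (Y i - V (τ i))) ^ 2 ≤
      2 * (a i + b (ρ i) - Y i) ^ 2 + 2 * (a i - b (ρ i) - V (τ i)) ^ 2
    nlinarith [sq_nonneg ((a i + b (ρ i) - Y i) + (a i - b (ρ i) - V (τ i)))]
  rw [chf_double] at a1
  have b2 : chf q m (fun i => 2 * b (ρ i)) = chf q (2 * m) b := by
    rw [← chf_double]
    exact chf_perm q m (fun i => 2 * b i) ρ
  rw [b2] at b1
  -- norms
  have na := norm_chf_le q m a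
  have nb := norm_chf_le q m b
  have nY := norm_chf_le q m Y
  have nV := norm_chf_le q m V
  have nB := norm_chf_le q (2 * m) b
  have nA := norm_chf_le q (2 * m) a
  have ha0 := norm_nonneg (chf q m a)
  have hb0 := norm_nonneg (chf q m b)
  have nab : ‖chf q m a‖ * ‖chf q m b‖ ≤ 1 := mul_le_one₀ na hb0 nb
  have nz : ‖chf q m a * (starRingEnd ℂ) (chf q m b)‖ ≤ 1 := by
    rw [norm_mul, RCLike.norm_conj]; exact nab
  have nz2 : ‖(starRingEnd ℂ) (chf q m a * (starRingEnd ℂ) (chf q m b))‖ ≤ 1 := by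
    rw [RCLike.norm_conj]; exact nz
  have vv2 : ‖(starRingEnd ℂ) (chf q m V) -
      (starRingEnd ℂ) (chf q m a * (starRingEnd ℂ) (chf q m b))‖ ≤
      1 / 2000 + 2 * Real.pi * (1 / 200000) := by
    rw [← map_sub, RCLike.norm_conj]; exact vv
  have t1 := NOA_two _ _ _ _ _ nY nz yy vv
  have t2 := NOA_two _ _ _ _ _ nY nz2 yy vv2
  set C : ℝ := ‖chf q m a‖ * ‖chf q m b‖ with hC
  have hC0 : 0 ≤ C := mul_nonneg ha0 hb0
  have w1 : ‖chf q m a * chf q m b * (chf q m a * (starRingEnd ℂ) (chf q m b))‖ = C ^ 2 := by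
    rw [norm_mul, norm_mul, norm_mul, RCLike.norm_conj, hC]; ring
  have w2 : ‖chf q m a * chf q m b *
      (starRingEnd ℂ) (chf q m a * (starRingEnd ℂ) (chf q m b))‖ = C ^ 2 := by
    rw [norm_mul, RCLike.norm_conj, norm_mul, norm_mul, RCLike.norm_conj, hC]; ring
  have g1 : ‖chf q (2 * m) a -
      chf q m a * chf q m b * (chf q m a * (starRingEnd ℂ) (chf q m b))‖ ≤ 1 / 600 := by
    have e : chf q (2 * m) a -
        chf q m a * chf q m b * (chf q m a * (starRingEnd ℂ) (chf q m b)) =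
        (chf q (2 * m) a - chf q m (fun i => Y i + V (τ i))) +
        ((chf q m (fun i => Y i + V (τ i)) - chf q m Y * chf q m V) +
        (chf q m Y * chf q m V -
          chf q m a * chf q m b * (chf q m a * (starRingEnd ℂ) (chf q m b)))) := by ring
    rw [e]
    refine (norm_add_le _ _).trans ?_
    have := norm_add_le (chf q m (fun i => Y i + V (τ i)) - chf q m Y * chf q m V)
      (chf q m Y * chf q m V -
          chf q m a * chf q m b * (chf q m a * (starRingEnd ℂ) (chf q m b)))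
    linarith
  have g2 : ‖chf q (2 * m) b - chf q m a * chf q m b *
      (starRingEnd ℂ) (chf q m a * (starRingEnd ℂ) (chf q m b))‖ ≤ 1 / 600 := by
    have e : chf q (2 * m) b - chf q m a * chf q m b *
        (starRingEnd ℂ) (chf q m a * (starRingEnd ℂ) (chf q m b)) =
        (chf q (2 * m) b - chf q m (fun i => Y i - V (τ i))) +
        ((chf q m (fun i => Y i - V (τ i)) - chf q m Y * (starRingEnd ℂ) (chf q m V)) +
        (chf q m Y * (starRingEnd ℂ) (chf q m V) -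
          chf q m a * chf q m b *
            (starRingEnd ℂ) (chf q m a * (starRingEnd ℂ) (chf q m b)))) := by ring
    rw [e]
    refine (norm_add_le _ _).trans ?_
    have := norm_add_le (chf q m (fun i => Y i - V (τ i)) - chf q m Y * (starRingEnd ℂ) (chf q m V))
      (chf q m Y * (starRingEnd ℂ) (chf q m V) -
          chf q m a * chf q m b * (starRingEnd ℂ) (chf q m a * (starRingEnd ℂ) (chf q m b)))
    linarith
  have k1 := NOA_norm _ _ _ _ w1 g1
  have k2 := NOA_norm _ _ _ _ w2 g2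
  have hC1 : C ^ 2 ≤ 1 := pow_le_one₀ hC0 nab
  have e : ‖chf q (2 * m) a‖ * ‖chf q (2 * m) b‖ - C ^ 4 =
      (‖chf q (2 * m) a‖ - C ^ 2) * ‖chf q (2 * m) b‖ +
      C ^ 2 * (‖chf q (2 * m) b‖ - C ^ 2) := by ring
  rw [e]
  refine (abs_add_le _ _).trans ?_
  rw [abs_mul, abs_mul, abs_of_nonneg (norm_nonneg (chf q (2 * m) b)),
    abs_of_nonneg (pow_nonneg hC0 2)]
  have r1 : |‖chf q (2 * m) a‖ - C ^ 2| * ‖chf q (2 * m) b‖ ≤ 1 / 600 * 1 :=
    mul_le_mul k1 nB (norm_nonneg _) (by norm_num)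
  have r2 : C ^ 2 * |‖chf q (2 * m) b‖ - C ^ 2| ≤ 1 * (1 / 600) :=
    mul_le_mul hC1 k2 (abs_nonneg _) zero_le_one
  linarith

end Pool.Agent.HFL
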