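import Pool.Agent.HFL.Defs

set_option autoImplicit false

open scoped BigOperators Classical

namespace Pool.Agent.HFL

open Finset

variable {κ : Type} {Ω : Type}

/-- OM -/
theorem sum_Om [Fintype κ] {l : ℕ} {E : Type} [AddCommMonoid E] (f : Om κ (l + 1) → E) :
    ∑ i, f i = ∑ i : Om κ l, f (Sum.inl i) + ∑ i : Om κ l, f (Sum.inr i) := by
  exact Fintype.sum_sum_type (α₁ := Om κ l) (α₂ := Om κ l) f

/-- OM -/
theorem card_Om_succ (κ : Type) [Fintype κ] (l : ℕ) :
    Fintype.card (Om κ (l + 1)) = 2 * Fintype.card (Om κ l) := by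
  have h : Fintype.card (Om κ (l + 1)) = Fintype.card (Om κ l ⊕ Om κ l) := rfl
  rw [h, Fintype.card_sum, two_mul]

/-- OM -/
theorem card_Om (κ : Type) [Fintype κ] (l : ℕ) :
    Fintype.card (Om κ l) = 2 ^ l * Fintype.card κ := by
  induction l with
  | zero =>
    have h : Fintype.card (Om κ 0) = Fintype.card κ := rfl
    rw [h]; simp
  | succ l ih => rw [card_Om_succ, ih, pow_succ]; ring

/-- OM -/
theorem sum_Dt [Fintype κ] {l : ℕ} {E : Type} [AddCommMonoid E] (f : Dt κ (l + 1) → E) :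
    ∑ D, f D = ∑ ρ : Equiv.Perm (Om κ l), ∑ σ : Equiv.Perm (Om κ l), ∑ D1 : Dt κ l,
      ∑ D2 : Dt κ l, f ((ρ, σ), (D1, D2)) := by
  have h : ∑ D, f D = ∑ D : (Equiv.Perm (Om κ l) × Equiv.Perm (Om κ l)) × (Dt κ l × Dt κ l),
      f D := rfl
  rw [h, Fintype.sum_prod_type, Fintype.sum_prod_type]
  refine Finset.sum_congr rfl fun ρ _ => Finset.sum_congr rfl fun σ _ => ?_
  rw [Fintype.sum_prod_type]

/-- OM -/
theorem card_Dt_succ (κ : Type) [Fintype κ] (l : ℕ) :
    Fintype.card (Dt κ (l + 1)) = Fintype.card (Equiv.Perm (Om κ l)) *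
      Fintype.card (Equiv.Perm (Om κ l)) * (Fintype.card (Dt κ l) * Fintype.card (Dt κ l)) := by
  have h : Fintype.card (Dt κ (l + 1)) =
      Fintype.card ((Equiv.Perm (Om κ l) × Equiv.Perm (Om κ l)) × (Dt κ l × Dt κ l)) := rfl
  rw [h, Fintype.card_prod, Fintype.card_prod, Fintype.card_prod]

end Pool.Agent.HFL
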