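import Pool.Agent.HFL.Defs

set_option autoImplicit false

open scoped BigOperators Classical

namespace Pool.Agent.HFL

open Finset

variable {κ : Type} {Ω : Type}

/-- PRM -/
theorem perm_sets [Fintype Ω] (S T : Finset Ω) :
    (univ.filter fun σ : Equiv.Perm Ω => ∀ i, i ∈ S ↔ σ.symm i ∈ T).card ≤
      T.card.factorial * (Fintype.card Ω - T.card).factorial := by
  by_cases hne : (univ.filter fun σ : Equiv.Perm Ω => ∀ i, i ∈ S ↔ σ.symm i ∈ T).Nonempty
  swap
  · rw [not_nonempty_iff_eq_empty] at hne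
    rw [hne, card_empty]
    exact Nat.zero_le _
  obtain ⟨σ0, h0⟩ := hne
  rw [mem_filter] at h0
  have h0' := h0.2
  -- the permutation `σ0⁻¹ σ` preserves `T`
  have key : ∀ σ : {σ : Equiv.Perm Ω // ∀ i, i ∈ S ↔ σ.symm i ∈ T}, ∀ x : Ω,
      (σ.1.trans σ0.symm) x ∈ T ↔ x ∈ T := by
    intro σ x
    rw [Equiv.trans_apply, ← h0', σ.2 (σ.1 x), Equiv.symm_apply_apply]
  have key' : ∀ σ : {σ : Equiv.Perm Ω // ∀ i, i ∈ S ↔ σ.symm i ∈ T}, ∀ x : Ω,
      (σ.1.trans σ0.symm) x ∉ T ↔ x ∉ T := fun σ x => not_congr (key σ x)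
  let F : {σ : Equiv.Perm Ω // ∀ i, i ∈ S ↔ σ.symm i ∈ T} →
      Equiv.Perm {x : Ω // x ∈ T} × Equiv.Perm {x : Ω // x ∉ T} := fun σ =>
    (Equiv.Perm.subtypePerm (σ.1.trans σ0.symm) (key σ),
      Equiv.Perm.subtypePerm (σ.1.trans σ0.symm) (key' σ))
  have hF : Function.Injective F := by
    intro σ τ h
    apply Subtype.ext
    apply Equiv.ext
    intro x
    have h1 := congrArg Prod.fst h
    have h2 := congrArg Prod.snd h
    have h3 : (σ.1.trans σ0.symm) x = (τ.1.trans σ0.symm) x := by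
      by_cases hx : x ∈ T
      · have h4 := congrArg (fun e : Equiv.Perm {x : Ω // x ∈ T} => (e ⟨x, hx⟩).1) h1
        exact h4
      · have h4 := congrArg (fun e : Equiv.Perm {x : Ω // x ∉ T} => (e ⟨x, hx⟩).1) h2
        exact h4
    exact σ0.symm.injective h3
  have h1 := Fintype.card_le_of_injective F hF
  rw [Fintype.card_prod, Fintype.card_perm, Fintype.card_perm, Fintype.card_subtype] at h1
  have c1 : Fintype.card {x : Ω // x ∈ T} = T.card := Fintype.card_coe T
  have c2 : Fintype.card {x : Ω // x ∉ T} = Fintype.card Ω - T.card := by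
    rw [Fintype.card_subtype_compl, c1]
  rw [c1, c2] at h1
  exact h1

end Pool.Agent.HFL
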