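import Pool.Agent.HFL.TYP
import Pool.Agent.HFL.OM

set_option autoImplicit false

open scoped BigOperators Classical

namespace Pool.Agent.HFL

open Finset

variable {κ : Type} {Ω : Type}

/-- PT -/
theorem exists_hP (q : ℕ) (δ : ℝ) (hδ : 0 < δ) : ∃ N0 : ℕ, ∀ (κ : Type) [Fintype κ] [Nonempty κ],
    N0 ≤ Fintype.card κ → ∀ (k : ℕ) (a b : Om κ k → ℝ),
      ∑ τ : Equiv.Perm (Om κ k), (if Ty q δ τ a b then (1 : ℝ) else
        Real.exp (2 * (δ ^ 2 / 2048) * Fintype.card (Om κ k))) ≤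
        2 * Fintype.card (Equiv.Perm (Om κ k)) := by
  refine ⟨⌈8 * (q : ℝ) * 1024 / δ ^ 2⌉₊, ?_⟩
  intro κ _ _ hN k a b
  have hδ2 : 0 < δ ^ 2 := by positivity
  have hcard : (Fintype.card κ : ℝ) ≤ (Fintype.card (Om κ k) : ℝ) := by
    rw [card_Om]
    push_cast
    have h1 : (1 : ℝ) ≤ 2 ^ k := one_le_pow₀ (by norm_num)
    have h2 : (0 : ℝ) ≤ Fintype.card κ := by positivity
    nlinarith
  have hN1 : 8 * (q : ℝ) * 1024 / δ ^ 2 ≤ (Fintype.card (Om κ k) : ℝ) := by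
    refine le_trans (Nat.le_ceil _) (le_trans ?_ hcard)
    exact_mod_cast hN
  have hty := ty_count q δ hδ a b
  generalize hNN : (Fintype.card (Om κ k) : ℝ) = N at *
  have hy : 8 * (q : ℝ) ≤ δ ^ 2 * N / 1024 := by
    rw [div_le_iff₀ hδ2] at hN1
    linarith
  have hexp : 8 * (q : ℝ) * Real.exp (-(δ ^ 2 * N / 1024)) ≤ 1 := by
    rw [Real.exp_neg, ← div_eq_mul_inv, div_le_one (Real.exp_pos _)]
    have := Real.add_one_le_exp (δ ^ 2 * N / 1024)
    linarith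
  have hsum : ∑ τ : Equiv.Perm (Om κ k), (if Ty q δ τ a b then (1 : ℝ) else
        Real.exp (2 * (δ ^ 2 / 2048) * N)) ≤
      (Fintype.card (Equiv.Perm (Om κ k)) : ℝ) + Real.exp (2 * (δ ^ 2 / 2048) * N) *
        ((univ.filter fun τ : Equiv.Perm (Om κ k) => ¬ Ty q δ τ a b).card : ℝ) := by
    rw [Finset.card_filter]
    push_cast
    rw [Finset.mul_sum, ← Finset.card_univ, Finset.card_eq_sum_ones, Nat.cast_sum,
      ← Finset.sum_add_distrib]
    refine Finset.sum_le_sum fun τ _ => ?_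
    by_cases h : Ty q δ τ a b
    · simp [h]
    · simp [h]
  refine hsum.trans ?_
  have hC : (0 : ℝ) ≤ Fintype.card (Equiv.Perm (Om κ k)) := by positivity
  have hE : 0 < Real.exp (2 * (δ ^ 2 / 2048) * N) := Real.exp_pos _
  have h1 := mul_le_mul_of_nonneg_left hty hE.le
  have h2 : Real.exp (2 * (δ ^ 2 / 2048) * N) * (8 * q * Real.exp (-(δ ^ 2 * N / 512)) *
      Fintype.card (Equiv.Perm (Om κ k))) =
      (8 * (q : ℝ) * Real.exp (-(δ ^ 2 * N / 1024))) * Fintype.card (Equiv.Perm (Om κ k)) := by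
    have h3 : Real.exp (-(δ ^ 2 * N / 1024)) =
        Real.exp (2 * (δ ^ 2 / 2048) * N) * Real.exp (-(δ ^ 2 * N / 512)) := by
      rw [← Real.exp_add]
      congr 1
      ring
    rw [h3]
    ring
  have h4 := mul_le_mul_of_nonneg_right hexp hC
  rw [h2] at h1
  linarith

end Pool.Agent.HFL
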