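import Pool.Agent.HFL.OM

set_option autoImplicit false

open scoped BigOperators Classical

namespace Pool.Agent.HFL

open Finset

variable {κ : Type} {Ω : Type}

/-- SFB -/
theorem sf_nonneg [Fintype κ] (r : ℝ) (l d : ℕ) (z : Om κ l → ℝ) : 0 ≤ sf r l d z := by
  induction l generalizing d with
  | zero => exact le_rfl
  | succ l ih =>
    cases d with
    | zero =>
      show 0 ≤ (if nc r (lh z) ∧ nc r (rh z) then (0 : ℝ) else 1)
      split_ifs <;> norm_num
    | succ d =>
      show 0 ≤ (sf r l d (lh z) + sf r l d (rh z)) / 2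
      have h1 := ih d (lh z)
      have h2 := ih d (rh z)
      linarith

private theorem sfb_card [Fintype κ] {l : ℕ} (p : Om κ (l + 1) → Prop) [DecidablePred p] :
    (univ.filter p).card = (univ.filter fun i : Om κ l => p (Sum.inl i)).card +
      (univ.filter fun i : Om κ l => p (Sum.inr i)).card := by
  rw [Finset.card_filter, Finset.card_filter, Finset.card_filter, sum_Om]

private theorem sfb_glue0 (l : ℕ) (c1 c2 : ℝ) : ∃ c : Bk 0 → ℝ,
    (∀ i : Om κ l, c (blk (l + 1) 0 (Sum.inl i)) = c1) ∧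
      ∀ i : Om κ l, c (blk (l + 1) 0 (Sum.inr i)) = c2 := by
  refine ⟨fun b => Bool.rec (motive := fun _ => ℝ) c1 c2 b, fun i => rfl, fun i => rfl⟩

private theorem sfb_glue (l d : ℕ) (c1 c2 : Bk d → ℝ) : ∃ c : Bk (d + 1) → ℝ,
    (∀ i : Om κ l, c (blk (l + 1) (d + 1) (Sum.inl i)) = c1 (blk l d i)) ∧
      ∀ i : Om κ l, c (blk (l + 1) (d + 1) (Sum.inr i)) = c2 (blk l d i) := by
  refine ⟨fun b => Sum.elim c1 c2 b, fun i => rfl, fun i => rfl⟩

/-- SFB -/
theorem sf_blk [Fintype κ] (r : ℝ) (hr : 0 ≤ r) (l d : ℕ) (hd : d < l) (z : Om κ l → ℝ) :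
    ∃ c : Bk d → ℝ, ((univ.filter fun i => z i ≠ c (blk l d i)).card : ℝ) ≤
      (sf r l d z + r) * Fintype.card (Om κ l) := by
  induction l generalizing d with
  | zero => omega
  | succ l ih =>
    have hM : (Fintype.card (Om κ (l + 1)) : ℝ) = 2 * Fintype.card (Om κ l) := by
      rw [card_Om_succ]; push_cast; ring
    cases d with
    | zero =>
      by_cases h : nc r (lh z) ∧ nc r (rh z)
      · have hs : sf r (l + 1) 0 z = 0 := by
          show (if nc r (lh z) ∧ nc r (rh z) then (0 : ℝ) else 1) = 0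
          rw [if_pos h]
        obtain ⟨⟨c1, h1⟩, ⟨c2, h2⟩⟩ := h
        obtain ⟨c, hc1, hc2⟩ := sfb_glue0 (κ := κ) l c1 c2
        refine ⟨c, ?_⟩
        rw [sfb_card (fun i => z i ≠ c (blk (l + 1) 0 i)), hs, hM]
        simp only [hc1, hc2]
        have e1 : (univ.filter fun i : Om κ l => z (Sum.inl i) ≠ c1) =
            univ.filter fun i : Om κ l => lh z i ≠ c1 := rfl
        have e2 : (univ.filter fun i : Om κ l => z (Sum.inr i) ≠ c2) =
            univ.filter fun i : Om κ l => rh z i ≠ c2 := rfl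
        rw [e1, e2]
        push_cast
        linarith
      · have hs : sf r (l + 1) 0 z = 1 := by
          show (if nc r (lh z) ∧ nc r (rh z) then (0 : ℝ) else 1) = 1
          rw [if_neg h]
        refine ⟨fun _ => 0, ?_⟩
        rw [hs]
        have h1 : ((univ.filter fun i : Om κ (l + 1) => z i ≠ 0).card : ℝ) ≤
            Fintype.card (Om κ (l + 1)) := by
          exact_mod_cast Finset.card_le_univ _
        have h2 : (0 : ℝ) ≤ Fintype.card (Om κ (l + 1)) := Nat.cast_nonneg _
        nlinarith [mul_nonneg hr h2]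
    | succ d =>
      obtain ⟨c1, h1⟩ := ih d (by omega) (lh z)
      obtain ⟨c2, h2⟩ := ih d (by omega) (rh z)
      have hs : sf r (l + 1) (d + 1) z = (sf r l d (lh z) + sf r l d (rh z)) / 2 := rfl
      obtain ⟨c, hc1, hc2⟩ := sfb_glue (κ := κ) l d c1 c2
      refine ⟨c, ?_⟩
      rw [sfb_card (fun i => z i ≠ c (blk (l + 1) (d + 1) i)), hs, hM]
      simp only [hc1, hc2]
      have e1 : (univ.filter fun i : Om κ l => z (Sum.inl i) ≠ c1 (blk l d i)) =
          univ.filter fun i : Om κ l => lh z i ≠ c1 (blk l d i) := rfl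
      have e2 : (univ.filter fun i : Om κ l => z (Sum.inr i) ≠ c2 (blk l d i)) =
          univ.filter fun i : Om κ l => rh z i ≠ c2 (blk l d i) := rfl
      rw [e1, e2]
      push_cast
      nlinarith [h1, h2]

end Pool.Agent.HFL
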