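import Pool.Agent.HFL.VRT
import Pool.Agent.H37.Cube.Orders

set_option autoImplicit false

open scoped BigOperators Classical

namespace Pool.Agent.HFL

open Finset

variable {κ : Type} {Ω : Type}

/-- SYS -/
theorem sys_of_isH [Fintype Ω] [DecidableEq Ω] [Nonempty Ω] (H : Ω → Ω → ℝ) (hH : IsH H) (c : ℝ)
    (h : ∀ x : Ω → ℝ, Sg x → ∑ j, |∑ i, H j i * x i| ≤ c) :
    Pool.Agent.H37.Cube.Sys Ω (c / Fintype.card Ω) := by
  obtain ⟨h1, h2⟩ := hH
  have hn : (0 : ℝ) < Fintype.card Ω := by exact_mod_cast Fintype.card_pos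
  have habs : ∀ j i, |H j i| = 1 := by
    intro j i
    rcases h1 j i with h | h <;> rw [h] <;> simp
  have hsq : ∀ j i, H j i * H j i = 1 := by
    intro j i
    rcases h1 j i with h | h <;> rw [h] <;> norm_num
  let o : Ω := Classical.arbitrary Ω
  refine ⟨fun j i => H j o * H j i, fun j i => H j o * H j i / Fintype.card Ω, o, ?_, ?_, ?_, ?_, ?_⟩
  · intro j i
    simp only
    rw [abs_mul, habs, habs, one_mul]
  · intro j
    exact hsq j o
  · intro j k
    simp only
    have e : ∀ i, H j o * H j i / (Fintype.card Ω : ℝ) * (H k o * H k i) =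
        H j o * H k o / Fintype.card Ω * (H j i * H k i) := fun i => by ring
    rw [Finset.sum_congr rfl fun i _ => e i, ← Finset.mul_sum, h2 j k]
    by_cases hjk : j = k
    · subst hjk
      rw [if_pos rfl, if_pos rfl, hsq, one_div_mul_cancel hn.ne']
    · rw [if_neg hjk, if_neg hjk, mul_zero]
  · simp only
    have e : ∀ j, |H j o * H j o / (Fintype.card Ω : ℝ)| = 1 / Fintype.card Ω := by
      intro j
      rw [hsq, abs_of_pos (by positivity)]
    rw [Finset.sum_congr rfl fun j _ => e j, Finset.sum_const, Finset.card_univ, nsmul_eq_mul,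
      mul_one_div_cancel hn.ne']
  · intro x hx
    simp only
    have e : ∀ j, |∑ i, H j o * H j i / (Fintype.card Ω : ℝ) * x i| =
        |∑ i, H j i * x i| / Fintype.card Ω := by
      intro j
      have e1 : ∑ i, H j o * H j i / (Fintype.card Ω : ℝ) * x i =
          H j o * ((∑ i, H j i * x i) / Fintype.card Ω) := by
        rw [Finset.sum_div, Finset.mul_sum]
        apply Finset.sum_congr rfl
        intro i _
        ring
      rw [e1, abs_mul, habs, one_mul, abs_div, abs_of_pos hn]
    rw [Finset.sum_congr rfl fun j _ => e j, ← Finset.sum_div]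
    exact div_le_div_of_nonneg_right (vert H c h x hx) hn.le

end Pool.Agent.HFL
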