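import Pool.Agent.HFL.MGF

set_option autoImplicit false

open scoped BigOperators Classical

namespace Pool.Agent.HFL

open Finset

variable {κ : Type} {Ω : Type}

/-- TAIL -/
theorem perm_mgf [Fintype Ω] [Nonempty Ω] (f g : Ω → ℝ) (hf : ∀ i, |f i| ≤ 1)
    (hg : ∀ i, |g i| ≤ 1) (lam : ℝ) :
    ∑ τ : Equiv.Perm Ω, Real.exp (lam * (∑ i, f i * g (τ i) -
      (∑ i, f i) * (∑ i, g i) / Fintype.card Ω)) ≤
      Real.exp (8 * lam ^ 2 * Fintype.card Ω) * Fintype.card (Equiv.Perm Ω) := by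
  obtain ⟨n, hn⟩ : ∃ n, Fintype.card Ω = n + 1 :=
    ⟨Fintype.card Ω - 1, by have := Fintype.card_pos (α := Ω); omega⟩
  let e : Ω ≃ Fin (n + 1) := Fintype.equivFinOfCardEq hn
  have h := perm_mgf_fin n (fun j => f (e.symm j)) (fun j => g (e.symm j))
    (fun j => hf _) (fun j => hg _) lam
  have hs1 : ∑ j, f (e.symm j) = ∑ i, f i := Equiv.sum_comp e.symm f
  have hs2 : ∑ j, g (e.symm j) = ∑ i, g i := Equiv.sum_comp e.symm g
  have hsum : ∑ τ : Equiv.Perm Ω, Real.exp (lam * (∑ i, f i * g (τ i) -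
      (∑ i, f i) * (∑ i, g i) / Fintype.card Ω)) =
      ∑ τ : Equiv.Perm (Fin (n + 1)), Real.exp (lam * (∑ j, f (e.symm j) * g (e.symm (τ j)) -
      (∑ j, f (e.symm j)) * (∑ j, g (e.symm j)) / (n + 1 : ℕ))) := by
    refine Fintype.sum_equiv e.permCongr _ _ ?_
    intro τ
    rw [hs1, hs2, hn]
    congr 3
    rw [← Equiv.sum_comp e]
    refine Finset.sum_congr rfl fun i _ => ?_
    simp [Equiv.permCongr_apply]
  have hcard : (Fintype.card (Equiv.Perm Ω) : ℝ) = ((n + 1).factorial : ℝ) := by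
    rw [Fintype.card_congr e.permCongr, Fintype.card_perm, Fintype.card_fin]
  rw [hsum, hcard, hn]
  exact h

/-- TAIL -/
theorem perm_tail [Fintype Ω] [Nonempty Ω] (f g : Ω → ℝ) (hf : ∀ i, |f i| ≤ 1)
    (hg : ∀ i, |g i| ≤ 1) (t : ℝ) (ht : 0 ≤ t) :
    ((univ.filter fun τ : Equiv.Perm Ω => t * Fintype.card Ω ≤ |∑ i, f i * g (τ i) -
      (∑ i, f i) * (∑ i, g i) / Fintype.card Ω|).card : ℝ) ≤
      2 * Real.exp (-(t ^ 2 * Fintype.card Ω / 32)) * Fintype.card (Equiv.Perm Ω) := by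
  set N : ℝ := (Fintype.card Ω : ℝ) with hN
  set X : Equiv.Perm Ω → ℝ := fun τ => ∑ i, f i * g (τ i) - (∑ i, f i) * (∑ i, g i) / N with hX
  have h1 : ∑ τ : Equiv.Perm Ω, Real.exp (t / 16 * X τ) ≤
      Real.exp (8 * (t / 16) ^ 2 * N) * Fintype.card (Equiv.Perm Ω) :=
    perm_mgf f g hf hg (t / 16)
  have h2 : ∑ τ : Equiv.Perm Ω, Real.exp (-(t / 16) * X τ) ≤
      Real.exp (8 * (-(t / 16)) ^ 2 * N) * Fintype.card (Equiv.Perm Ω) :=
    perm_mgf f g hf hg (-(t / 16))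
  have h3 : ((univ.filter fun τ : Equiv.Perm Ω => t * N ≤ |X τ|).card : ℝ) ≤
      ∑ τ : Equiv.Perm Ω, Real.exp (-(t / 16 * (t * N))) *
        (Real.exp (t / 16 * X τ) + Real.exp (-(t / 16) * X τ)) := by
    rw [Finset.card_eq_sum_ones, Nat.cast_sum, Finset.sum_filter]
    refine Finset.sum_le_sum fun τ _ => ?_
    have hpos : 0 ≤ Real.exp (-(t / 16 * (t * N))) *
        (Real.exp (t / 16 * X τ) + Real.exp (-(t / 16) * X τ)) := by positivity
    split_ifs with hτ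
    · rw [mul_add, ← Real.exp_add, ← Real.exp_add, Nat.cast_one]
      rcases le_abs.mp hτ with h | h
      · have h4 : 0 ≤ -(t / 16 * (t * N)) + t / 16 * X τ := by
          have : t / 16 * (t * N) ≤ t / 16 * X τ := mul_le_mul_of_nonneg_left h (by positivity)
          linarith
        have h5 := Real.one_le_exp h4
        have h6 := (Real.exp_pos (-(t / 16 * (t * N)) + -(t / 16) * X τ)).le
        linarith
      · have h4 : 0 ≤ -(t / 16 * (t * N)) + -(t / 16) * X τ := by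
          have : t / 16 * (t * N) ≤ t / 16 * (-X τ) := mul_le_mul_of_nonneg_left h (by positivity)
          linarith
        have h5 := Real.one_le_exp h4
        have h6 := (Real.exp_pos (-(t / 16 * (t * N)) + t / 16 * X τ)).le
        linarith
    · exact hpos
  refine h3.trans ?_
  rw [← Finset.mul_sum, Finset.sum_add_distrib]
  have h7 : Real.exp (-(t / 16 * (t * N))) * Real.exp (8 * (t / 16) ^ 2 * N) =
      Real.exp (-(t ^ 2 * N / 32)) := by
    rw [← Real.exp_add]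
    congr 1
    ring
  have h8 : (8 : ℝ) * (-(t / 16)) ^ 2 * N = 8 * (t / 16) ^ 2 * N := by ring
  rw [h8] at h2
  calc Real.exp (-(t / 16 * (t * N))) *
        (∑ τ : Equiv.Perm Ω, Real.exp (t / 16 * X τ) +
          ∑ τ : Equiv.Perm Ω, Real.exp (-(t / 16) * X τ))
      ≤ Real.exp (-(t / 16 * (t * N))) *
        (Real.exp (8 * (t / 16) ^ 2 * N) * Fintype.card (Equiv.Perm Ω) +
          Real.exp (8 * (t / 16) ^ 2 * N) * Fintype.card (Equiv.Perm Ω)) :=
        mul_le_mul_of_nonneg_left (add_le_add h1 h2) (Real.exp_pos _).le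
    _ = 2 * (Real.exp (-(t / 16 * (t * N))) * Real.exp (8 * (t / 16) ^ 2 * N)) *
          Fintype.card (Equiv.Perm Ω) := by ring
    _ = 2 * Real.exp (-(t ^ 2 * N / 32)) * Fintype.card (Equiv.Perm Ω) := by rw [h7]

end Pool.Agent.HFL
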