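import Pool.Agent.HFL.FIN
import Pool.Agent.HFL.SYS
import Pool.Agent.H37.Cube.Basis
import Pool.Agent.H37.Cube.Density

set_option autoImplicit false

open scoped BigOperators Classical

namespace Pool.Agent.HFL

open Finset

variable {κ : Type} {Ω : Type}

private theorem THM_had {m : ℕ} (h : Pool.Agent.H37.Cube.Had (Fin m)) :
    ∃ A : Fin m → Fin m → ℝ, IsH A := by
  obtain ⟨H, o, h1, h2, h3⟩ := h
  refine ⟨H, h1, fun j k => ?_⟩
  rw [h3]
  by_cases e : j = k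
  · rw [if_pos e, if_pos e]
  · rw [if_neg e, if_neg e]

private theorem THM_sys (L m : ℕ) (hm : 0 < m) (γ : ℝ) (H : Om (Fin m) L → Om (Fin m) L → ℝ)
    (hH : IsH H) (hx : ∀ x : Om (Fin m) L → ℝ, Sg x → ∑ j, |∑ i, H j i * x i| ≤
      γ * ((Fintype.card (Om (Fin m) L) : ℝ) * √(Fintype.card (Om (Fin m) L) : ℝ))) :
    Pool.Agent.H37.Cube.Sys (Fin (2 ^ L * m)) (γ * √((2 ^ L * m : ℕ) : ℝ)) := by
  have : Nonempty (Fin m) := ⟨⟨0, hm⟩⟩
  have hc : Fintype.card (Om (Fin m) L) = 2 ^ L * m := by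
    rw [card_Om, Fintype.card_fin]
  have h1 := sys_of_isH H hH _ hx
  have hpos : (0 : ℝ) < ((2 ^ L * m : ℕ) : ℝ) := by
    exact_mod_cast Nat.mul_pos (by positivity) hm
  rw [hc] at h1
  have h2 : γ * (((2 ^ L * m : ℕ) : ℝ) * √((2 ^ L * m : ℕ) : ℝ)) / ((2 ^ L * m : ℕ) : ℝ) =
      γ * √((2 ^ L * m : ℕ) : ℝ) := by
    field_simp
  rw [h2] at h1
  exact h1.congr (Fintype.equivFinOfCardEq hc).symm

private theorem THM_orders (L N1 : ℕ) (ε : ℝ) (hε : 0 < ε) : ∃ N0 : ℕ, ∀ N ≥ N0, ∃ a b : ℕ,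
    N1 ≤ 2 ^ a * 12 ^ b ∧ 2 ^ L * (2 ^ a * 12 ^ b) ≤ N ∧
      (N : ℝ) < (1 + ε) * ((2 ^ L * (2 ^ a * 12 ^ b) : ℕ) : ℝ) := by
  obtain ⟨N2, hN2⟩ := Pool.Agent.H37.Cube.dense_orders (ρ := 1 + ε / 2) (by linarith)
  obtain ⟨K, hK⟩ := exists_nat_gt (2 / ε)
  obtain ⟨K2, hK2⟩ := exists_nat_gt ((1 + ε / 2) * ((N1 : ℝ) + K))
  refine ⟨2 ^ L * (N2 + K2), fun N hN => ?_⟩
  have hp : 0 < 2 ^ L := by positivity
  set M := N / 2 ^ L with hM
  have hM1 : N2 + K2 ≤ M := by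
    rw [hM, Nat.le_div_iff_mul_le hp, mul_comm]
    exact hN
  have hM2 : 2 ^ L * M ≤ N := Nat.mul_div_le N (2 ^ L)
  have hM3 : N < 2 ^ L * (M + 1) := Nat.lt_mul_div_succ N hp
  obtain ⟨a, b, h1, h2⟩ := hN2 M (le_trans (Nat.le_add_right _ _) hM1)
  have h3 : (K2 : ℝ) ≤ M := by exact_mod_cast le_trans (Nat.le_add_left _ _) hM1
  have h4 : (N1 : ℝ) + K < ((2 ^ a * 12 ^ b : ℕ) : ℝ) := by
    have h5 : (1 + ε / 2) * ((N1 : ℝ) + K) < (1 + ε / 2) * ((2 ^ a * 12 ^ b : ℕ) : ℝ) := by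
      linarith
    exact lt_of_mul_lt_mul_left h5 (by linarith)
  refine ⟨a, b, ?_, (Nat.mul_le_mul_left _ h1).trans hM2, ?_⟩
  · have h5 : (N1 : ℝ) ≤ ((2 ^ a * 12 ^ b : ℕ) : ℝ) := by
      have : (0 : ℝ) ≤ K := Nat.cast_nonneg K
      linarith
    exact_mod_cast h5
  · have h5 : (N : ℝ) < (2 : ℝ) ^ L * (M + 1) := by exact_mod_cast hM3
    have h6 : (0 : ℝ) < (2 : ℝ) ^ L := by positivity
    have h7 : (1 : ℝ) ≤ ε / 2 * ((2 ^ a * 12 ^ b : ℕ) : ℝ) := by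
      have h8 : 2 / ε < ((2 ^ a * 12 ^ b : ℕ) : ℝ) := by
        have : (0 : ℝ) ≤ N1 := Nat.cast_nonneg N1
        linarith
      rw [div_lt_iff₀ hε] at h8
      linarith
    have h8 : (M : ℝ) + 1 < (1 + ε) * ((2 ^ a * 12 ^ b : ℕ) : ℝ) := by linarith
    have h9 := mul_lt_mul_of_pos_left h8 h6
    have h10 : ((2 ^ L * (2 ^ a * 12 ^ b) : ℕ) : ℝ) = (2 : ℝ) ^ L * ((2 ^ a * 12 ^ b : ℕ) : ℝ) := by
      push_cast
      ring
    rw [h10]
    linarith

open Pool.Agent.H37.Cube in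
private theorem THM_theta_le {n : ℕ} {c : ℝ} (h : Sys (Fin (n + 1)) c) : theta n ≤ c := by
  obtain ⟨a, L, o, h1, h2, h3, -, h5⟩ := h
  let e : Fin (n + 1) ≃ Fin (n + 1) := Equiv.swap 0 o
  have he0 : e 0 = o := Equiv.swap_apply_left 0 o
  have hee : ∀ i, e (e i) = i := fun i => Equiv.swap_apply_self 0 o i
  let p : Fin (n + 1) → (Fin n → ℝ) := fun k i => (a k (e i.succ) + 1) / 2
  let l : Fin (n + 1) → ((Fin n → ℝ) →ᵃ[ℝ] ℝ) := fun j =>
    aff (L j o - ∑ i : Fin n, L j (e i.succ)) (fun i => 2 * L j (e i.succ))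
  have hval : ∀ j (t : Fin n → ℝ), l j t = L j o + ∑ i : Fin n, L j (e i.succ) * (2 * t i - 1) := by
    intro j t
    simp only [l, aff_apply]
    rw [sub_add_eq_add_sub, add_sub_assoc, ← Finset.sum_sub_distrib]
    congr 1
    refine Finset.sum_congr rfl fun i _ => ?_
    ring
  have hl : ∀ j k, l j (p k) = if j = k then 1 else 0 := by
    intro j k
    rw [hval, ← h3 j k, ← Equiv.sum_comp e (fun i => L j i * a k i), Fin.sum_univ_succ, he0, h2,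
      mul_one]
    congr 1
    refine Finset.sum_congr rfl fun i _ => ?_
    simp only [p]
    ring
  obtain ⟨S, hS1, hS2⟩ := exists_nodes p l hl
  refine theta_le S (fun j => ?_) fun t ht => ?_
  · rw [hS1 j]
    constructor
    · intro i
      have := (abs_le.1 (h1 j (e i.succ))).1
      simp only [p, Pi.zero_apply]
      linarith
    · intro i
      have := (abs_le.1 (h1 j (e i.succ))).2
      simp only [p, Pi.one_apply]
      linarith
  · simp_rw [hS2]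
    let x : Fin (n + 1) → ℝ := Fin.cons 1 (fun i => 2 * t i - 1)
    have hx : ∀ i, |x i| ≤ 1 := by
      intro i
      refine Fin.cases ?_ (fun i => ?_) i
      · simp [x]
      · simp only [x, Fin.cons_succ]
        have h0 : 0 ≤ t i := ht.1 i
        have h1 : t i ≤ 1 := ht.2 i
        rw [abs_le]
        constructor <;> linarith
    have h6 := h5 (fun i => x (e i)) (fun i => hx _)
    refine le_trans (le_of_eq ?_) h6
    refine Finset.sum_congr rfl fun j _ => ?_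
    congr 1
    rw [hval, ← Equiv.sum_comp e (fun i => L j i * x (e i)), Fin.sum_univ_succ]
    have heo : e o = 0 := Equiv.swap_apply_right 0 o
    simp only [hee, he0, heo]
    simp only [x, Fin.cons_zero, Fin.cons_succ, mul_one]

open Pool.Agent.H37.Cube in
private theorem THM_add {N m : ℕ} {γ ε : ℝ} (hγ : 0 < γ) (hε : 0 < ε) (h : m ≤ N)
    (h2 : (N : ℝ) < (1 + ε) * (m : ℝ)) (hs : Sys (Fin m) (γ * √(m : ℝ))) :
    Sys (Fin N) (γ * √(N : ℝ) + 5 * √(ε * N) + 1) := by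
  have h5 : √(m : ℝ) ≤ √(N : ℝ) := by
    apply Real.sqrt_le_sqrt
    exact_mod_cast h
  have h5' : γ * √(m : ℝ) ≤ γ * √(N : ℝ) := mul_le_mul_of_nonneg_left h5 hγ.le
  rcases Nat.eq_or_lt_of_le h with h3 | h3
  · subst h3
    refine hs.mono ?_
    have := Real.sqrt_nonneg (ε * (m : ℝ))
    linarith
  · obtain ⟨t, ht⟩ := Nat.exists_eq_add_of_lt h3
    have ht1 : N = m + (t + 1) := by omega
    have h4 := sys_add hs (sys_crude (t + 1) (by omega))
    rw [← ht1] at h4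
    refine h4.mono ?_
    have h6 : √((t + 1 : ℕ) : ℝ) ≤ √(ε * N) := by
      apply Real.sqrt_le_sqrt
      have h7 : (N : ℝ) = (m : ℝ) + ((t + 1 : ℕ) : ℝ) := by
        exact_mod_cast ht1
      have h8 : (m : ℝ) ≤ N := by exact_mod_cast h
      nlinarith
    linarith

/-- THM -/
theorem theta_small : ∃ c : ℝ, c < 1 ∧ ∀ᶠ n : ℕ in Filter.atTop,
    Pool.Agent.H37.Cube.theta n ≤ c * √(n : ℝ) := by
  obtain ⟨L, N1, γ, hγ0, hγ1, hmat⟩ := exists_mat
  set η : ℝ := 1 - γ with hη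
  have hη0 : 0 < η := by rw [hη]; linarith
  obtain ⟨N0, hN0⟩ := THM_orders L (N1 + 1) ((η / 20) ^ 2) (by positivity)
  have hlim : Filter.Tendsto (fun n : ℕ => √(n : ℝ)) Filter.atTop Filter.atTop :=
    Real.tendsto_sqrt_atTop.comp tendsto_natCast_atTop_atTop
  refine ⟨1 - η / 2, by linarith, ?_⟩
  filter_upwards [Filter.eventually_ge_atTop N0, hlim.eventually_ge_atTop (8 / η)] with n hn1 hn2
  obtain ⟨a, b, hab0, hab1, hab2⟩ := hN0 (n + 1) (by omega)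
  obtain ⟨A, hA⟩ := THM_had (Pool.Agent.H37.Cube.had_orders a b)
  have hm : 0 < 2 ^ a * 12 ^ b := by positivity
  have : Nonempty (Fin (2 ^ a * 12 ^ b)) := ⟨⟨0, hm⟩⟩
  obtain ⟨H, hH, hx⟩ := hmat (Fin (2 ^ a * 12 ^ b)) A hA (by
    rw [Fintype.card_fin]
    exact le_trans (Nat.le_succ _) hab0)
  have h1 := THM_theta_le (THM_add hγ0 (by positivity) hab1 hab2 (THM_sys L _ hm γ H hH hx))
  refine h1.trans ?_
  have h2 : √((n + 1 : ℕ) : ℝ) ≤ √(n : ℝ) + 1 := by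
    rw [Real.sqrt_le_left (by positivity)]
    have := Real.sq_sqrt (Nat.cast_nonneg n : (0 : ℝ) ≤ n)
    have h0 := Real.sqrt_nonneg (n : ℝ)
    push_cast
    nlinarith
  have h3 : √((η / 20) ^ 2 * ((n + 1 : ℕ) : ℝ)) = η / 20 * √((n + 1 : ℕ) : ℝ) := by
    rw [Real.sqrt_mul (by positivity), Real.sqrt_sq (by positivity)]
  rw [h3]
  have h4 : 8 ≤ √(n : ℝ) * η := by
    rwa [div_le_iff₀ hη0] at hn2
  have h5 : 0 ≤ √((n + 1 : ℕ) : ℝ) := Real.sqrt_nonneg _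
  have h6 : γ = 1 - η := by rw [hη]; ring
  rw [h6]
  have h7 : (1 - η + η / 4) * √((n + 1 : ℕ) : ℝ) ≤ (1 - η + η / 4) * (√(n : ℝ) + 1) :=
    mul_le_mul_of_nonneg_left h2 (by rw [hη]; linarith)
  nlinarith

end Pool.Agent.HFL
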