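import Pool.Agent.HFL.TAIL

set_option autoImplicit false

open scoped BigOperators Classical

namespace Pool.Agent.HFL

open Finset

variable {κ : Type} {Ω : Type}

private theorem TYP_exp (x : ℝ) : Complex.exp ((x : ℂ) * Complex.I) =
    (Real.cos x : ℂ) + (Real.sin x : ℂ) * Complex.I := by
  rw [Complex.exp_mul_I, Complex.ofReal_cos, Complex.ofReal_sin]

private theorem TYP_chf [Fintype Ω] (q m : ℕ) (x : Ω → ℝ) :
    chf q m x = (((∑ i, Real.cos (2 * Real.pi * m / q * x i) : ℝ) : ℂ) +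
      ((∑ i, Real.sin (2 * Real.pi * m / q * x i) : ℝ) : ℂ) * Complex.I) / (Fintype.card Ω : ℂ) := by
  unfold chf
  congr 1
  rw [Finset.sum_congr rfl (fun i _ => TYP_exp (2 * Real.pi * m / q * x i)),
    Finset.sum_add_distrib, ← Finset.sum_mul]
  push_cast
  rfl

private theorem TYP_norm (x y z w d n : ℝ) (hn : 0 < n) (hx : |x| ≤ d / 4 * n) (hy : |y| ≤ d / 4 * n)
    (hz : |z| ≤ d / 4 * n) (hw : |w| ≤ d / 4 * n) :
    ‖(((x : ℂ) + (y : ℂ)) + ((z : ℂ) + (w : ℂ)) * Complex.I) / (n : ℂ)‖ ≤ d := by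
  rw [norm_div, Complex.norm_real, Real.norm_eq_abs, abs_of_pos hn, div_le_iff₀ hn]
  have h1 : ‖((x : ℂ) + (y : ℂ)) + ((z : ℂ) + (w : ℂ)) * Complex.I‖ ≤
      (‖(x : ℂ)‖ + ‖(y : ℂ)‖) + (‖(z : ℂ)‖ + ‖(w : ℂ)‖) := by
    refine (norm_add_le _ _).trans (add_le_add (norm_add_le _ _) ?_)
    rw [norm_mul, Complex.norm_I, mul_one]
    exact norm_add_le _ _
  simp only [Complex.norm_real, Real.norm_eq_abs] at h1
  linarith

private theorem TYP_plus (A B C D Fc Fs Gc Gs n : ℝ) (hn : 0 < n) :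
    ((((A - B : ℝ) : ℂ) + ((C + D : ℝ) : ℂ) * Complex.I) / (n : ℂ)) -
      (((Fc : ℂ) + (Fs : ℂ) * Complex.I) / (n : ℂ)) * (((Gc : ℂ) + (Gs : ℂ) * Complex.I) / (n : ℂ)) =
    ((((A - Fc * Gc / n : ℝ) : ℂ) + ((-(B - Fs * Gs / n) : ℝ) : ℂ)) +
      (((C - Fs * Gc / n : ℝ) : ℂ) + ((D - Fc * Gs / n : ℝ) : ℂ)) * Complex.I) / (n : ℂ) := by
  have hn' : (n : ℂ) ≠ 0 := by exact_mod_cast hn.ne'
  push_cast
  field_simp
  ring_nf
  rw [Complex.I_sq]
  ring

private theorem TYP_minus (A B C D Fc Fs Gc Gs n : ℝ) (hn : 0 < n) :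
    ((((A + B : ℝ) : ℂ) + ((C - D : ℝ) : ℂ) * Complex.I) / (n : ℂ)) -
      (((Fc : ℂ) + (Fs : ℂ) * Complex.I) / (n : ℂ)) *
        (starRingEnd ℂ) (((Gc : ℂ) + (Gs : ℂ) * Complex.I) / (n : ℂ)) =
    ((((A - Fc * Gc / n : ℝ) : ℂ) + (((B - Fs * Gs / n) : ℝ) : ℂ)) +
      (((C - Fs * Gc / n : ℝ) : ℂ) + ((-(D - Fc * Gs / n) : ℝ) : ℂ)) * Complex.I) / (n : ℂ) := by
  have hn' : (n : ℂ) ≠ 0 := by exact_mod_cast hn.ne'
  simp only [map_div₀, map_add, map_mul, Complex.conj_ofReal, Complex.conj_I]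
  push_cast
  field_simp
  ring_nf
  rw [Complex.I_sq]
  ring

private theorem TYP_good [Fintype Ω] [Nonempty Ω] (q : ℕ) (δ : ℝ) (a b : Ω → ℝ) (τ : Equiv.Perm Ω)
    (m : ℕ)
    (hcc : |∑ i, Real.cos (2 * Real.pi * m / q * a i) * Real.cos (2 * Real.pi * m / q * b (τ i)) -
      (∑ i, Real.cos (2 * Real.pi * m / q * a i)) * (∑ i, Real.cos (2 * Real.pi * m / q * b i)) /
        Fintype.card Ω| ≤ δ / 4 * Fintype.card Ω)
    (hss : |∑ i, Real.sin (2 * Real.pi * m / q * a i) * Real.sin (2 * Real.pi * m / q * b (τ i)) -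
      (∑ i, Real.sin (2 * Real.pi * m / q * a i)) * (∑ i, Real.sin (2 * Real.pi * m / q * b i)) /
        Fintype.card Ω| ≤ δ / 4 * Fintype.card Ω)
    (hsc : |∑ i, Real.sin (2 * Real.pi * m / q * a i) * Real.cos (2 * Real.pi * m / q * b (τ i)) -
      (∑ i, Real.sin (2 * Real.pi * m / q * a i)) * (∑ i, Real.cos (2 * Real.pi * m / q * b i)) /
        Fintype.card Ω| ≤ δ / 4 * Fintype.card Ω)
    (hcs : |∑ i, Real.cos (2 * Real.pi * m / q * a i) * Real.sin (2 * Real.pi * m / q * b (τ i)) -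
      (∑ i, Real.cos (2 * Real.pi * m / q * a i)) * (∑ i, Real.sin (2 * Real.pi * m / q * b i)) /
        Fintype.card Ω| ≤ δ / 4 * Fintype.card Ω) :
    ‖chf q m (fun i => a i + b (τ i)) - chf q m a * chf q m b‖ ≤ δ ∧
    ‖chf q m (fun i => a i - b (τ i)) - chf q m a * (starRingEnd ℂ) (chf q m b)‖ ≤ δ := by
  have hn : (0 : ℝ) < Fintype.card Ω := by exact_mod_cast Fintype.card_pos
  have hcast : ((Fintype.card Ω : ℕ) : ℂ) = (((Fintype.card Ω : ℕ) : ℝ) : ℂ) := by push_cast; rfl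
  constructor
  · rw [TYP_chf, TYP_chf, TYP_chf]
    have e1 : ∑ i, Real.cos (2 * Real.pi * m / q * (a i + b (τ i))) =
        ∑ i, Real.cos (2 * Real.pi * m / q * a i) * Real.cos (2 * Real.pi * m / q * b (τ i)) -
        ∑ i, Real.sin (2 * Real.pi * m / q * a i) * Real.sin (2 * Real.pi * m / q * b (τ i)) := by
      rw [← Finset.sum_sub_distrib]
      refine Finset.sum_congr rfl fun i _ => ?_
      rw [mul_add, Real.cos_add]
    have e2 : ∑ i, Real.sin (2 * Real.pi * m / q * (a i + b (τ i))) =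
        ∑ i, Real.sin (2 * Real.pi * m / q * a i) * Real.cos (2 * Real.pi * m / q * b (τ i)) +
        ∑ i, Real.cos (2 * Real.pi * m / q * a i) * Real.sin (2 * Real.pi * m / q * b (τ i)) := by
      rw [← Finset.sum_add_distrib]
      refine Finset.sum_congr rfl fun i _ => ?_
      rw [mul_add, Real.sin_add]
    rw [e1, e2, hcast, TYP_plus _ _ _ _ _ _ _ _ _ hn]
    refine TYP_norm _ _ _ _ _ _ hn hcc ?_ hsc hcs
    rw [abs_neg]; exact hss
  · rw [TYP_chf, TYP_chf, TYP_chf]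
    have e1 : ∑ i, Real.cos (2 * Real.pi * m / q * (a i - b (τ i))) =
        ∑ i, Real.cos (2 * Real.pi * m / q * a i) * Real.cos (2 * Real.pi * m / q * b (τ i)) +
        ∑ i, Real.sin (2 * Real.pi * m / q * a i) * Real.sin (2 * Real.pi * m / q * b (τ i)) := by
      rw [← Finset.sum_add_distrib]
      refine Finset.sum_congr rfl fun i _ => ?_
      rw [mul_sub, Real.cos_sub]
    have e2 : ∑ i, Real.sin (2 * Real.pi * m / q * (a i - b (τ i))) =
        ∑ i, Real.sin (2 * Real.pi * m / q * a i) * Real.cos (2 * Real.pi * m / q * b (τ i)) -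
        ∑ i, Real.cos (2 * Real.pi * m / q * a i) * Real.sin (2 * Real.pi * m / q * b (τ i)) := by
      rw [← Finset.sum_sub_distrib]
      refine Finset.sum_congr rfl fun i _ => ?_
      rw [mul_sub, Real.sin_sub]
    rw [e1, e2, hcast, TYP_minus _ _ _ _ _ _ _ _ _ hn]
    refine TYP_norm _ _ _ _ _ _ hn hcc hss hsc ?_
    rw [abs_neg]; exact hcs

/-- TYP -/
theorem ty_count [Fintype Ω] [Nonempty Ω] (q : ℕ) (δ : ℝ) (hδ : 0 < δ) (a b : Ω → ℝ) :
    ((univ.filter fun τ : Equiv.Perm Ω => ¬ Ty q δ τ a b).card : ℝ) ≤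
      8 * q * Real.exp (-(δ ^ 2 * Fintype.card Ω / 512)) * Fintype.card (Equiv.Perm Ω) := by
  let Bd : (Ω → ℝ) → (Ω → ℝ) → Finset (Equiv.Perm Ω) := fun f g =>
    univ.filter fun τ : Equiv.Perm Ω => δ / 4 * Fintype.card Ω ≤ |∑ i, f i * g (τ i) -
      (∑ i, f i) * (∑ i, g i) / Fintype.card Ω|
  let fc : ℕ → Ω → ℝ := fun m i => Real.cos (2 * Real.pi * m / q * a i)
  let fs : ℕ → Ω → ℝ := fun m i => Real.sin (2 * Real.pi * m / q * a i)
  let gc : ℕ → Ω → ℝ := fun m i => Real.cos (2 * Real.pi * m / q * b i)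
  let gs : ℕ → Ω → ℝ := fun m i => Real.sin (2 * Real.pi * m / q * b i)
  have hsub : (univ.filter fun τ : Equiv.Perm Ω => ¬ Ty q δ τ a b) ⊆
      (Finset.range q).biUnion fun m =>
        (Bd (fc m) (gc m) ∪ Bd (fs m) (gs m)) ∪ (Bd (fs m) (gc m) ∪ Bd (fc m) (gs m)) := by
    intro τ hτ
    rw [Finset.mem_filter] at hτ
    by_contra hcon
    apply hτ.2
    intro m hm
    have hnot : τ ∉ (Bd (fc m) (gc m) ∪ Bd (fs m) (gs m)) ∪
        (Bd (fs m) (gc m) ∪ Bd (fc m) (gs m)) := fun h =>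
      hcon (Finset.mem_biUnion.2 ⟨m, Finset.mem_range.2 hm, h⟩)
    simp only [Finset.mem_union, not_or] at hnot
    obtain ⟨⟨h1, h2⟩, h3, h4⟩ := hnot
    have key : ∀ f g : Ω → ℝ, τ ∉ Bd f g → |∑ i, f i * g (τ i) -
        (∑ i, f i) * (∑ i, g i) / Fintype.card Ω| ≤ δ / 4 * Fintype.card Ω := by
      intro f g h
      have h' : ¬ (δ / 4 * Fintype.card Ω ≤ |∑ i, f i * g (τ i) -
        (∑ i, f i) * (∑ i, g i) / Fintype.card Ω|) := fun hh =>
        h (Finset.mem_filter.2 ⟨Finset.mem_univ _, hh⟩)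
      exact (not_le.1 h').le
    exact TYP_good q δ a b τ m (key _ _ h1) (key _ _ h2) (key _ _ h3) (key _ _ h4)
  have hcard : ∀ f g : Ω → ℝ, (∀ i, |f i| ≤ 1) → (∀ i, |g i| ≤ 1) → ((Bd f g).card : ℝ) ≤
      2 * Real.exp (-(δ ^ 2 * Fintype.card Ω / 512)) * Fintype.card (Equiv.Perm Ω) := by
    intro f g hf hg
    have h := perm_tail f g hf hg (δ / 4) (by positivity)
    have he : -((δ / 4) ^ 2 * (Fintype.card Ω : ℝ) / 32) = -(δ ^ 2 * Fintype.card Ω / 512) := by ring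
    rw [he] at h
    exact h
  have hfc : ∀ m i, |fc m i| ≤ 1 := fun m i => Real.abs_cos_le_one _
  have hfs : ∀ m i, |fs m i| ≤ 1 := fun m i => Real.abs_sin_le_one _
  have hgc : ∀ m i, |gc m i| ≤ 1 := fun m i => Real.abs_cos_le_one _
  have hgs : ∀ m i, |gs m i| ≤ 1 := fun m i => Real.abs_sin_le_one _
  have h1 : ((univ.filter fun τ : Equiv.Perm Ω => ¬ Ty q δ τ a b).card : ℝ) ≤
      ∑ m ∈ Finset.range q, (((Bd (fc m) (gc m)).card : ℝ) + (Bd (fs m) (gs m)).card +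
        ((Bd (fs m) (gc m)).card + (Bd (fc m) (gs m)).card)) := by
    have h2 := (Finset.card_le_card hsub).trans Finset.card_biUnion_le
    have h3 : ((univ.filter fun τ : Equiv.Perm Ω => ¬ Ty q δ τ a b).card : ℝ) ≤
      ((∑ m ∈ Finset.range q, ((Bd (fc m) (gc m) ∪ Bd (fs m) (gs m)) ∪
        (Bd (fs m) (gc m) ∪ Bd (fc m) (gs m))).card : ℕ) : ℝ) := by exact_mod_cast h2
    refine h3.trans ?_
    push_cast
    refine Finset.sum_le_sum fun m _ => ?_
    have h4 := (Finset.card_union_le (Bd (fc m) (gc m) ∪ Bd (fs m) (gs m))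
      (Bd (fs m) (gc m) ∪ Bd (fc m) (gs m))).trans
      (add_le_add (Finset.card_union_le _ _) (Finset.card_union_le _ _))
    exact_mod_cast h4
  refine h1.trans ?_
  have h5 : ∑ m ∈ Finset.range q, (((Bd (fc m) (gc m)).card : ℝ) + (Bd (fs m) (gs m)).card +
        ((Bd (fs m) (gc m)).card + (Bd (fc m) (gs m)).card)) ≤
      ∑ _m ∈ Finset.range q,
        4 * (2 * Real.exp (-(δ ^ 2 * Fintype.card Ω / 512)) * Fintype.card (Equiv.Perm Ω)) := by
    refine Finset.sum_le_sum fun m _ => ?_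
    have e1 := hcard _ _ (hfc m) (hgc m)
    have e2 := hcard _ _ (hfs m) (hgs m)
    have e3 := hcard _ _ (hfs m) (hgc m)
    have e4 := hcard _ _ (hfc m) (hgs m)
    linarith
  refine h5.trans (le_of_eq ?_)
  rw [Finset.sum_const, Finset.card_range, nsmul_eq_mul]
  ring

end Pool.Agent.HFL
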