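import Pool.Agent.HFL.Defs

set_option autoImplicit false

open scoped BigOperators Classical

namespace Pool.Agent.HFL

open Finset

variable {κ : Type} {Ω : Type}

private theorem vrt_aux [Fintype Ω] (H : Ω → Ω → ℝ) (c : ℝ)
    (h : ∀ x : Ω → ℝ, Sg x → ∑ j, |∑ i, H j i * x i| ≤ c) (s : Finset Ω) :
    ∀ x : Ω → ℝ, (∀ i, |x i| ≤ 1) → (∀ i, i ∉ s → x i = 1 ∨ x i = -1) →
      ∑ j, |∑ i, H j i * x i| ≤ c := by
  induction s using Finset.induction_on with
  | empty =>
    intro x _ hx
    exact h x (fun i => hx i (Finset.notMem_empty i))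
  | insert a s ha ih =>
    intro x hx1 hx2
    have hu : ∀ e : ℝ, (e = 1 ∨ e = -1) → ∑ j, |∑ i, H j i * Function.update x a e i| ≤ c := by
      intro e he
      apply ih
      · intro i
        by_cases hi : i = a
        · subst hi
          rw [Function.update_self]
          rcases he with he | he <;> rw [he] <;> simp
        · rw [Function.update_of_ne hi]
          exact hx1 i
      · intro i hi
        by_cases hia : i = a
        · subst hia
          rw [Function.update_self]
          exact he
        · rw [Function.update_of_ne hia]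
          apply hx2 i
          intro hc
          rcases Finset.mem_insert.1 hc with h1 | h1
          · exact hia h1
          · exact hi h1
    have h1 := hu 1 (Or.inl rfl)
    have h2 := hu (-1) (Or.inr rfl)
    have hxa := abs_le.1 (hx1 a)
    have hp : 0 ≤ (1 + x a) / 2 := by linarith [hxa.1]
    have hq : 0 ≤ (1 - x a) / 2 := by linarith [hxa.2]
    have hcomb : ∀ i, x i = (1 + x a) / 2 * Function.update x a 1 i +
        (1 - x a) / 2 * Function.update x a (-1) i := by
      intro i
      by_cases hi : i = a
      · subst hi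
        rw [Function.update_self, Function.update_self]
        ring
      · rw [Function.update_of_ne hi, Function.update_of_ne hi]
        ring
    have hj : ∀ j, |∑ i, H j i * x i| ≤
        (1 + x a) / 2 * |∑ i, H j i * Function.update x a 1 i| +
        (1 - x a) / 2 * |∑ i, H j i * Function.update x a (-1) i| := by
      intro j
      have e1 : ∑ i, H j i * x i = (1 + x a) / 2 * ∑ i, H j i * Function.update x a 1 i +
          (1 - x a) / 2 * ∑ i, H j i * Function.update x a (-1) i := by
        rw [Finset.mul_sum, Finset.mul_sum, ← Finset.sum_add_distrib]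
        apply Finset.sum_congr rfl
        intro i _
        linear_combination (H j i) * hcomb i
      rw [e1]
      refine (abs_add_le _ _).trans (le_of_eq ?_)
      rw [abs_mul, abs_mul, abs_of_nonneg hp, abs_of_nonneg hq]
    calc ∑ j, |∑ i, H j i * x i|
        ≤ ∑ j, ((1 + x a) / 2 * |∑ i, H j i * Function.update x a 1 i| +
          (1 - x a) / 2 * |∑ i, H j i * Function.update x a (-1) i|) :=
          Finset.sum_le_sum (fun j _ => hj j)
      _ = (1 + x a) / 2 * ∑ j, |∑ i, H j i * Function.update x a 1 i| +
          (1 - x a) / 2 * ∑ j, |∑ i, H j i * Function.update x a (-1) i| := by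
          rw [Finset.sum_add_distrib, ← Finset.mul_sum, ← Finset.mul_sum]
      _ ≤ (1 + x a) / 2 * c + (1 - x a) / 2 * c :=
          add_le_add (mul_le_mul_of_nonneg_left h1 hp) (mul_le_mul_of_nonneg_left h2 hq)
      _ = c := by ring

/-- VRT -/
theorem vert [Fintype Ω] (H : Ω → Ω → ℝ) (c : ℝ)
    (h : ∀ x : Ω → ℝ, Sg x → ∑ j, |∑ i, H j i * x i| ≤ c) (x : Ω → ℝ)
    (hx : ∀ i, |x i| ≤ 1) : ∑ j, |∑ i, H j i * x i| ≤ c :=
  vrt_aux H c h univ x hx (fun i hi => absurd (Finset.mem_univ i) hi)

end Pool.Agent.HFL
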